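import Pool.Agent.H77.Thin.Rand

/-!
# Thin classes and total functionals: basic tools
-/

set_option autoImplicit false

namespace Pool.Agent.H59.Hif

open Pool.Agent.H77.Thin Encodable Nat.Partrec

/-- The paths of a tree. -/
def paths (T : List Bool → Bool) : Set (ℕ → Bool) := {x | ∀ n, T (seg x n) = true}

theorem mem_paths {T : List Bool → Bool} {x : ℕ → Bool} :
    x ∈ paths T ↔ ∀ n, T (seg x n) = true := Iff.rfl

/-- The closure of a condition on strings under initial segments. -/
def down (p : List Bool → Bool) (σ : List Bool) : Bool :=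
  (List.range (σ.length + 1)).all fun j => p (σ.take j)

theorem down_iff {p : List Bool → Bool} {σ : List Bool} :
    down p σ = true ↔ ∀ j ≤ σ.length, p (σ.take j) = true := by
  simp only [down, List.all_eq_true, List.mem_range, Nat.lt_succ_iff]

theorem prim_down {p : List Bool → Bool} (hp : Primrec p) : Primrec (down p) := by
  refine prim_all (Primrec.list_range.comp (Primrec.succ.comp Primrec.list_length)) ?_
  exact hp.comp (prim_take Primrec.snd Primrec.fst)

theorem down_closed {p : List Bool → Bool} (σ τ : List Bool) (h : σ <+: τ)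
    (hτ : down p τ = true) : down p σ = true := by
  rw [down_iff] at hτ ⊢
  intro j hj
  have hle := h.length_le
  have h1 := hτ j (by omega)
  rwa [show τ.take j = σ.take j by
    rw [List.prefix_iff_eq_take] at h
    rw [h, List.take_take, min_eq_left (by omega)]] at h1

theorem paths_down (p : List Bool → Bool) : paths (down p) = {x | ∀ n, p (seg x n) = true} := by
  ext z
  simp only [mem_paths, Set.mem_ofPred_eq, down_iff, seg_length]
  constructor
  · intro h n
    have := h n n le_rfl
    rwa [seg_take z le_rfl] at this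
  · intro h n j hj
    rw [seg_take z hj]
    exact h j

theorem isPi01_paths {T : List Bool → Bool} (hTp : Primrec T)
    (hT : ∀ σ τ : List Bool, σ <+: τ → T τ = true → T σ = true) : IsPi01 (paths T) :=
  ⟨fun σ => T σ = true, ComputablePred.computable_iff.2 ⟨_, hTp.to_comp, rfl⟩, hT, rfl⟩

theorem isPi01_of_prim {p : List Bool → Bool} (hp : Primrec p) :
    IsPi01 {z : ℕ → Bool | ∀ n, p (seg z n) = true} := by
  rw [← paths_down]
  exact isPi01_paths (prim_down hp) down_closed

theorem isClosed_pi01 {P : Set (ℕ → Bool)} (h : IsPi01 P) : IsClosed P := by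
  obtain ⟨T, _, _, rfl⟩ := h
  exact isClosed_paths T

theorem sub_thin {P Q : Set (ℕ → Bool)} (hP : IsThin P) (hQ : IsPi01 Q) (h : Q ⊆ P) :
    IsThin Q := by
  refine ⟨hQ, fun R hR hRQ => ?_⟩
  obtain ⟨U, hU, hRU⟩ := hP.2 R hR (hRQ.trans h)
  refine ⟨U, hU, ?_⟩
  ext z
  constructor
  · intro hz
    exact ⟨hRQ hz, (hRU ▸ hz : z ∈ P ∩ U).2⟩
  · rintro ⟨h1, h2⟩
    rw [hRU]
    exact ⟨h h1, h2⟩

/-- A `Π⁰₁` subclass of a thin class contains a neighbourhood of each of its members. -/
theorem nbhd {P A : Set (ℕ → Bool)} (hP : IsThin P) (hA : IsPi01 A) (h : A ⊆ P)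
    {y : ℕ → Bool} (hy : y ∈ A) : ∃ σ, Ini σ y ∧ ∀ z ∈ P, Ini σ z → z ∈ A := by
  obtain ⟨U, hU, hAU⟩ := hP.2 A hA h
  rw [hAU] at hy
  obtain ⟨σ, hσ, hσU⟩ := exists_ini_of_isOpen hU.isOpen hy.2
  refine ⟨σ, hσ, fun z hz hz' => ?_⟩
  rw [hAU]
  exact ⟨hz, hσU hz'⟩

/-- The part of a tree comparable with a string. -/
def cone (T : List Bool → Bool) (σ ρ : List Bool) : Bool := T ρ && cmp σ ρ

theorem prim_cone {T : List Bool → Bool} (hTp : Primrec T) (σ : List Bool) :
    Primrec (cone T σ) := by
  unfold cone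
  exact Primrec.and.comp hTp (prim_cmp.comp (Primrec.const σ) Primrec.id)

theorem cone_closed {T : List Bool → Bool}
    (hT : ∀ σ τ : List Bool, σ <+: τ → T τ = true → T σ = true) (μ : List Bool)
    (σ τ : List Bool) (h : σ <+: τ) (hτ : cone T μ τ = true) : cone T μ σ = true := by
  simp only [cone, Bool.and_eq_true, cmp_iff] at hτ ⊢
  refine ⟨hT _ _ h hτ.1, ?_⟩
  rcases hτ.2 with h1 | h1
  · exact List.prefix_or_prefix_of_prefix h1 h
  · exact Or.inr (h.trans h1)

theorem paths_cone {T : List Bool → Bool} (μ : List Bool) :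
    paths (cone T μ) = {z | z ∈ paths T ∧ Ini μ z} := by
  ext z
  simp only [mem_paths, cone, Bool.and_eq_true, cmp_iff, Set.mem_ofPred_eq]
  constructor
  · intro h
    refine ⟨fun n => (h n).1, ?_⟩
    rcases (h μ.length).2 with h1 | h1
    · exact ini_of_prefix h1
    · have h2 : seg z μ.length = μ := h1.eq_of_length (seg_length z _)
      exact h2
  · rintro ⟨h1, h2⟩ n
    refine ⟨h1 n, ?_⟩
    exact (ini_comparable h2 (ini_seg z n))

/-- A closed set of strings with members of every length has a path. -/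
theorem exists_path {T : List Bool → Bool}
    (hT : ∀ σ τ : List Bool, σ <+: τ → T τ = true → T σ = true)
    (h : ∀ s, ∃ ρ : List Bool, ρ.length = s ∧ T ρ = true) : ∃ z, z ∈ paths T := by
  obtain ⟨z, hz, _⟩ := exists_of_alive (T := T) hT (ρ := []) (fun s => by
    rw [alive_iff]
    obtain ⟨ρ, h1, h2⟩ := h s
    exact ⟨ρ, h1, Or.inr (List.nil_prefix), h2⟩)
  exact ⟨z, hz⟩

/-- The functional is total on the paths of the tree. -/
def Total (v : List Bool → ℕ → Option ℕ) (P : Set (ℕ → Bool)) : Prop :=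
  ∀ z ∈ P, ∀ n, ∃ l, (v (seg z l) n).isSome = true

/-- The function computed by the functional. -/
noncomputable def out (v : List Bool → ℕ → Option ℕ) (z : ℕ → Bool) (n : ℕ) : ℕ := by
  classical
  exact if h : ∃ l, (v (seg z l) n).isSome = true then (v (seg z h.choose) n).getD 0 else 0

theorem out_eq {v : List Bool → ℕ → Option ℕ} (hv : IsFun v) {z : ℕ → Bool} {n m l : ℕ}
    (h : v (seg z l) n = some m) : out v z n = m := by
  have h1 : ∃ l, (v (seg z l) n).isSome = true := ⟨l, by rw [h]; rfl⟩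
  unfold out
  rw [dif_pos h1]
  obtain ⟨k, hk⟩ := Option.isSome_iff_exists.1 h1.choose_spec
  have h2 := hv.mono (seg_prefix z (le_max_left l h1.choose)) h
  have h3 := hv.mono (seg_prefix z (le_max_right l h1.choose)) hk
  rw [hk]
  rw [h2] at h3
  exact (Option.some.inj h3).symm

theorem out_ini {v : List Bool → ℕ → Option ℕ} (hv : IsFun v) {z : ℕ → Bool} {n m : ℕ}
    {ρ : List Bool} (hρ : Ini ρ z) (h : v ρ n = some m) : out v z n = m := by
  refine out_eq hv (l := ρ.length) ?_
  rw [hρ]
  exact h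

theorem Total.get {v : List Bool → ℕ → Option ℕ} (hv : IsFun v) {P : Set (ℕ → Bool)}
    (h : Total v P) {z : ℕ → Bool} (hz : z ∈ P) (n : ℕ) : ∃ l, ∀ l', l ≤ l' →
      v (seg z l') n = some (out v z n) := by
  obtain ⟨l, hl⟩ := h z hz n
  obtain ⟨m, hm⟩ := Option.isSome_iff_exists.1 hl
  refine ⟨l, fun l' hl' => ?_⟩
  rw [out_eq hv hm]
  exact hv.mono (seg_prefix z hl') hm

theorem Total.sub {v : List Bool → ℕ → Option ℕ} {P Q : Set (ℕ → Bool)}
    (h : Total v P) (hQ : Q ⊆ P) : Total v Q := fun z hz n => h z (hQ hz) n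

theorem computes_out {v : List Bool → ℕ → Option ℕ} (hv : IsFun v) {y : ℕ → Bool} {f : ℕ → ℕ}
    (h : Computes v y f) (n : ℕ) : out v y n = f n := by
  obtain ⟨l, hl⟩ := h n
  exact out_eq hv hl

end Pool.Agent.H59.Hif
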