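import Pool.Agent.H77.Thin.Defs

/-!
# The points of thin degree: definition
-/

set_option autoImplicit false

namespace Pool.Agent.H59.Hif

open Pool.Agent.H77.Thin

/-- The points whose Turing degree contains a member of a thin `Π⁰₁` class. -/
def ThinDegree : Set (ℕ → Bool) :=
  {x | ∃ P, IsThin P ∧ ∃ y ∈ P, TuringEquivalent (chr x) (chr y)}

end Pool.Agent.H59.Hif
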