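import Pool.Agent.H59.Hif.Cat
import Pool.Agent.H59.Hif.DefsDeg

/-!
# The Borel class of the set of points of thin degree
-/

set_option autoImplicit false

namespace Pool.Agent.H59.Hif

open Pool.Agent.H77.Thin Encodable
open Nat.Partrec (Code)

variable {T : List Bool → Bool} {v u : List Bool → ℕ → Option ℕ}

theorem computes_trec (hv : IsFun v) {y : ℕ → Bool} {f : ℕ → ℕ} (h : Computes v y f) :
    TRec y f := by
  classical
  have h1 : ∀ n, ∃ l, (v (seg y l) n).isSome = true := fun n => by
    obtain ⟨l, hl⟩ := h n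
    exact ⟨l, by rw [hl]; rfl⟩
  have h2 : TRec y fun n => Nat.find (h1 n) := by
    refine trec_least (q := fun ρ n => (v ρ n).isSome) (Primrec.option_isSome.comp₂ hv.prim)
      (fun n => Nat.find_spec (h1 n)) (fun n m hm => ?_)
    have := Nat.find_min (h1 n) hm
    simpa using this
  let G : ℕ → ℕ := fun a => (v ((decode a.unpair.1 : Option (List Bool)).getD [])
    a.unpair.2).getD 0
  have hG : Primrec G := by
    refine Primrec.option_getD.comp (hv.prim.comp (Primrec.option_getD.comp
      (Primrec.decode.comp (Primrec.fst.comp Primrec.unpair)) (Primrec.const []))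
      (Primrec.snd.comp Primrec.unpair)) (Primrec.const 0)
  have h3 : TRec y fun n => G (Nat.pair (encode (seg y (Nat.find (h1 n)))) n) :=
    (TRec.of_computable hG.to_comp).comp ((trec_seg.comp h2).pair
      (TRec.of_computable Computable.id))
  have h4 : f = fun n => G (Nat.pair (encode (seg y (Nat.find (h1 n)))) n) := by
    funext n
    obtain ⟨m, hm⟩ := Option.isSome_iff_exists.1 (Nat.find_spec (h1 n))
    simp only [G, Nat.unpair_pair, encodek, Option.getD_some]
    rw [hm, Option.getD_some, ← computes_out hv h n, out_eq hv hm]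
  rw [h4]
  exact h3

/-- The condition that the value is a bit and that the second functional recovers the oracle. -/
def back (v u : List Bool → ℕ → Option ℕ) (b : Bool) (ρ : List Bool) (n : ℕ) : Bool :=
  (decide (v ρ n = some 0) || decide (v ρ n = some 1)) &&
    (b || (decide (n < ρ.length) && (List.range (ρ.length + 1)).any fun k =>
      conv v ρ k && decide (u (word v ρ k) n = (ρ[n]?).map Bool.toNat)))

theorem prim_back (hv : Primrec₂ v) (hu : Primrec₂ u) (b : Bool) : Primrec₂ (back v u b) := by
  have h1 : Primrec fun a : List Bool × ℕ => v a.1 a.2 := hv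
  refine Primrec.and.comp (Primrec.or.comp (prim_beq h1 (Primrec.const _))
    (prim_beq h1 (Primrec.const _))) (Primrec.or.comp (Primrec.const b) (Primrec.and.comp ?_ ?_))
  · exact PrimrecPred.decide (Primrec.nat_lt.comp Primrec.snd
      (Primrec.list_length.comp Primrec.fst))
  · refine prim_any (Primrec.list_range.comp (Primrec.succ.comp
      (Primrec.list_length.comp Primrec.fst))) ?_
    refine Primrec.and.comp ((prim_conv hv).comp (Primrec.fst.comp Primrec.fst) Primrec.snd) ?_
    refine prim_beq (hu.comp ((prim_word hv).comp (Primrec.fst.comp Primrec.fst) Primrec.snd)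
      (Primrec.snd.comp Primrec.fst)) ?_
    refine Primrec.option_map (Primrec.list_getElem?.comp (Primrec.fst.comp Primrec.fst)
      (Primrec.snd.comp Primrec.fst)) ?_
    exact (Primrec.dom_finite Bool.toNat).comp Primrec.snd

/-- The members of `P` at which the functional gives a point from which the second functional
recovers the oracle (the last condition is dropped if `b` is `true`). -/
def good (P : Set (ℕ → Bool)) (v u : List Bool → ℕ → Option ℕ) (b : Bool) :
    Set (ℕ → Bool) := {z | z ∈ P ∧ ∀ n, ∃ l, back v u b (seg z l) n = true}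

theorem good_iff (hv : IsFun v) {P : Set (ℕ → Bool)} {z : ℕ → Bool} {b : Bool} :
    z ∈ good P v u b ↔ z ∈ P ∧ Computes v z (fun n => (pt v z n).toNat) ∧
      (b = true ∨ Computes u (pt v z) (fun n => (z n).toNat)) := by
  unfold good
  simp only [Set.mem_ofPred_eq]
  refine and_congr_right fun hz => ?_
  simp only [back, Bool.and_eq_true, Bool.or_eq_true, decide_eq_true_eq, List.any_eq_true,
    List.mem_range, seg_length]
  constructor
  · intro h
    have h1 : Computes v z (fun n => (pt v z n).toNat) := by
      intro n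
      obtain ⟨l, hl, _⟩ := h n
      refine ⟨l, ?_⟩
      rcases hl with hl | hl
      · rw [hl]; simp [pt, out_eq hv hl]
      · rw [hl]; simp [pt, out_eq hv hl]
    refine ⟨h1, ?_⟩
    by_cases hb : b = true
    · exact Or.inl hb
    · right
      intro n
      obtain ⟨l, _, hl⟩ := h n
      rcases hl with hl | ⟨hn, k, _, hk, hl⟩
      · exact absurd hl hb
      · refine ⟨k, ?_⟩
        rw [word_pt hv hk, seg_getElem? z hn] at hl
        exact hl
  · rintro ⟨h1, h2⟩ n
    obtain ⟨l, hl⟩ := h1 n
    have hbit : ∀ {l' : ℕ}, l ≤ l' → v (seg z l') n = some 0 ∨ v (seg z l') n = some 1 := by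
      intro l' hl'
      have h3 := hv.mono (seg_prefix z hl') hl
      simp only at h3
      rw [h3]
      cases pt v z n <;> simp
    rcases h2 with h2 | h2
    · exact ⟨l, hbit le_rfl, Or.inl h2⟩
    · obtain ⟨k, hk⟩ := h2 n
      have htot : Total v {z} := by
        intro z' hz' m
        rw [Set.mem_singleton_iff.1 hz']
        obtain ⟨l', hl'⟩ := h1 m
        exact ⟨l', by rw [hl']; rfl⟩
      obtain ⟨l₁, hl₁⟩ := exists_conv' hv htot (Set.mem_singleton z) k
      refine ⟨max (max l l₁) (max k (n + 1)), hbit (le_trans (le_max_left _ _)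
        (le_max_left _ _)), Or.inr ⟨?_, k, ?_, ?_, ?_⟩⟩
      · have := le_max_right (max l l₁) (max k (n + 1))
        have := le_max_right k (n + 1)
        omega
      · have := le_max_right (max l l₁) (max k (n + 1))
        have := le_max_left k (n + 1)
        omega
      · exact hl₁ _ (le_trans (le_max_right _ _) (le_max_left _ _))
      · rw [word_pt hv (hl₁ _ (le_trans (le_max_right l l₁) (le_max_left _ _))),
          seg_getElem? z (by
            have := le_max_right (max l l₁) (max k (n + 1))
            have := le_max_right k (n + 1)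
            omega)]
        exact hk

theorem isClosed_good (hTp : Primrec T) (hthin : IsThin (paths T)) (hv : IsFun v) (hu : IsFun u)
    (b : Bool) : IsClosed (pt v '' good (paths T) v u b) := by
  refine isClosed_image hv (isClosed_sigma hTp hthin (prim_back hv.prim hu.prim b)) ?_
  intro z hz n
  obtain ⟨l, hl⟩ := ((good_iff hv).1 hz).2.1 n
  exact ⟨l, by rw [hl]; rfl⟩

open Classical in
/-- The closed pieces. -/
noncomputable def piece (b : Bool) (j : ℕ) : Set (ℕ → Bool) :=
  if h : ∃ q : Code × Code × Code, encode q = j ∧ IsThin (paths (tree q.1)) ∧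
      IsFun (val q.2.1) ∧ IsFun (val q.2.2) then
    pt (val h.choose.2.1) '' good (paths (tree h.choose.1)) (val h.choose.2.1)
      (val h.choose.2.2) b
  else ∅

theorem isClosed_piece (b : Bool) (j : ℕ) : IsClosed (piece b j) := by
  unfold piece
  split_ifs with h
  · have h1 := h.choose_spec
    exact isClosed_good (prim_tree _) h1.2.1 h1.2.2.1 h1.2.2.2 b
  · exact isClosed_empty

theorem mem_piece {b : Bool} {x : ℕ → Bool} : (∃ j, x ∈ piece b j) ↔
    ∃ q : Code × Code × Code, IsThin (paths (tree q.1)) ∧ IsFun (val q.2.1) ∧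
      IsFun (val q.2.2) ∧ x ∈ pt (val q.2.1) '' good (paths (tree q.1)) (val q.2.1)
        (val q.2.2) b := by
  constructor
  · rintro ⟨j, hj⟩
    unfold piece at hj
    split_ifs at hj with h
    · have h1 := h.choose_spec
      exact ⟨h.choose, h1.2.1, h1.2.2.1, h1.2.2.2, hj⟩
    · exact absurd hj (by simp)
  · rintro ⟨q, h1, h2, h3, hx⟩
    refine ⟨encode q, ?_⟩
    have h : ∃ q' : Code × Code × Code, encode q' = encode q ∧ IsThin (paths (tree q'.1)) ∧
      IsFun (val q'.2.1) ∧ IsFun (val q'.2.2) := ⟨q, rfl, h1, h2, h3⟩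
    have h4 : h.choose = q := encode_injective h.choose_spec.1
    unfold piece
    rw [dif_pos h, h4]
    exact hx

theorem thinDegree_eq : ThinDegree = ⋃ j, piece false j := by
  ext x
  rw [Set.mem_iUnion, mem_piece]
  constructor
  · rintro ⟨P, hP, y, hy, hxy⟩
    obtain ⟨cT, hcT⟩ := exists_tree hP.1
    have hPT : P = paths (tree cT) := hcT
    obtain ⟨cv, hv, hv'⟩ := exists_val (f := fun n => (x n).toNat) hxy.1
    obtain ⟨cu, hu, hu'⟩ := exists_val (f := fun n => (y n).toNat) hxy.2
    have hx : pt (val cv) y = x := by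
      funext n
      unfold pt
      rw [computes_out hv hv' n]
      cases x n <;> rfl
    refine ⟨(cT, cv, cu), hPT ▸ hP, hv, hu, y, ?_, hx⟩
    rw [good_iff hv]
    refine ⟨hPT ▸ hy, ?_, Or.inr ?_⟩
    · show Computes (val cv) y (fun n => (pt (val cv) y n).toNat)
      rw [hx]
      exact hv'
    · show Computes (val cu) (pt (val cv) y) (fun n => (y n).toNat)
      rw [hx]
      exact hu'
  · rintro ⟨q, h1, h2, h3, y, hy, rfl⟩
    obtain ⟨hyP, hy1, hy2⟩ := (good_iff h2).1 hy
    rcases hy2 with hy2 | hy2
    · exact absurd hy2 (by simp)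
    · exact ⟨_, h1, y, hyP, (computes_trec h2 hy1).turing, (computes_trec h3 hy2).turing⟩

theorem belowThin_eq : BelowThin = ⋃ j, piece true j := by
  ext x
  rw [Set.mem_iUnion, mem_piece]
  constructor
  · rintro ⟨P, hP, y, hy, hxy⟩
    obtain ⟨cT, hcT⟩ := exists_tree hP.1
    have hPT : P = paths (tree cT) := hcT
    obtain ⟨cv, hv, hv'⟩ := exists_val (f := fun n => (x n).toNat) hxy
    have hx : pt (val cv) y = x := by
      funext n
      unfold pt
      rw [computes_out hv hv' n]
      cases x n <;> rfl
    refine ⟨(cT, cv, cv), hPT ▸ hP, hv, hv, y, ?_, hx⟩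
    rw [good_iff hv]
    refine ⟨hPT ▸ hy, ?_, Or.inl rfl⟩
    show Computes (val cv) y (fun n => (pt (val cv) y n).toNat)
    rw [hx]
    exact hv'
  · rintro ⟨q, h1, h2, h3, y, hy, rfl⟩
    obtain ⟨hyP, hy1, _⟩ := (good_iff h2).1 hy
    exact ⟨_, h1, y, hyP, (computes_trec h2 hy1).turing⟩

/-! ### Computable points -/

theorem singleton_thin (σ : List Bool) : IsThin {fun k => (σ[k]?).getD false} := by
  have hf : Primrec fun k : ℕ => (σ[k]?).getD false :=
    Primrec.option_getD.comp (Primrec.list_getElem?.comp (Primrec.const σ) Primrec.id)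
      (Primrec.const false)
  have hp : Primrec fun ρ : List Bool =>
      decide (ρ = (List.range ρ.length).map fun k => (σ[k]?).getD false) :=
    prim_beq Primrec.id (Primrec.list_map (Primrec.list_range.comp Primrec.list_length)
      (hf.comp Primrec.snd))
  have h1 := isPi01_of_prim hp
  have h2 : ({fun k => (σ[k]?).getD false} : Set (ℕ → Bool)) = {z : ℕ → Bool | ∀ n,
      decide (seg z n = (List.range (seg z n).length).map fun k => (σ[k]?).getD false) = true} := by
    ext z
    simp only [Set.mem_singleton_iff, Set.mem_ofPred_eq, decide_eq_true_eq, seg_length]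
    constructor
    · rintro rfl n
      rfl
    · intro h
      funext k
      have h3 : (seg z (k + 1))[k]? = ((List.range (k + 1)).map fun k =>
        (σ[k]?).getD false)[k]? := by rw [← h (k + 1)]
      rw [seg_getElem? z (Nat.lt_succ_self k)] at h3
      simpa using h3
  refine ⟨h2 ▸ h1, fun Q _ hQ => ?_⟩
  rcases Set.subset_singleton_iff_eq.1 hQ with h | h
  · exact ⟨∅, isClopen_empty, by rw [h]; simp⟩
  · exact ⟨Set.univ, isClopen_univ, by rw [h]; simp⟩

theorem dense_thinDegree : Dense ThinDegree := by
  rw [dense_iff_inter_open]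
  rintro U hU ⟨x, hx⟩
  obtain ⟨σ, _, hσU⟩ := exists_ini_of_isOpen hU hx
  refine ⟨fun k => (σ[k]?).getD false, hσU ?_, _, singleton_thin σ, _, rfl, ?_⟩
  · show Ini σ (fun k => (σ[k]?).getD false)
    rw [ini_iff_getElem]
    intro n b hb
    simp only [hb, Option.getD_some]
  · exact TuringEquivalent.refl _

theorem thinDegree_sub : ThinDegree ⊆ BelowThin := by
  rintro x ⟨P, hP, y, hy, hxy⟩
  exact ⟨P, hP, y, hy, hxy.1⟩

theorem not_gdelta {S : Set (ℕ → Bool)} (h1 : ThinDegree ⊆ S) (h2 : S ⊆ BelowThin) :
    ¬ IsGδ S := by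
  intro h
  have h3 : S ∈ residual (ℕ → Bool) := residual_of_dense_Gδ h (dense_thinDegree.mono h1)
  have h4 : Sᶜ ∈ residual (ℕ → Bool) := meagre_all.mono h2
  have h5 : (∅ : Set (ℕ → Bool)) ∈ residual (ℕ → Bool) := by
    have := Filter.inter_mem h3 h4
    rwa [Set.inter_compl_self] at this
  have h6 := dense_of_mem_residual h5
  exact Set.not_nonempty_empty h6.nonempty

end Pool.Agent.H59.Hif
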