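import Pool.Agent.H59.Hif.Free

/-!
# Typical members of thin classes
-/

set_option autoImplicit false

namespace Pool.Agent.H59.Hif

open Pool.Agent.H77.Thin Encodable
open Nat.Partrec (Code)

variable {T : List Bool → Bool} {v : List Bool → ℕ → Option ℕ}

/-- In a thin class, a countable intersection of `Σ⁰₁` conditions defines a closed set. -/
theorem isClosed_sigma (hTp : Primrec T) (hthin : IsThin (paths T)) {w : List Bool → ℕ → Bool}
    (hw : Primrec₂ w) : IsClosed {z | z ∈ paths T ∧ ∀ n, ∃ l, w (seg z l) n = true} := by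
  have h1 : ∀ n, ∃ U : Set (ℕ → Bool), IsClopen U ∧
      {z : ℕ → Bool | ∀ l, (T (seg z l) && !w (seg z l) n) = true} = paths T ∩ U := by
    intro n
    refine hthin.2 _ (isPi01_of_prim (Primrec.and.comp hTp (Primrec.not.comp
      (hw.comp Primrec.id (Primrec.const n))))) ?_
    intro z hz l
    have := hz l
    simp only [Bool.and_eq_true] at this
    exact this.1
  choose U hU hUn using h1
  have h2 : {z | z ∈ paths T ∧ ∀ n, ∃ l, w (seg z l) n = true} =
      paths T ∩ ⋂ n, (U n)ᶜ := by
    ext z
    simp only [Set.mem_ofPred_eq, Set.mem_inter_iff, Set.mem_iInter, Set.mem_compl_iff]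
    refine and_congr_right fun hz => forall_congr' fun n => ?_
    have h3 : z ∈ U n ↔ ∀ l, (T (seg z l) && !w (seg z l) n) = true := by
      have h4 := Set.ext_iff.1 (hUn n) z
      simp only [Set.mem_ofPred_eq, Set.mem_inter_iff] at h4
      rw [h4]
      exact ⟨fun h => ⟨hz, h⟩, fun h => h.2⟩
    rw [h3, not_forall]
    refine exists_congr fun l => ?_
    rw [show T (seg z l) = true from hz l]
    cases w (seg z l) n <;> simp
  rw [h2]
  exact (isClosed_pi01 hthin.1).inter (isClosed_iInter fun n => (hU n).compl.isClosed)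

/-- The values of a total functional on a `Π⁰₁` class at `n` as seen at stage `s`. -/
def top (T : List Bool → Bool) (v : List Bool → ℕ → Option ℕ) (n s : ℕ) : Option ℕ :=
  bif (strs s).all fun ρ => !T ρ || (v ρ n).isSome then
    some ((strs s).foldr (fun ρ a => max ((v ρ n).getD 0) a) 0) else none

theorem prim_top (hTp : Primrec T) (hv : Primrec₂ v) : Primrec₂ (top T v) := by
  have h1 : Primrec fun a : (ℕ × ℕ) × List Bool => v a.2 a.1.1 :=
    hv.comp Primrec.snd (Primrec.fst.comp Primrec.fst)
  refine Primrec.cond (prim_all (prim_strs.comp Primrec.snd) ?_)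
    (Primrec.option_some.comp ?_) (Primrec.const none)
  · exact Primrec.or.comp (Primrec.not.comp (hTp.comp Primrec.snd))
      (Primrec.option_isSome.comp h1)
  · refine Primrec.list_foldr (h := fun (a : ℕ × ℕ) (b : List Bool × ℕ) =>
      max ((v b.1 a.1).getD 0) b.2) (prim_strs.comp Primrec.snd) (Primrec.const 0) ?_
    refine Primrec.nat_max.comp (Primrec.option_getD.comp ?_ (Primrec.const 0))
      (Primrec.snd.comp Primrec.snd)
    exact hv.comp (Primrec.fst.comp Primrec.snd) (Primrec.fst.comp Primrec.fst)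

theorem le_foldr {L : List (List Bool)} {f : List Bool → ℕ} {ρ : List Bool} (h : ρ ∈ L) :
    f ρ ≤ L.foldr (fun ρ a => max (f ρ) a) 0 := by
  induction L with
  | nil => exact absurd h (by simp)
  | cons a L ih =>
    rw [List.foldr_cons]
    rcases List.mem_cons.1 h with h1 | h1
    · rw [← h1]
      exact le_max_left _ _
    · exact le_trans (ih h1) (le_max_right _ _)

theorem exists_stage (hT : ∀ σ τ : List Bool, σ <+: τ → T τ = true → T σ = true)
    (hv : IsFun v) (htot : Total v (paths T)) (n : ℕ) :
    ∃ s, ∀ ρ : List Bool, ρ.length = s → T ρ = true → (v ρ n).isSome = true := by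
  by_contra hcon
  push Not at hcon
  obtain ⟨z, hz⟩ := exists_path (T := fun ρ => T ρ && !(v ρ n).isSome) (by
      intro σ τ hστ hτ
      simp only [Bool.and_eq_true, Bool.not_eq_true', Option.isSome_eq_false_iff,
        Option.isNone_iff_eq_none] at hτ ⊢
      refine ⟨hT _ _ hστ hτ.1, ?_⟩
      cases hw : v σ n with
      | none => rfl
      | some m =>
        have := hv.mono hστ hw
        rw [hτ.2] at this
        exact absurd this (by simp)) (by
      intro s
      obtain ⟨ρ, h1, h2, h3⟩ := hcon s
      exact ⟨ρ, h1, by simp [h2, h3]⟩)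
  simp only [mem_paths, Bool.and_eq_true, Bool.not_eq_true'] at hz
  obtain ⟨l, hl⟩ := htot z (fun s => (hz s).1) n
  rw [(hz l).2] at hl
  exact absurd hl (by simp)

/-- A total functional on a `Π⁰₁` class is computably bounded. -/
theorem exists_bound (hTp : Primrec T)
    (hT : ∀ σ τ : List Bool, σ <+: τ → T τ = true → T σ = true)
    (hv : IsFun v) (htot : Total v (paths T)) :
    ∃ g : ℕ → ℕ, Computable g ∧ ∀ z ∈ paths T, ∀ n, out v z n ≤ g n := by
  have h1 : ∀ n, (Nat.rfindOpt (top T v n)).Dom := by
    intro n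
    obtain ⟨s, hs⟩ := exists_stage hT hv htot n
    refine Nat.rfindOpt_dom.2 ⟨s, (strs s).foldr (fun ρ a => max ((v ρ n).getD 0) a) 0, ?_⟩
    have h2 : ((strs s).all fun ρ => !T ρ || (v ρ n).isSome) = true := by
      rw [List.all_eq_true]
      intro ρ hρ
      rw [mem_strs] at hρ
      cases hTρ : T ρ with
      | false => rfl
      | true => rw [hs ρ hρ hTρ]; rfl
    unfold top
    rw [h2]
    rfl
  let g : ℕ → ℕ := fun n => (Nat.rfindOpt (top T v n)).get (h1 n)
  refine ⟨g, ?_, fun z hz n => ?_⟩
  · exact (Partrec.rfindOpt (prim_top hTp hv.prim).to_comp).of_eq_tot fun n => Part.get_mem (h1 n)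
  · obtain ⟨s, hs⟩ := Nat.rfindOpt_spec (Part.get_mem (h1 n))
    rw [Option.mem_def] at hs
    change top T v n s = some (g n) at hs
    unfold top at hs
    cases hall : ((strs s).all fun ρ => !T ρ || (v ρ n).isSome) with
    | false => rw [hall] at hs; exact absurd hs (by simp)
    | true =>
      rw [hall, cond_true, Option.some.injEq] at hs
      rw [List.all_eq_true] at hall
      have h2 := hall (seg z s) (mem_strs.2 (seg_length z s))
      rw [show T (seg z s) = true from hz s] at h2
      simp only [Bool.not_true, Bool.false_or] at h2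
      obtain ⟨m, hm⟩ := Option.isSome_iff_exists.1 h2
      rw [out_eq hv hm, ← hs]
      have h3 := le_foldr (f := fun ρ => (v ρ n).getD 0) (mem_strs.2 (seg_length z s))
      simpa [hm] using h3

/-- The members at which the functional is total. -/
def totSet (v : List Bool → ℕ → Option ℕ) (P : Set (ℕ → Bool)) : Set P :=
  {z | ∀ n, ∃ l, (v (seg z.1 l) n).isSome = true}

theorem isClosed_totSet (hTp : Primrec T) (hthin : IsThin (paths T)) (hv : IsFun v) :
    IsClosed (totSet v (paths T)) := by
  have h1 := isClosed_sigma hTp hthin (w := fun ρ n => (v ρ n).isSome)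
    (Primrec.option_isSome.comp₂ hv.prim)
  have h2 : totSet v (paths T) = Subtype.val ⁻¹'
      {z | z ∈ paths T ∧ ∀ n, ∃ l, (v (seg z l) n).isSome = true} := by
    ext z
    simp only [totSet, Set.mem_ofPred_eq, Set.mem_preimage]
    exact ⟨fun h => ⟨z.2, h⟩, fun h => h.2⟩
  rw [h2]
  exact h1.preimage continuous_subtype_val

theorem frontier_compl_residual {X : Type*} [TopologicalSpace X] {C : Set X} (hC : IsClosed C) :
    (frontier C)ᶜ ∈ residual X :=
  residual_of_dense_open isClosed_frontier.isOpen_compl (by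
    rw [← interior_eq_empty_iff_dense_compl]
    exact interior_frontier hC)

theorem exists_nbhd_of_interior {P : Set (ℕ → Bool)} {C : Set P} {z : P}
    (h : z ∈ interior C) : ∃ σ, Ini σ z.1 ∧ ∀ z' : P, Ini σ z'.1 → z' ∈ C := by
  obtain ⟨U, hU, hU'⟩ := (isOpen_induced_iff.1 (isOpen_interior (s := C)))
  have h1 : z.1 ∈ U := by
    have : z ∈ Subtype.val ⁻¹' U := by rw [hU']; exact h
    exact this
  obtain ⟨σ, hσ, hσU⟩ := exists_ini_of_isOpen hU h1
  refine ⟨σ, hσ, fun z' hz' => ?_⟩
  have h2 : z' ∈ Subtype.val ⁻¹' U := hσU hz'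
  rw [hU'] at h2
  exact interior_subset h2

/-- The functionals that are total at `z` are total on a neighbourhood of `z` in `P`. -/
def Steady (P : Set (ℕ → Bool)) (z : P) : Prop :=
  ∀ c : Code, IsFun (val c) → z ∈ totSet (val c) P → z ∈ interior (totSet (val c) P)

theorem steady_residual (hTp : Primrec T) (hthin : IsThin (paths T)) :
    {z | Steady (paths T) z} ∈ residual (paths T) := by
  have h1 : (⋂ c : Code, {z : paths T | IsFun (val c) → z ∉ frontier (totSet (val c) (paths T))})
      ∈ residual (paths T) := by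
    rw [countable_iInter_mem]
    intro c
    by_cases hc : IsFun (val c)
    · refine Filter.mem_of_superset (frontier_compl_residual (isClosed_totSet hTp hthin hc)) ?_
      intro z hz _
      exact hz
    · refine Filter.mem_of_superset Filter.univ_mem fun z _ h => absurd h hc
  refine Filter.mem_of_superset h1 fun z hz c hc hzc => ?_
  have h2 := Set.mem_iInter.1 hz c hc
  rw [(isClosed_totSet hTp hthin hc).frontier_eq] at h2
  by_contra hcon
  exact h2 ⟨hzc, hcon⟩

theorem Steady.hif (hTp : Primrec T)
    (hT : ∀ σ τ : List Bool, σ <+: τ → T τ = true → T σ = true) {z : paths T}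
    (h : Steady (paths T) z) : HyperimmuneFree z.1 := by
  intro f hf
  obtain ⟨cv, hv, hv'⟩ := exists_val hf
  have h1 : z ∈ totSet (val cv) (paths T) := fun n => by
    obtain ⟨l, hl⟩ := hv' n
    exact ⟨l, by rw [hl]; rfl⟩
  obtain ⟨σ, hσ, hσC⟩ := exists_nbhd_of_interior (h cv hv h1)
  have htot : Total (val cv) (paths (cone T σ)) := by
    intro z' hz'
    rw [paths_cone] at hz'
    exact hσC ⟨z', hz'.1⟩ hz'.2
  obtain ⟨g, hg, hgz⟩ := exists_bound (prim_cone hTp σ) (cone_closed hT σ) hv htot
  refine ⟨g, hg, fun n => ?_⟩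
  rw [← computes_out hv hv' n]
  exact hgz z.1 (by rw [paths_cone]; exact ⟨z.2, hσ⟩) n

theorem hif_residual {P : Set (ℕ → Bool)} (hP : IsThin P) :
    ∀ᶠ z : P in residual P, HyperimmuneFree z.1 := by
  obtain ⟨c, rfl⟩ := exists_tree hP.1
  exact Filter.mem_of_superset (steady_residual (prim_tree c) hP)
    fun z hz => Steady.hif (prim_tree c) (tree_closed c) hz

end Pool.Agent.H59.Hif
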