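import Pool.Agent.H77.Thin.Defs

/-!
# Weakly generic points: definitions
-/

set_option autoImplicit false

namespace Pool.Agent.H59.Hif

open Pool.Agent.H77.Thin

/-- `S` is a `Σ⁰₂` set of strings. -/
def IsSigma02Set (S : List Bool → Prop) : Prop :=
  ∃ R : List Bool × ℕ × ℕ → Prop, ComputablePred R ∧ ∀ σ, S σ ↔ ∃ a, ∀ b, R (σ, a, b)

/-- `x` is weakly `2`-generic: it has an initial segment in each dense `Σ⁰₂` set of strings. -/
def WeaklyTwoGeneric (x : ℕ → Bool) : Prop :=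
  ∀ S : List Bool → Prop, IsSigma02Set S → (∀ σ, ∃ τ, σ <+: τ ∧ S τ) → ∃ k, S (seg x k)

end Pool.Agent.H59.Hif
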