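import Pool.Agent.H77.Thin.Defs

/-!
# Hyperimmune-free points and diagonally noncomputable functions: definitions
-/

set_option autoImplicit false

namespace Pool.Agent.H59.Hif

open Pool.Agent.H77.Thin Encodable
open Nat.Partrec (Code)

/-- `f` is diagonally noncomputable: for all codes `c`, the number `f(c)` is not the value of the
partial computable function with code `c` at `c`. -/
def DNC (f : ℕ → ℕ) : Prop := ∀ c : Code, f (encode c) ∉ c.eval (encode c)

/-- `y` is hyperimmune-free: every function computable from `y` is dominated by a computable
function. -/
def HyperimmuneFree (y : ℕ → Bool) : Prop :=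
  ∀ f : ℕ → ℕ, TuringReducible (fun n => Part.some (f n)) (chr y) →
    ∃ g : ℕ → ℕ, Computable g ∧ ∀ n, f n ≤ g n

end Pool.Agent.H59.Hif
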