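import Pool.Agent.H77.Thin.Defs

/-!
# Minimal degrees: definition
-/

set_option autoImplicit false

namespace Pool.Agent.H59.Hif

open Pool.Agent.H77.Thin

/-- `y` has minimal Turing degree: it is not computable, and every point computable from `y` is
computable or computes `y`. -/
def MinimalDegree (y : ℕ → Bool) : Prop :=
  ¬ Computable y ∧ ∀ x : ℕ → Bool, TuringReducible (chr x) (chr y) →
    Computable x ∨ TuringReducible (chr y) (chr x)

end Pool.Agent.H59.Hif
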