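import Pool.Agent.H59.Hif.Base
import Pool.Agent.H59.Hif.DefsHif

/-!
# No nonempty thin class maps by a total functional into the diagonally noncomputable functions
-/

set_option autoImplicit false

namespace Pool.Agent.H59.Hif

open Pool.Agent.H77.Thin Encodable
open Nat.Partrec (Code)

/-- The index used for the `i`-th class. -/
def ix (c : Code) (i : ℕ) : ℕ := encode (Code.curry c i)

/-- `ρ` is kept if its value at `e` is not seen to be minimal among the strings of `L`. -/
def keep (v : List Bool → ℕ → Option ℕ) (L : List (List Bool)) (e : ℕ) (ρ : List Bool) : Bool :=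
  decide (v ρ e = none) ||
    L.any fun τ => decide (v τ e = none) || decide ((v τ e).getD 0 < (v ρ e).getD 0)

theorem keep_iff {v : List Bool → ℕ → Option ℕ} {L : List (List Bool)} {e : ℕ}
    {ρ : List Bool} : keep v L e ρ = true ↔
      v ρ e = none ∨ ∃ τ ∈ L, v τ e = none ∨ (v τ e).getD 0 < (v ρ e).getD 0 := by
  simp [keep]

/-- The strings of length `s` in the tree of the `i`-th class. -/
def lev (T : List Bool → Bool) (v : List Bool → ℕ → Option ℕ) (c : Code) (s i : ℕ) :
    List (List Bool) :=
  Nat.rec ((strs s).filterMap fun σ => bif T σ then some σ else none)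
    (fun j L => L.filterMap fun σ => bif keep v L (ix c j) σ then some σ else none) i

variable {T : List Bool → Bool} {v : List Bool → ℕ → Option ℕ}

theorem mem_filterMap_cond {α : Type} {L : List α} {p : α → Bool} {a : α} :
    a ∈ L.filterMap (fun σ => bif p σ then some σ else none) ↔ a ∈ L ∧ p a = true := by
  rw [List.mem_filterMap]
  constructor
  · rintro ⟨b, hb, h⟩
    cases hp : p b with
    | false => simp [hp] at h
    | true =>
      simp only [hp, cond_true, Option.some.injEq] at h
      subst h
      exact ⟨hb, hp⟩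
  · rintro ⟨h1, h2⟩
    exact ⟨a, h1, by simp [h2]⟩

theorem mem_lev_zero {c : Code} {s : ℕ} {ρ : List Bool} :
    ρ ∈ lev T v c s 0 ↔ ρ.length = s ∧ T ρ = true := by
  show ρ ∈ (strs s).filterMap (fun σ => bif T σ then some σ else none) ↔ _
  rw [mem_filterMap_cond, mem_strs]

theorem mem_lev_succ {c : Code} {s i : ℕ} {ρ : List Bool} :
    ρ ∈ lev T v c s (i + 1) ↔ ρ ∈ lev T v c s i ∧ keep v (lev T v c s i) (ix c i) ρ = true := by
  show ρ ∈ (lev T v c s i).filterMap
    (fun σ => bif keep v (lev T v c s i) (ix c i) σ then some σ else none) ↔ _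
  rw [mem_filterMap_cond]

theorem lev_anti {c : Code} {s i j : ℕ} (h : i ≤ j) {ρ : List Bool}
    (hρ : ρ ∈ lev T v c s j) : ρ ∈ lev T v c s i := by
  induction j, h using Nat.le_induction with
  | base => exact hρ
  | succ j _ ih => exact ih (mem_lev_succ.1 hρ).1

theorem lev_length {c : Code} {s i : ℕ} {ρ : List Bool} (hρ : ρ ∈ lev T v c s i) :
    ρ.length = s := (mem_lev_zero.1 (lev_anti (Nat.zero_le i) hρ)).1

theorem val_take (hv : IsFun v) {ρ : List Bool} {k e m : ℕ}
    (h : v (ρ.take k) e = some m) : v ρ e = some m := hv.mono (List.take_prefix k ρ) h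

theorem lev_take (hT : ∀ σ τ : List Bool, σ <+: τ → T τ = true → T σ = true) (hv : IsFun v)
    {c : Code} {i : ℕ} : ∀ {s k : ℕ} {ρ : List Bool}, ρ ∈ lev T v c s i → k ≤ s →
      ρ.take k ∈ lev T v c k i := by
  induction i with
  | zero =>
    intro s k ρ h hk
    rw [mem_lev_zero] at h ⊢
    refine ⟨by simp [h.1, hk], hT _ _ (List.take_prefix _ _) h.2⟩
  | succ i ih =>
    intro s k ρ h hk
    rw [mem_lev_succ] at h ⊢
    refine ⟨ih h.1 hk, ?_⟩
    have h2 := h.2
    rw [keep_iff] at h2 ⊢
    cases hw : v (ρ.take k) (ix c i) with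
    | none => exact Or.inl rfl
    | some w =>
      right
      have h3 := val_take hv hw
      rw [h3] at h2
      rcases h2 with h2 | ⟨τ, hτ, h2⟩
      · exact absurd h2 (by simp)
      · refine ⟨τ.take k, ih hτ hk, ?_⟩
        cases hw' : v (τ.take k) (ix c i) with
        | none => exact Or.inl rfl
        | some w' =>
          right
          have h4 := val_take hv hw'
          rw [h4] at h2
          rcases h2 with h2 | h2
          · exact absurd h2 (by simp)
          · exact h2

/-- The `i`-th class. -/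
def cls (T : List Bool → Bool) (v : List Bool → ℕ → Option ℕ) (c : Code) (i : ℕ) :
    Set (ℕ → Bool) := {z | ∀ s, seg z s ∈ lev T v c s i}

theorem cls_zero {c : Code} : cls T v c 0 = paths T := by
  ext z
  simp [cls, mem_lev_zero, mem_paths]

theorem cls_anti {c : Code} {i j : ℕ} (h : i ≤ j) : cls T v c j ⊆ cls T v c i :=
  fun _ hz s => lev_anti h (hz s)

theorem cls_sub {c : Code} {i : ℕ} : cls T v c i ⊆ paths T := by
  rw [← cls_zero (v := v) (c := c)]
  exact cls_anti (Nat.zero_le i)

theorem isClosed_cls {c : Code} {i : ℕ} : IsClosed (cls T v c i) := by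
  have h1 := isClosed_paths (fun ρ => ρ ∈ lev T v c ρ.length i)
  have h2 : cls T v c i = {x : ℕ → Bool | ∀ n, seg x n ∈ lev T v c (seg x n).length i} := by
    ext z
    simp [cls]
  rw [h2]
  exact h1

/-- A path through a closed set of strings of the `i`-th tree. -/
theorem exists_cls_path (hT : ∀ σ τ : List Bool, σ <+: τ → T τ = true → T σ = true)
    (hv : IsFun v) {c : Code} {i : ℕ} (q : List Bool → Prop)
    (hq : ∀ σ τ : List Bool, σ <+: τ → q τ → q σ)
    (h : ∀ s, ∃ ρ ∈ lev T v c s i, q ρ) : ∃ z ∈ cls T v c i, ∀ s, q (seg z s) := by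
  classical
  obtain ⟨z, hz⟩ := exists_path (T := fun ρ => decide (ρ ∈ lev T v c ρ.length i ∧ q ρ)) (by
      intro σ τ hστ hτ
      simp only [decide_eq_true_eq] at hτ ⊢
      refine ⟨?_, hq _ _ hστ hτ.2⟩
      have h1 := lev_take hT hv hτ.1 hστ.length_le
      rwa [← List.prefix_iff_eq_take.1 hστ] at h1) (by
      intro s
      obtain ⟨ρ, hρ, hρq⟩ := h s
      refine ⟨ρ, lev_length hρ, ?_⟩
      simp only [decide_eq_true_eq]
      rw [lev_length hρ]
      exact ⟨hρ, hρq⟩)
  simp only [mem_paths, decide_eq_true_eq, seg_length] at hz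
  exact ⟨z, fun s => (hz s).1, fun s => (hz s).2⟩

theorem cls_succ (hT : ∀ σ τ : List Bool, σ <+: τ → T τ = true → T σ = true)
    (hv : IsFun v) (htot : Total v (paths T)) {c : Code} {i : ℕ} {z : ℕ → Bool} :
    z ∈ cls T v c (i + 1) ↔ z ∈ cls T v c i ∧
      ∃ z' ∈ cls T v c i, out v z' (ix c i) < out v z (ix c i) := by
  constructor
  · intro hz
    have hz0 : z ∈ cls T v c i := cls_anti (Nat.le_succ i) hz
    refine ⟨hz0, ?_⟩
    obtain ⟨l, hl⟩ := htot.get hv (cls_sub hz0) (ix c i)
    obtain ⟨z', hz', hq⟩ := exists_cls_path hT hv (c := c) (i := i)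
      (fun ρ => v ρ (ix c i) = none ∨ (v ρ (ix c i)).getD 0 < out v z (ix c i)) (by
        intro σ τ hστ hτ
        cases hw : v σ (ix c i) with
        | none => exact Or.inl rfl
        | some w =>
          right
          have h4 := hv.mono hστ hw
          rw [h4] at hτ
          rcases hτ with h2 | h2
          · exact absurd h2 (by simp)
          · exact h2) (by
        intro s
        have h1 := (mem_lev_succ.1 (hz (max s l))).2
        rw [keep_iff, hl _ (le_max_right s l)] at h1
        rcases h1 with h1 | ⟨τ, hτ, h1⟩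
        · exact absurd h1 (by simp)
        · refine ⟨τ.take s, lev_take hT hv hτ (le_max_left s l), ?_⟩
          cases hw : v (τ.take s) (ix c i) with
          | none => exact Or.inl rfl
          | some w =>
            right
            have h4 := val_take hv hw
            rw [h4] at h1
            rcases h1 with h2 | h2
            · exact absurd h2 (by simp)
            · exact h2)
    refine ⟨z', hz', ?_⟩
    obtain ⟨l', hl'⟩ := htot.get hv (cls_sub hz') (ix c i)
    have h2 := hq l'
    rw [hl' l' le_rfl] at h2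
    rcases h2 with h2 | h2
    · exact absurd h2 (by simp)
    · exact h2
  · rintro ⟨hz, z', hz', hlt⟩ s
    rw [mem_lev_succ]
    refine ⟨hz s, ?_⟩
    rw [keep_iff]
    cases hw : v (seg z s) (ix c i) with
    | none => exact Or.inl rfl
    | some w =>
      right
      refine ⟨seg z' s, hz' s, ?_⟩
      cases hw' : v (seg z' s) (ix c i) with
      | none => exact Or.inl rfl
      | some w' =>
        right
        rw [out_eq hv hw, out_eq hv hw'] at hlt
        exact hlt

/-- The common value at `e` of the strings of `L`, if there is one. -/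
def agree (v : List Bool → ℕ → Option ℕ) (L : List (List Bool)) (e : ℕ) : Option ℕ :=
  bif L.all fun ρ => decide (v ρ e = L.head?.bind fun τ => v τ e) then
    L.head?.bind fun τ => v τ e else none

theorem agree_of {L : List (List Bool)} {e w : ℕ} (hne : L ≠ [])
    (h : ∀ ρ ∈ L, v ρ e = some w) : agree v L e = some w := by
  obtain ⟨a, L', rfl⟩ := List.exists_cons_of_ne_nil hne
  have ha := h a (List.mem_cons_self)
  have h1 : ((a :: L').head?.bind fun τ => v τ e) = some w := by
    simp [ha]
  unfold agree
  rw [h1]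
  have h2 : ((a :: L').all fun ρ => decide (v ρ e = some w)) = true := by
    rw [List.all_eq_true]
    intro ρ hρ
    simp [h ρ hρ]
  rw [h2]
  rfl

theorem of_agree {L : List (List Bool)} {e w : ℕ} (h : agree v L e = some w) :
    ∀ ρ ∈ L, v ρ e = some w := by
  unfold agree at h
  cases hall : (L.all fun ρ => decide (v ρ e = L.head?.bind fun τ => v τ e)) with
  | false => rw [hall] at h; exact absurd h (by simp)
  | true =>
    rw [hall, cond_true] at h
    intro ρ hρ
    rw [List.all_eq_true] at hall
    have h1 := hall ρ hρ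
    rw [decide_eq_true_eq] at h1
    rw [h1, h]

/-! ### Computability -/

theorem prim_ix : Primrec₂ ix := Primrec.encode.comp₂ Code.primrec₂_curry

theorem prim_keep (hv : Primrec₂ v) :
    Primrec fun a : List (List Bool) × ℕ × List Bool => keep v a.1 a.2.1 a.2.2 := by
  have h1 : Primrec fun a : List (List Bool) × ℕ × List Bool => v a.2.2 a.2.1 :=
    hv.comp (Primrec.snd.comp Primrec.snd) (Primrec.fst.comp Primrec.snd)
  have h2 : Primrec fun b : (List (List Bool) × ℕ × List Bool) × List Bool => v b.2 b.1.2.1 :=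
    hv.comp Primrec.snd (Primrec.fst.comp (Primrec.snd.comp Primrec.fst))
  refine Primrec.or.comp (prim_beq h1 (Primrec.const none)) (prim_any Primrec.fst ?_)
  refine Primrec.or.comp (prim_beq h2 (Primrec.const none)) ?_
  refine PrimrecPred.decide (Primrec.nat_lt.comp ?_ ?_)
  · exact Primrec.option_getD.comp h2 (Primrec.const 0)
  · exact Primrec.option_getD.comp (h1.comp Primrec.fst) (Primrec.const 0)

theorem prim_lev (hTp : Primrec T) (hv : Primrec₂ v) :
    Primrec fun a : Code × ℕ × ℕ => lev T v a.1 a.2.1 a.2.2 := by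
  have h1 : Primrec fun a : Code × ℕ × ℕ =>
      (strs a.2.1).filterMap fun σ => bif T σ then some σ else none := by
    refine Primrec.listFilterMap (prim_strs.comp (Primrec.fst.comp Primrec.snd)) ?_
    exact Primrec.cond (hTp.comp Primrec.snd) (Primrec.option_some.comp Primrec.snd)
      (Primrec.const none)
  have h2 : Primrec₂ fun (a : Code × ℕ × ℕ) (b : ℕ × List (List Bool)) =>
      b.2.filterMap fun σ => bif keep v b.2 (ix a.1 b.1) σ then some σ else none := by
    refine Primrec.listFilterMap (Primrec.snd.comp Primrec.snd) ?_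
    refine Primrec.cond ?_ (Primrec.option_some.comp Primrec.snd) (Primrec.const none)
    exact (prim_keep hv).comp (Primrec.pair (Primrec.snd.comp (Primrec.snd.comp Primrec.fst))
      (Primrec.pair (prim_ix.comp (Primrec.fst.comp (Primrec.fst.comp Primrec.fst))
        (Primrec.fst.comp (Primrec.snd.comp Primrec.fst))) Primrec.snd))
  exact Primrec.nat_rec' (Primrec.snd.comp Primrec.snd) h1 h2

theorem prim_agree (hv : Primrec₂ v) : Primrec₂ (agree v) := by
  have h1 : Primrec fun a : List (List Bool) × ℕ => a.1.head?.bind fun τ => v τ a.2 :=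
    Primrec.option_bind (Primrec.list_head?.comp Primrec.fst)
      (hv.comp Primrec.snd (Primrec.snd.comp Primrec.fst))
  refine Primrec.cond (prim_all Primrec.fst ?_) h1 (Primrec.const none)
  exact prim_beq (hv.comp Primrec.snd (Primrec.snd.comp Primrec.fst)) (h1.comp Primrec.fst)

theorem exists_diag (hTp : Primrec T) (hv : Primrec₂ v) : ∃ c : Code, ∀ i : ℕ,
    (Code.curry c i).eval (ix c i) = Nat.rfindOpt fun s => agree v (lev T v c s i) (ix c i) := by
  have hf : Partrec₂ fun (c : Code) (n : ℕ) => Nat.rfindOpt fun s =>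
      agree v (lev T v c s n.unpair.1) (ix c n.unpair.1) := by
    refine Partrec.rfindOpt (f := fun (a : Code × ℕ) (s : ℕ) =>
      agree v (lev T v a.1 s a.2.unpair.1) (ix a.1 a.2.unpair.1)) (Primrec.to_comp ?_)
    have hn : Primrec fun a : (Code × ℕ) × ℕ => a.1.2.unpair.1 :=
      Primrec.fst.comp (Primrec.unpair.comp (Primrec.snd.comp Primrec.fst))
    refine (prim_agree hv).comp ?_ (prim_ix.comp (Primrec.fst.comp Primrec.fst) hn)
    exact (prim_lev hTp hv).comp (Primrec.pair (Primrec.fst.comp Primrec.fst)
      (Primrec.pair Primrec.snd hn))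
  obtain ⟨c, hc⟩ := Code.fixed_point₂ hf
  refine ⟨c, fun i => ?_⟩
  rw [Code.eval_curry, hc]
  simp only [Nat.unpair_pair]

/-! ### The classes decrease strictly -/

theorem two_values (hT : ∀ σ τ : List Bool, σ <+: τ → T τ = true → T σ = true)
    (hv : IsFun v) (htot : Total v (paths T)) (hdnc : ∀ z ∈ paths T, DNC (out v z)) {c : Code}
    {i : ℕ} (hc : (Code.curry c i).eval (ix c i) =
      Nat.rfindOpt fun s => agree v (lev T v c s i) (ix c i))
    {z : ℕ → Bool} (hz : z ∈ cls T v c i) :
    ∃ z' ∈ cls T v c i, out v z' (ix c i) ≠ out v z (ix c i) := by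
  by_contra hcon
  push Not at hcon
  have h1 : ∃ s, agree v (lev T v c s i) (ix c i) = some (out v z (ix c i)) := by
    by_contra hs
    push Not at hs
    obtain ⟨z', hz', hq⟩ := exists_cls_path hT hv (c := c) (i := i)
      (fun ρ => v ρ (ix c i) ≠ some (out v z (ix c i))) (by
        intro σ τ hστ hτ h2
        exact hτ (hv.mono hστ h2)) (by
        intro s
        by_contra h2
        push Not at h2
        exact hs s (agree_of (List.ne_nil_of_mem (hz s)) h2))
    obtain ⟨l, hl⟩ := htot.get hv (cls_sub hz') (ix c i)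
    refine hq l ?_
    rw [hl l le_rfl, hcon z' hz']
  obtain ⟨s, hs⟩ := h1
  have h2 : (Nat.rfindOpt fun s => agree v (lev T v c s i) (ix c i)).Dom :=
    Nat.rfindOpt_dom.2 ⟨s, _, Option.mem_def.2 hs⟩
  obtain ⟨w, hw⟩ := Part.dom_iff_mem.1 h2
  obtain ⟨s', hs'⟩ := Nat.rfindOpt_spec hw
  have h3 := of_agree (Option.mem_def.1 hs') _ (hz s')
  have h4 := out_eq hv h3
  refine hdnc z (cls_sub hz) (Code.curry c i) ?_
  show out v z (ix c i) ∈ (Code.curry c i).eval (ix c i)
  rw [hc, h4]
  exact hw

theorem no_dnc (hTp : Primrec T) (hT : ∀ σ τ : List Bool, σ <+: τ → T τ = true → T σ = true)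
    (hthin : IsThin (paths T)) (hv : IsFun v) (htot : Total v (paths T))
    (hdnc : ∀ z ∈ paths T, DNC (out v z)) (y : ℕ → Bool) : y ∉ paths T := by
  intro hy
  obtain ⟨c, hc⟩ := exists_diag hTp hv.prim
  -- strict decrease
  have hstep : ∀ i, (cls T v c i).Nonempty →
      (cls T v c (i + 1)).Nonempty ∧ ¬ cls T v c i ⊆ cls T v c (i + 1) := by
    intro i hne
    obtain ⟨z, hz, hmin⟩ : ∃ z ∈ cls T v c i, ∀ z' ∈ cls T v c i,
        out v z (ix c i) ≤ out v z' (ix c i) := by
      have h1 : ∃ n, ∃ z ∈ cls T v c i, out v z (ix c i) = n := by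
        obtain ⟨z, hz⟩ := hne
        exact ⟨_, z, hz, rfl⟩
      classical
      obtain ⟨z, hz, hz'⟩ := Nat.find_spec h1
      refine ⟨z, hz, fun z' hz'' => ?_⟩
      rw [hz']
      exact Nat.find_min' h1 ⟨z', hz'', rfl⟩
    constructor
    · obtain ⟨z', hz', hne'⟩ := two_values hT hv htot hdnc (hc i) hz
      exact ⟨z', (cls_succ hT hv htot).2 ⟨hz', z, hz, lt_of_le_of_ne (hmin z' hz')
        (Ne.symm hne')⟩⟩
    · intro hsub
      obtain ⟨_, z', hz', hlt⟩ := (cls_succ hT hv htot).1 (hsub hz)
      exact absurd (hmin z' hz') (not_le.2 hlt)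
  have hne : ∀ i, (cls T v c i).Nonempty := by
    intro i
    induction i with
    | zero => exact ⟨y, by rw [cls_zero]; exact hy⟩
    | succ i ih => exact (hstep i ih).1
  -- the intersection
  have hQ : IsPi01 (⋂ i, cls T v c i) := by
    have hp : Primrec fun σ : List Bool => (List.range (σ.length + 1)).all fun i =>
        (lev T v c σ.length i).any fun τ => decide (τ = σ) := by
      refine prim_all (Primrec.list_range.comp (Primrec.succ.comp Primrec.list_length)) ?_
      refine prim_any ((prim_lev hTp hv.prim).comp (Primrec.pair (Primrec.const c)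
        (Primrec.pair (Primrec.list_length.comp Primrec.fst) Primrec.snd))) ?_
      exact prim_beq Primrec.snd (Primrec.fst.comp Primrec.fst)
    have h1 := isPi01_of_prim hp
    have h2 : (⋂ i, cls T v c i) = {z : ℕ → Bool | ∀ n, ((List.range ((seg z n).length + 1)).all
        fun i => (lev T v c (seg z n).length i).any fun τ => decide (τ = seg z n)) = true} := by
      ext z
      simp only [Set.mem_iInter, cls, Set.mem_ofPred_eq, List.all_eq_true, List.mem_range,
        List.any_eq_true, decide_eq_true_eq, seg_length, exists_eq_right]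
      constructor
      · intro h n i _
        exact h i n
      · intro h i s
        have h3 := h (max s i) i (by have := le_max_right s i; omega)
        have h4 := lev_take hT hv h3 (le_max_left s i)
        rwa [seg_take z (le_max_left s i)] at h4
    rw [h2]
    exact h1
  obtain ⟨U, hU, hUQ⟩ := hthin.2 _ hQ (Set.iInter_subset_of_subset 0 cls_sub)
  have hex : ∃ i, cls T v c i ∩ Uᶜ = ∅ := by
    by_contra hcon
    push Not at hcon
    obtain ⟨z, hz⟩ := IsCompact.nonempty_iInter_of_sequence_nonempty_isCompact_isClosed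
      (fun i => cls T v c i ∩ Uᶜ)
      (fun i => Set.inter_subset_inter_left _ (cls_anti (Nat.le_succ i)))
      (fun i => hcon i)
      ((isClosed_cls.inter hU.compl.isClosed).isCompact)
      (fun i => isClosed_cls.inter hU.compl.isClosed)
    rw [Set.mem_iInter] at hz
    have h1 : z ∈ ⋂ i, cls T v c i := Set.mem_iInter.2 fun i => (hz i).1
    rw [hUQ] at h1
    exact (hz 0).2 h1.2
  obtain ⟨i, hi⟩ := hex
  refine (hstep i (hne i)).2 fun z hz => ?_
  have h1 : z ∈ U := by
    by_contra h2
    have h3 : z ∈ cls T v c i ∩ Uᶜ := ⟨hz, h2⟩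
    rw [hi] at h3
    exact h3
  have h2 : z ∈ ⋂ i, cls T v c i := by
    rw [hUQ]
    exact ⟨cls_sub hz, h1⟩
  exact Set.mem_iInter.1 h2 (i + 1)

end Pool.Agent.H59.Hif
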