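import Pool.Agent.H59.Hif.Base

/-!
# Images of thin classes under total functionals are thin
-/

set_option autoImplicit false

namespace Pool.Agent.H59.Hif

open Pool.Agent.H77.Thin Encodable
open Nat.Partrec (Code)

variable {T : List Bool → Bool} {v : List Bool → ℕ → Option ℕ}

/-- The point computed by the functional; nonzero values give `true`. -/
noncomputable def pt (v : List Bool → ℕ → Option ℕ) (z : ℕ → Bool) (n : ℕ) : Bool :=
  !decide (out v z n = 0)

theorem continuousOn_pt (hv : IsFun v) {P : Set (ℕ → Bool)} (h : Total v P) :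
    ContinuousOn (pt v) P := by
  rw [continuousOn_pi]
  intro n z hz
  obtain ⟨l, hl⟩ := h.get hv hz n
  refine ContinuousWithinAt.congr_of_eventuallyEq (f := fun _ => pt v z n)
    continuousWithinAt_const ?_ rfl
  filter_upwards [mem_nhdsWithin_of_mem_nhds ((isOpen_ini (seg z l)).mem_nhds (ini_seg z l))]
    with z' hz'
  unfold pt
  rw [out_ini hv hz' (hl l le_rfl)]

theorem isClosed_image (hv : IsFun v) {P : Set (ℕ → Bool)} (hP : IsClosed P)
    (h : Total v P) : IsClosed (pt v '' P) :=
  (hP.isCompact.image_of_continuousOn (continuousOn_pt hv h)).isClosed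

/-- The tree of the image. -/
def imt (T : List Bool → Bool) (v : List Bool → ℕ → Option ℕ) (σ : List Bool) : Bool :=
  (strs σ.length).any fun ρ => T ρ && (List.range σ.length).all fun n =>
    decide (v ρ n = none) || decide (some (!decide ((v ρ n).getD 0 = 0)) = σ[n]?)

theorem prim_imt (hTp : Primrec T) (hv : Primrec₂ v) : Primrec (imt T v) := by
  refine prim_any (prim_strs.comp Primrec.list_length) ?_
  refine Primrec.and.comp (hTp.comp Primrec.snd) ?_
  have h1 : Primrec fun a : (List Bool × List Bool) × ℕ => v a.1.2 a.2 :=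
    hv.comp (Primrec.snd.comp Primrec.fst) Primrec.snd
  refine prim_all (Primrec.list_range.comp (Primrec.list_length.comp Primrec.fst)) ?_
  refine Primrec.or.comp (prim_beq h1 (Primrec.const none)) ?_
  refine prim_beq (Primrec.option_some.comp (Primrec.not.comp (prim_beq
    (Primrec.option_getD.comp h1 (Primrec.const 0)) (Primrec.const 0)))) ?_
  exact Primrec.list_getElem?.comp (Primrec.fst.comp Primrec.fst) Primrec.snd

theorem imt_iff {x : ℕ → Bool} {s : ℕ} : imt T v (seg x s) = true ↔
    ∃ ρ : List Bool, ρ.length = s ∧ T ρ = true ∧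
      ∀ n < s, ∀ m, v ρ n = some m → (!decide (m = 0)) = x n := by
  simp only [imt, List.any_eq_true, mem_strs, seg_length, Bool.and_eq_true, List.all_eq_true,
    List.mem_range, Bool.or_eq_true, decide_eq_true_eq]
  refine exists_congr fun ρ => and_congr Iff.rfl (and_congr Iff.rfl ?_)
  refine forall_congr' fun n => forall_congr' fun hn => ?_
  rw [seg_getElem? x hn]
  cases hw : v ρ n with
  | none => simp
  | some w => simp

theorem image_eq (hT : ∀ σ τ : List Bool, σ <+: τ → T τ = true → T σ = true) (hv : IsFun v)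
    (htot : Total v (paths T)) :
    pt v '' paths T = {x | ∀ s, imt T v (seg x s) = true} := by
  classical
  ext x
  simp only [Set.mem_image, Set.mem_ofPred_eq]
  constructor
  · rintro ⟨z, hz, rfl⟩ s
    rw [imt_iff]
    refine ⟨seg z s, seg_length z s, hz s, fun n _ m hm => ?_⟩
    unfold pt
    rw [out_eq hv hm]
  · intro h
    obtain ⟨z, hz⟩ := exists_path (T := fun ρ => decide (T ρ = true ∧
        ∀ n < ρ.length, ∀ m, v ρ n = some m → (!decide (m = 0)) = x n)) (by
      intro σ τ hστ hτ
      simp only [decide_eq_true_eq] at hτ ⊢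
      refine ⟨hT _ _ hστ hτ.1, fun n hn m hm => ?_⟩
      exact hτ.2 n (lt_of_lt_of_le hn hστ.length_le) m (hv.mono hστ hm)) (by
      intro s
      obtain ⟨ρ, h1, h2, h3⟩ := imt_iff.1 (h s)
      refine ⟨ρ, h1, ?_⟩
      simp only [decide_eq_true_eq]
      rw [h1]
      exact ⟨h2, h3⟩)
    simp only [mem_paths, decide_eq_true_eq, seg_length] at hz
    have hzP : z ∈ paths T := fun n => (hz n).1
    refine ⟨z, hzP, ?_⟩
    funext n
    obtain ⟨l, hl⟩ := htot.get hv hzP n
    exact (hz (max l (n + 1))).2 n (by have := le_max_right l (n + 1); omega) _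
      (hl _ (le_max_left _ _))

theorem isPi01_image (hTp : Primrec T)
    (hT : ∀ σ τ : List Bool, σ <+: τ → T τ = true → T σ = true) (hv : IsFun v)
    (htot : Total v (paths T)) : IsPi01 (pt v '' paths T) := by
  rw [image_eq hT hv htot]
  exact isPi01_of_prim (prim_imt hTp hv.prim)

theorem word_pt (hv : IsFun v) {z : ℕ → Bool} {n k : ℕ} (h : conv v (seg z n) k = true) :
    word v (seg z n) k = seg (pt v z) k := by
  refine List.map_congr_left fun i hi => ?_
  rw [List.mem_range] at hi
  rw [conv_iff] at h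
  obtain ⟨m, hm⟩ := Option.isSome_iff_exists.1 (h i hi)
  unfold pt
  rw [hm, out_eq hv hm]
  rfl

theorem exists_conv' (hv : IsFun v) {P : Set (ℕ → Bool)} (h : Total v P) {z : ℕ → Bool}
    (hz : z ∈ P) (k : ℕ) : ∃ l, ∀ l', l ≤ l' → conv v (seg z l') k = true := by
  induction k with
  | zero => exact ⟨0, fun l' _ => by simp [conv]⟩
  | succ k ih =>
    obtain ⟨l, hl⟩ := ih
    obtain ⟨l₁, hl₁⟩ := h.get hv hz k
    refine ⟨max l l₁, fun l' hl' => ?_⟩
    rw [conv_iff]
    intro n hn
    rcases Nat.lt_succ_iff_lt_or_eq.1 hn with h1 | h1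
    · exact conv_iff.1 (hl l' (le_trans (le_max_left _ _) hl')) n h1
    · rw [h1, hl₁ l' (le_trans (le_max_right _ _) hl')]
      rfl

/-- The preimage of a `Π⁰₁` class. -/
theorem isPi01_preimage (hTp : Primrec T) (hv : IsFun v) (htot : Total v (paths T))
    {S : Set (ℕ → Bool)} (hS : IsPi01 S) : IsPi01 {z | z ∈ paths T ∧ pt v z ∈ S} := by
  obtain ⟨c, rfl⟩ := exists_tree hS
  have hp : Primrec fun ρ : List Bool => T ρ && (List.range (ρ.length + 1)).all fun k =>
      !conv v ρ k || tree c (word v ρ k) := by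
    refine Primrec.and.comp hTp (prim_all (Primrec.list_range.comp
      (Primrec.succ.comp Primrec.list_length)) ?_)
    exact Primrec.or.comp (Primrec.not.comp ((prim_conv hv.prim).comp Primrec.fst Primrec.snd))
      ((prim_tree c).comp ((prim_word hv.prim).comp Primrec.fst Primrec.snd))
  have h1 := isPi01_of_prim hp
  have h2 : {z | z ∈ paths T ∧ pt v z ∈ {x : ℕ → Bool | ∀ n, tree c (seg x n) = true}} =
      {z | ∀ n, (T (seg z n) && (List.range ((seg z n).length + 1)).all fun k =>
        !conv v (seg z n) k || tree c (word v (seg z n) k)) = true} := by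
    ext z
    simp only [Set.mem_ofPred_eq, mem_paths, Bool.and_eq_true, List.all_eq_true, List.mem_range,
      seg_length, Bool.or_eq_true, Bool.not_eq_true']
    constructor
    · rintro ⟨hz, hS⟩ n
      refine ⟨hz n, fun k _ => ?_⟩
      cases hc : conv v (seg z n) k with
      | false => exact Or.inl rfl
      | true =>
        right
        rw [word_pt hv hc]
        exact hS k
    · intro h
      have hz : z ∈ paths T := fun n => (h n).1
      refine ⟨fun n => (h n).1, fun k => ?_⟩
      obtain ⟨l, hl⟩ := exists_conv' hv htot hz k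
      have h3 := (h (max l k)).2 k (by have := le_max_right l k; omega)
      have h4 := hl (max l k) (le_max_left _ _)
      rw [h4] at h3
      rcases h3 with h3 | h3
      · exact absurd h3 (by simp)
      · rwa [word_pt hv h4] at h3
  rw [h2]
  exact h1

/-- The image of a thin class under a total functional is thin. -/
theorem thin_image (hTp : Primrec T)
    (hT : ∀ σ τ : List Bool, σ <+: τ → T τ = true → T σ = true) (hthin : IsThin (paths T))
    (hv : IsFun v) (htot : Total v (paths T)) : IsThin (pt v '' paths T) := by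
  refine ⟨isPi01_image hTp hT hv htot, fun S hS hSR => ?_⟩
  obtain ⟨U, hU, hAU⟩ := hthin.2 _ (isPi01_preimage hTp hv htot hS) (fun z hz => hz.1)
  have hcl : IsClosed (pt v '' (paths T ∩ Uᶜ)) := by
    refine isClosed_image hv ?_ (htot.sub Set.inter_subset_left)
    exact (isClosed_pi01 hthin.1).inter hU.compl.isClosed
  have hsub : S ⊆ (pt v '' (paths T ∩ Uᶜ))ᶜ := by
    rintro x hx ⟨z, ⟨hz, hzU⟩, rfl⟩
    have h1 : z ∈ {z | z ∈ paths T ∧ pt v z ∈ S} := ⟨hz, hx⟩
    rw [hAU] at h1
    exact hzU h1.2
  obtain ⟨C, hC, hSC, hCV⟩ := exists_clopen_of_closed_subset_open (isClosed_pi01 hS)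
    hcl.isOpen_compl hsub
  refine ⟨C, hC, ?_⟩
  ext x
  constructor
  · intro hx
    exact ⟨hSR hx, hSC hx⟩
  · rintro ⟨⟨z, hz, rfl⟩, hxC⟩
    by_contra hxS
    refine hCV hxC ⟨z, ⟨hz, fun hzU => ?_⟩, rfl⟩
    have h1 : z ∈ {z | z ∈ paths T ∧ pt v z ∈ S} := by
      rw [hAU]
      exact ⟨hz, hzU⟩
    exact hxS h1.2

end Pool.Agent.H59.Hif
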