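import Pool.Agent.H59.Hif.Base

/-!
# Searching along the initial segments of the oracle
-/

set_option autoImplicit false

namespace Pool.Agent.H59.Hif

open Pool.Agent.H77.Thin Encodable
open Nat.Partrec (Code)

/-- The total function `f` is computable from `y`. -/
def TRec (y : ℕ → Bool) (f : ℕ → ℕ) : Prop :=
  Nat.RecursiveIn {chr y} fun n => Part.some (f n)

variable {y : ℕ → Bool}

theorem TRec.turing {f : ℕ → ℕ} (h : TRec y f) :
    TuringReducible (fun n => Part.some (f n)) (chr y) := RecursiveIn.iff_nat.2 h

theorem TRec.of_turing {f : ℕ → ℕ}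
    (h : TuringReducible (fun n => Part.some (f n)) (chr y)) : TRec y f :=
  RecursiveIn.iff_nat.1 h

theorem TRec.of_computable {f : ℕ → ℕ} (h : Computable f) : TRec y f :=
  Nat.Partrec.recursiveIn (Partrec.nat_iff.1 h.partrec)

theorem TRec.comp {f g : ℕ → ℕ} (hf : TRec y f) (hg : TRec y g) : TRec y fun n => f (g n) := by
  refine (Nat.RecursiveIn.comp hf hg).of_eq fun n => ?_
  simp

theorem TRec.pair {f g : ℕ → ℕ} (hf : TRec y f) (hg : TRec y g) :
    TRec y fun n => Nat.pair (f n) (g n) := by
  refine (Nat.RecursiveIn.pair hf hg).of_eq fun n => ?_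
  simp [Seq.seq]

theorem TRec.prec {f h : ℕ → ℕ} (hf : TRec y f) (hh : TRec y h) :
    TRec y fun p => Nat.rec (motive := fun _ => ℕ) (f p.unpair.1)
      (fun k i => h (Nat.pair p.unpair.1 (Nat.pair k i))) p.unpair.2 := by
  refine (Nat.RecursiveIn.prec hf hh).of_eq fun p => ?_
  simp only
  induction p.unpair.2 with
  | zero => rfl
  | succ n ih =>
    simp only [ih]
    simp

theorem TRec.rfind {f : ℕ → ℕ} (hf : TRec y f) {g : ℕ → ℕ}
    (h1 : ∀ n, f (Nat.pair n (g n)) = 0) (h2 : ∀ n m, m < g n → f (Nat.pair n m) ≠ 0) :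
    TRec y g := by
  refine (Nat.RecursiveIn.rfind hf).of_eq fun n => ?_
  refine Part.eq_some_iff.2 ((Nat.mem_rfind
    (p := fun m => (fun k => decide (k = 0)) <$> Part.some (f (Nat.pair n m)))).2 ⟨?_, ?_⟩)
  · simp [h1 n]
  · intro m hm
    have := h2 n m hm
    simp [this]

theorem TRec.oracle : TRec y fun n => (y n).toNat := Nat.RecursiveIn.oracle (chr y) rfl

/-- The initial segments of `y` are computable from `y`. -/
theorem trec_seg : TRec y fun l => encode (seg y l) := by
  let G : ℕ → ℕ := fun q => encode
    (((decode q.unpair.1 : Option (List Bool)).getD []) ++ [!decide (q.unpair.2 = 0)])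
  have hG : Primrec G := by
    refine Primrec.encode.comp (Primrec.list_concat.comp (Primrec.option_getD.comp
      (Primrec.decode.comp (Primrec.fst.comp Primrec.unpair)) (Primrec.const [])) ?_)
    exact Primrec.not.comp (prim_beq (Primrec.snd.comp Primrec.unpair) (Primrec.const 0))
  have hk : Primrec fun q : ℕ => q.unpair.2.unpair.1 :=
    Primrec.fst.comp (Primrec.unpair.comp (Primrec.snd.comp Primrec.unpair))
  have hi : Primrec fun q : ℕ => q.unpair.2.unpair.2 :=
    Primrec.snd.comp (Primrec.unpair.comp (Primrec.snd.comp Primrec.unpair))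
  have h1 : TRec y fun q => G (Nat.pair q.unpair.2.unpair.2 (y q.unpair.2.unpair.1).toNat) :=
    (TRec.of_computable hG.to_comp).comp ((TRec.of_computable hi.to_comp).pair
      (TRec.oracle.comp (TRec.of_computable hk.to_comp)))
  have h2 : TRec y fun _ : ℕ => encode ([] : List Bool) :=
    TRec.of_computable (Computable.const _)
  have h3 : TRec y fun l : ℕ => Nat.pair 0 l :=
    TRec.of_computable (Primrec₂.natPair.comp (Primrec.const 0) Primrec.id).to_comp
  have h4 := (TRec.prec h2 h1).comp h3
  have h5 : (fun l => encode (seg y l)) = fun n => Nat.rec (motive := fun _ => ℕ)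
      (encode ([] : List Bool)) (fun k i => G (Nat.pair
        (Nat.pair (Nat.pair 0 n).unpair.1 (Nat.pair k i)).unpair.2.unpair.2
        (y (Nat.pair (Nat.pair 0 n).unpair.1 (Nat.pair k i)).unpair.2.unpair.1).toNat))
      (Nat.pair 0 n).unpair.2 := by
    funext n
    simp only [Nat.unpair_pair]
    induction n with
    | zero => rfl
    | succ n ih =>
      simp only [← ih]
      show encode (seg y (n + 1)) = G _
      simp only [G, Nat.unpair_pair, encodek, Option.getD_some, seg_succ]
      cases y n <;> simp
  rw [h5]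
  exact h4

/-- A least initial segment of `y` with a decidable property is found computably in `y`. -/
theorem trec_least {q : List Bool → ℕ → Bool} (hq : Primrec₂ q) {g : ℕ → ℕ}
    (h1 : ∀ n, q (seg y (g n)) n = true) (h2 : ∀ n m, m < g n → q (seg y m) n = false) :
    TRec y g := by
  let F : ℕ → ℕ := fun a => bif q ((decode a.unpair.1 : Option (List Bool)).getD []) a.unpair.2
    then 0 else 1
  have hF : Primrec F := by
    refine Primrec.cond (hq.comp (Primrec.option_getD.comp
      (Primrec.decode.comp (Primrec.fst.comp Primrec.unpair)) (Primrec.const []))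
      (Primrec.snd.comp Primrec.unpair)) (Primrec.const 0) (Primrec.const 1)
  have hl : TRec y fun a : ℕ => a.unpair.2 :=
    TRec.of_computable (Primrec.snd.comp Primrec.unpair).to_comp
  have hn : TRec y fun a : ℕ => a.unpair.1 :=
    TRec.of_computable (Primrec.fst.comp Primrec.unpair).to_comp
  have h3 : TRec y fun a : ℕ => F (Nat.pair (encode (seg y a.unpair.2)) a.unpair.1) :=
    (TRec.of_computable hF.to_comp).comp ((trec_seg.comp hl).pair hn)
  refine TRec.rfind h3 (fun n => ?_) (fun n m hm => ?_)
  · simp only [F, Nat.unpair_pair, encodek, Option.getD_some, h1, cond_true]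
  · simp only [F, Nat.unpair_pair, encodek, Option.getD_some, h2 n m hm, cond_false]
    exact one_ne_zero

end Pool.Agent.H59.Hif
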