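import Pool.Agent.H59.Hif.Diag
import Pool.Agent.H59.Hif.Image
import Pool.Agent.H59.Hif.Search

/-!
# Hyperimmune-free members of thin classes
-/

set_option autoImplicit false

namespace Pool.Agent.H59.Hif

open Pool.Agent.H77.Thin Encodable
open Nat.Partrec (Code)

variable {T : List Bool → Bool} {v : List Bool → ℕ → Option ℕ}

/-- The condition that the functional converges within the computable bound with code `c`. -/
def bnd (T : List Bool → Bool) (v : List Bool → ℕ → Option ℕ) (c : Code) (ρ : List Bool) : Bool :=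
  T ρ && (List.range ρ.length).all fun n =>
    ((Code.evaln ρ.length c n).map fun k =>
      decide (ρ.length < k) || (v (ρ.take k) n).isSome).getD true

theorem prim_bnd (hTp : Primrec T) (hv : Primrec₂ v) (c : Code) : Primrec (bnd T v c) := by
  refine Primrec.and.comp hTp (prim_all (Primrec.list_range.comp Primrec.list_length) ?_)
  refine Primrec.option_getD.comp (Primrec.option_map ?_ ?_) (Primrec.const true)
  · exact Code.primrec_evaln.comp (Primrec.pair (Primrec.pair
      (Primrec.list_length.comp Primrec.fst) (Primrec.const c)) Primrec.snd)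
  · refine Primrec.or.comp (PrimrecPred.decide (Primrec.nat_lt.comp
      (Primrec.list_length.comp (Primrec.fst.comp Primrec.fst)) Primrec.snd)) ?_
    exact Primrec.option_isSome.comp (hv.comp (prim_take Primrec.snd
      (Primrec.fst.comp Primrec.fst)) (Primrec.snd.comp Primrec.fst))

theorem bnd_iff {c : Code} {z : ℕ → Bool} {s : ℕ} : bnd T v c (seg z s) = true ↔
    T (seg z s) = true ∧ ∀ n < s, ∀ k, Code.evaln s c n = some k → k ≤ s →
      (v (seg z k) n).isSome = true := by
  simp only [bnd, Bool.and_eq_true, List.all_eq_true, List.mem_range, seg_length]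
  refine and_congr Iff.rfl (forall_congr' fun n => forall_congr' fun _ => ?_)
  cases h : Code.evaln s c n with
  | none => simp
  | some k =>
    simp only [Option.map_some, Option.getD_some, Bool.or_eq_true, decide_eq_true_eq,
      Option.some.injEq]
    constructor
    · rintro h1 k' rfl hk
      rcases h1 with h1 | h1
      · omega
      · rwa [seg_take z hk] at h1
    · intro h1
      by_cases hk : k ≤ s
      · right
        rw [seg_take z hk]
        exact h1 k rfl hk
      · left
        omega

/-- A functional total at a hyperimmune-free member of a thin class is total on a neighbourhood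
of that member in the class. -/
theorem nbhd_total (hTp : Primrec T) (hthin : IsThin (paths T)) (hv : IsFun v) {y : ℕ → Bool}
    (hy : y ∈ paths T) (hyp : HyperimmuneFree y)
    (htot : ∀ n, ∃ l, (v (seg y l) n).isSome = true) :
    ∃ σ, Ini σ y ∧ Total v (paths (cone T σ)) := by
  classical
  let u : ℕ → ℕ := fun n => Nat.find (htot n)
  have hu : TRec y u := by
    refine trec_least (q := fun ρ n => (v ρ n).isSome) (Primrec.option_isSome.comp₂ hv.prim)
      (fun n => Nat.find_spec (htot n)) (fun n m hm => ?_)
    have := Nat.find_min (htot n) hm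
    simpa using this
  obtain ⟨g, hg, hug⟩ := hyp u hu.turing
  obtain ⟨c, hc⟩ := Code.exists_code.1 (Partrec.nat_iff.1 hg.partrec)
  have heval : ∀ i, c.eval i = Part.some (g i) := fun i => by rw [hc]; rfl
  have hmono : ∀ {z : ℕ → Bool} {k l n : ℕ}, k ≤ l → (v (seg z k) n).isSome = true →
      (v (seg z l) n).isSome = true := by
    intro z k l n hkl h
    obtain ⟨m, hm⟩ := Option.isSome_iff_exists.1 h
    rw [hv.mono (seg_prefix z hkl) hm]
    rfl
  have hyA : ∀ s, bnd T v c (seg y s) = true := by
    intro s
    rw [bnd_iff]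
    refine ⟨hy s, fun n _ k hk _ => ?_⟩
    have h1 := Code.evaln_sound (Option.mem_def.2 hk)
    rw [heval, Part.mem_some_iff] at h1
    rw [h1]
    exact hmono (hug n) (Nat.find_spec (htot n))
  have hAtot : Total v {z | ∀ s, bnd T v c (seg z s) = true} := by
    intro z hz n
    have h1 : g n ∈ c.eval n := by rw [heval]; exact Part.mem_some _
    obtain ⟨k, hk⟩ := Code.evaln_complete.1 h1
    have h2 := (bnd_iff.1 (hz (max (max k (n + 1)) (g n)))).2 n
      (by have := le_max_left (max k (n + 1)) (g n); have := le_max_right k (n + 1); omega)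
      (g n) (Option.mem_def.1 (Code.evaln_mono
        (le_trans (le_max_left k (n + 1)) (le_max_left _ _)) hk)) (le_max_right _ _)
    exact ⟨g n, h2⟩
  obtain ⟨σ, hσ, hσA⟩ := nbhd hthin (isPi01_of_prim (prim_bnd hTp hv.prim c))
    (fun z hz s => (bnd_iff.1 (hz s)).1) hyA
  refine ⟨σ, hσ, fun z hz => hAtot z ?_⟩
  rw [paths_cone] at hz
  exact hσA z hz.1 hz.2

/-- The condition that no value is caught by the diagonal. -/
def dnc (T : List Bool → Bool) (v : List Bool → ℕ → Option ℕ) (ρ : List Bool) : Bool :=
  T ρ && (List.range ρ.length).all fun e =>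
    decide (v ρ e = none) || !decide (Code.evaln ρ.length (Denumerable.ofNat Code e) e = v ρ e)

theorem prim_dnc (hTp : Primrec T) (hv : Primrec₂ v) : Primrec (dnc T v) := by
  refine Primrec.and.comp hTp (prim_all (Primrec.list_range.comp Primrec.list_length) ?_)
  have h1 : Primrec fun a : List Bool × ℕ => v a.1 a.2 := hv
  refine Primrec.or.comp (prim_beq h1 (Primrec.const none)) (Primrec.not.comp (prim_beq ?_ h1))
  exact Code.primrec_evaln.comp (Primrec.pair (Primrec.pair
    (Primrec.list_length.comp Primrec.fst) ((Primrec.ofNat Code).comp Primrec.snd)) Primrec.snd)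

theorem dnc_iff (hv : IsFun v) (htot : Total v (paths T)) {z : ℕ → Bool} :
    (∀ s, dnc T v (seg z s) = true) ↔ z ∈ paths T ∧ DNC (out v z) := by
  simp only [dnc, Bool.and_eq_true, List.all_eq_true, List.mem_range, seg_length,
    Bool.or_eq_true, decide_eq_true_eq, Bool.not_eq_true', decide_eq_false_iff_not]
  constructor
  · intro h
    have hz : z ∈ paths T := fun s => (h s).1
    refine ⟨hz, fun c hc => ?_⟩
    obtain ⟨k, hk⟩ := Code.evaln_complete.1 hc
    obtain ⟨l, hl⟩ := htot.get hv hz (encode c)
    have h1 := (h (max (max k l) (encode c + 1))).2 (encode c)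
      (by have := le_max_right (max k l) (encode c + 1); omega)
    rw [hl _ (le_trans (le_max_right k l) (le_max_left _ _)), Denumerable.ofNat_encode] at h1
    rcases h1 with h1 | h1
    · exact absurd h1 (by simp)
    · exact h1 (Option.mem_def.1 (Code.evaln_mono
        (le_trans (le_max_left k l) (le_max_left _ _)) hk))
  · rintro ⟨hz, hd⟩ s
    refine ⟨hz s, fun e _ => ?_⟩
    cases hw : v (seg z s) e with
    | none => exact Or.inl rfl
    | some m =>
      right
      intro hcon
      have h1 := hd (Denumerable.ofNat Code e)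
      rw [Denumerable.encode_ofNat, out_eq hv hw] at h1
      exact h1 (Code.evaln_sound (Option.mem_def.2 hcon))

theorem hif_props {P : Set (ℕ → Bool)} (hP : IsThin P) {y : ℕ → Bool} (hy : y ∈ P)
    (hyp : HyperimmuneFree y) :
    (∀ x : ℕ → Bool, TuringReducible (chr x) (chr y) → ∃ Q, IsThin Q ∧ x ∈ Q) ∧
    (∀ f : ℕ → ℕ, TuringReducible (fun n => Part.some (f n)) (chr y) → ¬ DNC f) := by
  obtain ⟨c, hc⟩ := exists_tree hP.1
  have hTp := prim_tree c
  have hT := tree_closed c
  have hthin : IsThin (paths (tree c)) := by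
    have h1 : P = paths (tree c) := hc
    rw [← h1]
    exact hP
  have hyT : y ∈ paths (tree c) := by
    have h1 : P = paths (tree c) := hc
    rw [← h1]
    exact hy
  have hcone : ∀ (T : List Bool → Bool), Primrec T →
      (∀ σ τ : List Bool, σ <+: τ → T τ = true → T σ = true) → IsThin (paths T) →
      ∀ σ, IsThin (paths (cone T σ)) := by
    intro T hTp hT hthin σ
    refine sub_thin hthin (isPi01_paths (prim_cone hTp σ) (cone_closed hT σ)) ?_
    rw [paths_cone]
    exact fun z hz => hz.1
  refine ⟨fun x hx => ?_, fun f hf hdnc => ?_⟩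
  · obtain ⟨cv, hv, hv'⟩ := exists_val (f := fun n => (x n).toNat) hx
    obtain ⟨σ, hσ, htot⟩ := nbhd_total hTp hthin hv hyT hyp (fun n => by
      obtain ⟨l, hl⟩ := hv' n
      exact ⟨l, by rw [hl]; rfl⟩)
    refine ⟨_, thin_image (prim_cone hTp σ) (cone_closed hT σ) (hcone _ hTp hT hthin σ) hv htot,
      y, by rw [paths_cone]; exact ⟨hyT, hσ⟩, ?_⟩
    funext n
    unfold pt
    rw [computes_out hv hv' n]
    cases x n <;> rfl
  · obtain ⟨cv, hv, hv'⟩ := exists_val hf
    obtain ⟨σ, hσ, htot⟩ := nbhd_total hTp hthin hv hyT hyp (fun n => by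
      obtain ⟨l, hl⟩ := hv' n
      exact ⟨l, by rw [hl]; rfl⟩)
    have hy1 : y ∈ paths (cone (tree c) σ) := by rw [paths_cone]; exact ⟨hyT, hσ⟩
    have hthin1 := hcone _ hTp hT hthin σ
    have hT1p := prim_cone hTp σ
    have hT1 := cone_closed hT σ
    have hf1 : out (val cv) y = f := funext fun n => computes_out hv hv' n
    obtain ⟨τ, hτ, hτB⟩ := nbhd hthin1 (isPi01_of_prim (prim_dnc hT1p hv.prim))
      (fun z hz => ((dnc_iff hv htot).1 hz).1) ((dnc_iff hv htot).2 ⟨hy1, by rw [hf1]; exact hdnc⟩)
    have hsub : paths (cone (cone (tree c) σ) τ) ⊆ paths (cone (tree c) σ) := by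
      rw [paths_cone τ]
      exact fun z hz => hz.1
    refine no_dnc (prim_cone hT1p τ) (cone_closed hT1 τ) (hcone _ hT1p hT1 hthin1 τ) hv
      (htot.sub hsub) (fun z hz => ?_) y (by rw [paths_cone τ]; exact ⟨hy1, hτ⟩)
    rw [paths_cone τ] at hz
    exact ((dnc_iff hv htot).1 (hτB z hz.1 hz.2)).2

end Pool.Agent.H59.Hif
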