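import Pool.Agent.H59.Hif.Cat
import Pool.Agent.H59.Hif.DefsGen

/-!
# Members of thin classes computed by generic points
-/

set_option autoImplicit false

namespace Pool.Agent.H59.Hif

open Pool.Agent.H77.Thin Encodable
open Nat.Partrec (Code)

/-- Prefix test. -/
def pre (σ τ : List Bool) : Bool := decide (τ.take σ.length = σ)

theorem pre_iff {σ τ : List Bool} : pre σ τ = true ↔ σ <+: τ := by
  rw [pre, decide_eq_true_eq, List.prefix_iff_eq_take]
  exact eq_comm

theorem prim_pre : Primrec₂ pre :=
  prim_beq (prim_take (Primrec.list_length.comp Primrec.fst) Primrec.snd) Primrec.fst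

/-- The functional with values `0` and `1`. -/
def bv (v : List Bool → ℕ → Option ℕ) (ρ : List Bool) (n : ℕ) : Option ℕ :=
  (v ρ n).map fun m => bif decide (m = 0) then 0 else 1

theorem isFun_bv {v : List Bool → ℕ → Option ℕ} (hv : IsFun v) : IsFun (bv v) := by
  refine ⟨?_, ?_⟩
  · refine Primrec.option_map hv.prim ?_
    exact Primrec.cond (prim_beq Primrec.snd (Primrec.const 0)) (Primrec.const 0)
      (Primrec.const 1)
  · intro σ τ n m h hm
    unfold bv at hm ⊢
    cases hw : v σ n with
    | none => rw [hw] at hm; exact absurd hm (by simp)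
    | some w =>
      rw [hw] at hm
      rw [hv.mono h hw]
      exact hm

theorem computes_bv {v : List Bool → ℕ → Option ℕ} {x y : ℕ → Bool}
    (h : Computes v x fun n => (y n).toNat) : Computes (bv v) x fun n => (y n).toNat := by
  intro n
  obtain ⟨l, hl⟩ := h n
  refine ⟨l, ?_⟩
  unfold bv
  rw [hl]
  show Option.map _ (some (y n).toNat) = some (y n).toNat
  cases y n <;> rfl

theorem bv_bit {v : List Bool → ℕ → Option ℕ} {ρ : List Bool} {n m : ℕ}
    (h : bv v ρ n = some m) : (!decide (m = 0)).toNat = m := by
  unfold bv at h
  cases hw : v ρ n with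
  | none => rw [hw] at h; exact absurd h (by simp)
  | some w =>
    rw [hw] at h
    simp only [Option.map_some, Option.some.injEq] at h
    rw [← h]
    cases decide (w = 0) <;> rfl

section Main

variable (T : List Bool → Bool) (v : List Bool → ℕ → Option ℕ)

/-- The string computes something outside the tree. -/
def Leaves (τ : List Bool) : Prop := ∃ k, conv v τ k = true ∧ T (word v τ k) = false

/-- Some value diverges on all extensions. -/
def Div (τ : List Bool) : Prop := ∃ n, ∀ τ', τ <+: τ' → v τ' n = none

/-- No two extensions give different values. -/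
def NoSplit (τ : List Bool) : Prop :=
  ∀ τ₁ τ₂ n a b, τ <+: τ₁ → τ <+: τ₂ → v τ₁ n = some a → v τ₂ n = some b → a = b

/-- The union of the three conditions. -/
def Dec (τ : List Bool) : Prop := Leaves T v τ ∨ Div v τ ∨ NoSplit v τ

/-- The matrix of the `Σ⁰₂` definition. -/
def mat (τ : List Bool) (a b : ℕ) : Bool :=
  bif decide (a.unpair.1 = 0) then conv v τ a.unpair.2 && !T (word v τ a.unpair.2) else
  bif decide (a.unpair.1 = 1) then
    ((decode b : Option (List Bool)).map fun τ' =>
      !pre τ τ' || decide (v τ' a.unpair.2 = none)).getD true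
  else
    ((decode b : Option (List Bool × List Bool × ℕ)).map fun q =>
      !pre τ q.1 || !pre τ q.2.1 || decide (v q.1 q.2.2 = none) ||
        decide (v q.2.1 q.2.2 = none) || decide (v q.1 q.2.2 = v q.2.1 q.2.2)).getD true

variable {T v}

theorem prim_mat (hTp : Primrec T) (hv : Primrec₂ v) :
    Primrec fun p : List Bool × ℕ × ℕ => mat T v p.1 p.2.1 p.2.2 := by
  have ha1 : Primrec fun p : List Bool × ℕ × ℕ => p.2.1.unpair.1 :=
    Primrec.fst.comp (Primrec.unpair.comp (Primrec.fst.comp Primrec.snd))
  have ha2 : Primrec fun p : List Bool × ℕ × ℕ => p.2.1.unpair.2 :=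
    Primrec.snd.comp (Primrec.unpair.comp (Primrec.fst.comp Primrec.snd))
  have hb : Primrec fun p : List Bool × ℕ × ℕ => p.2.2 := Primrec.snd.comp Primrec.snd
  refine Primrec.cond (prim_beq ha1 (Primrec.const 0)) ?_ (Primrec.cond
    (prim_beq ha1 (Primrec.const 1)) ?_ ?_)
  · exact Primrec.and.comp ((prim_conv hv).comp Primrec.fst ha2)
      (Primrec.not.comp (hTp.comp ((prim_word hv).comp Primrec.fst ha2)))
  · refine Primrec.option_getD.comp (Primrec.option_map (Primrec.decode.comp hb) ?_)
      (Primrec.const true)
    exact Primrec.or.comp (Primrec.not.comp (prim_pre.comp (Primrec.fst.comp Primrec.fst)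
      Primrec.snd)) (prim_beq (hv.comp Primrec.snd (ha2.comp Primrec.fst)) (Primrec.const none))
  · refine Primrec.option_getD.comp (Primrec.option_map (Primrec.decode.comp hb) ?_)
      (Primrec.const true)
    have h1 : Primrec fun q : (List Bool × ℕ × ℕ) × List Bool × List Bool × ℕ =>
        v q.2.1 q.2.2.2 := hv.comp (Primrec.fst.comp Primrec.snd)
      (Primrec.snd.comp (Primrec.snd.comp Primrec.snd))
    have h2 : Primrec fun q : (List Bool × ℕ × ℕ) × List Bool × List Bool × ℕ =>
        v q.2.2.1 q.2.2.2 := hv.comp (Primrec.fst.comp (Primrec.snd.comp Primrec.snd))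
      (Primrec.snd.comp (Primrec.snd.comp Primrec.snd))
    refine Primrec.or.comp (Primrec.or.comp (Primrec.or.comp (Primrec.or.comp ?_ ?_)
      (prim_beq h1 (Primrec.const none))) (prim_beq h2 (Primrec.const none))) (prim_beq h1 h2)
    · exact Primrec.not.comp (prim_pre.comp (Primrec.fst.comp Primrec.fst)
        (Primrec.fst.comp Primrec.snd))
    · exact Primrec.not.comp (prim_pre.comp (Primrec.fst.comp Primrec.fst)
        (Primrec.fst.comp (Primrec.snd.comp Primrec.snd)))

theorem dec_iff {τ : List Bool} : Dec T v τ ↔ ∃ a, ∀ b, mat T v τ a b = true := by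
  constructor
  · rintro (⟨k, h1, h2⟩ | ⟨n, h⟩ | h)
    · refine ⟨Nat.pair 0 k, fun b => ?_⟩
      simp [mat, h1, h2]
    · refine ⟨Nat.pair 1 n, fun b => ?_⟩
      simp only [mat, Nat.unpair_pair, one_ne_zero, decide_false, cond_false, decide_true,
        cond_true]
      cases hd : (decode b : Option (List Bool)) with
      | none => rfl
      | some τ' =>
        simp only [Option.map_some, Option.getD_some, Bool.or_eq_true, Bool.not_eq_true',
          decide_eq_true_eq]
        by_cases hp : pre τ τ' = true
        · exact Or.inr (h τ' (pre_iff.1 hp))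
        · exact Or.inl (by simpa using hp)
    · refine ⟨Nat.pair 2 0, fun b => ?_⟩
      simp only [mat, Nat.unpair_pair, OfNat.ofNat_ne_zero, decide_false, cond_false,
        OfNat.ofNat_ne_one]
      cases hd : (decode b : Option (List Bool × List Bool × ℕ)) with
      | none => rfl
      | some q =>
        simp only [Option.map_some, Option.getD_some, Bool.or_eq_true, Bool.not_eq_true',
          decide_eq_true_eq]
        by_cases hp : pre τ q.1 = true
        · by_cases hp' : pre τ q.2.1 = true
          · cases h1 : v q.1 q.2.2 with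
            | none => simp
            | some a =>
              cases h2 : v q.2.1 q.2.2 with
              | none => simp
              | some b =>
                right
                rw [h q.1 q.2.1 q.2.2 a b (pre_iff.1 hp) (pre_iff.1 hp') h1 h2]
          · have : pre τ q.2.1 = false := by simpa using hp'
            simp [this]
        · have : pre τ q.1 = false := by simpa using hp
          simp [this]
  · rintro ⟨a, h⟩
    by_cases h0 : a.unpair.1 = 0
    · left
      have h1 := h 0
      simp only [mat, h0, decide_true, cond_true, Bool.and_eq_true, Bool.not_eq_true'] at h1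
      exact ⟨a.unpair.2, h1.1, h1.2⟩
    · by_cases h1 : a.unpair.1 = 1
      · right; left
        refine ⟨a.unpair.2, fun τ' hτ' => ?_⟩
        have h2 := h (encode τ')
        simp only [mat, h1, one_ne_zero, decide_false, cond_false, decide_true, cond_true,
          encodek, Option.map_some, Option.getD_some, Bool.or_eq_true, Bool.not_eq_true',
          decide_eq_true_eq] at h2
        rcases h2 with h2 | h2
        · rw [pre_iff.2 hτ'] at h2
          exact absurd h2 (by simp)
        · exact h2
      · right; right
        intro τ₁ τ₂ n c d h3 h4 h5 h6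
        have h2 := h (encode (τ₁, τ₂, n))
        simp only [mat, h0, h1, decide_false, cond_false, encodek, Option.map_some,
          Option.getD_some, Bool.or_eq_true, Bool.not_eq_true', decide_eq_true_eq,
          pre_iff.2 h3, pre_iff.2 h4, h5, h6, Option.some.injEq] at h2
        simpa using h2

theorem sigma_dec (hTp : Primrec T) (hv : Primrec₂ v) : IsSigma02Set (Dec T v) :=
  ⟨fun p => mat T v p.1 p.2.1 p.2.2 = true,
    ComputablePred.computable_iff.2 ⟨_, (prim_mat hTp hv).to_comp, rfl⟩, fun _ => dec_iff⟩

end Main

variable {T : List Bool → Bool} {v : List Bool → ℕ → Option ℕ}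

/-- A string above which every value converges on some extension has a computable extension at
which the functional is total. -/
theorem exists_total_point (hv : IsFun v) {σ : List Bool}
    (hσ : ∀ τ, σ <+: τ → ∀ n, ∃ τ', τ <+: τ' ∧ (v τ' n).isSome = true) :
    ∃ x : ℕ → Bool, Ini σ x ∧ (∀ n, ∃ l, (v (seg x l) n).isSome = true) ∧
      Computable (pt v x) := by
  -- one step
  let F : List Bool × ℕ → ℕ → Option (List Bool) := fun p q =>
    bif pre σ p.1 then (decode q : Option (List Bool)).bind fun τ' =>
      bif pre p.1 τ' && (v τ' p.2).isSome then some τ' else none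
    else some p.1
  have hF : Primrec₂ F := by
    refine Primrec.cond (prim_pre.comp (Primrec.const σ) (Primrec.fst.comp Primrec.fst)) ?_
      (Primrec.option_some.comp (Primrec.fst.comp Primrec.fst))
    refine Primrec.option_bind (Primrec.decode.comp Primrec.snd) ?_
    refine Primrec.cond (Primrec.and.comp ?_ ?_) (Primrec.option_some.comp Primrec.snd)
      (Primrec.const none)
    · exact prim_pre.comp (Primrec.fst.comp (Primrec.fst.comp Primrec.fst)) Primrec.snd
    · exact Primrec.option_isSome.comp (hv.prim.comp Primrec.snd
        (Primrec.snd.comp (Primrec.fst.comp Primrec.fst)))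
  have hdom : ∀ p, (Nat.rfindOpt (F p)).Dom := by
    rintro ⟨τ, n⟩
    rw [Nat.rfindOpt_dom]
    cases hp : pre σ τ with
    | false => exact ⟨0, τ, by simp [F, hp]⟩
    | true =>
      obtain ⟨τ', h1, h2⟩ := hσ τ (pre_iff.1 hp) n
      refine ⟨encode τ', τ', ?_⟩
      simp [F, hp, encodek, pre_iff.2 h1, h2]
  let N : List Bool × ℕ → List Bool := fun p => (Nat.rfindOpt (F p)).get (hdom p)
  have hN : Computable N :=
    (Partrec.rfindOpt hF.to_comp).of_eq_tot fun p => Part.get_mem (hdom p)
  have hNspec : ∀ τ, σ <+: τ → ∀ n, τ <+: N (τ, n) ∧ (v (N (τ, n)) n).isSome = true := by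
    intro τ hτ n
    obtain ⟨q, hq⟩ := Nat.rfindOpt_spec (Part.get_mem (hdom (τ, n)))
    change F (τ, n) q = some (N (τ, n)) at hq
    simp only [F, pre_iff.2 hτ, cond_true] at hq
    cases hd : (decode q : Option (List Bool)) with
    | none => rw [hd] at hq; exact absurd hq (by simp)
    | some τ' =>
      rw [hd] at hq
      simp only [Option.bind_some] at hq
      cases hc : (pre τ τ' && (v τ' n).isSome) with
      | false => rw [hc] at hq; exact absurd hq (by simp)
      | true =>
        rw [hc, cond_true, Option.some.injEq] at hq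
        rw [← hq]
        rw [Bool.and_eq_true] at hc
        exact ⟨pre_iff.1 hc.1, hc.2⟩
  -- the sequence
  let s : ℕ → List Bool := fun k => Nat.rec (motive := fun _ => List Bool) σ
    (fun j τ => N (τ, j) ++ [false]) k
  have hs : Computable s := by
    refine Computable.nat_rec (f := fun k : ℕ => k) (g := fun _ : ℕ => σ)
      (h := fun (_ : ℕ) (q : ℕ × List Bool) => N (q.2, q.1) ++ [false])
      Computable.id (Computable.const σ) ?_
    exact (Primrec.list_concat.to_comp).comp (hN.comp (Computable.pair
      (Computable.snd.comp Computable.snd) (Computable.fst.comp Computable.snd)))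
      (Computable.const false)
  have hsucc : ∀ k, s (k + 1) = N (s k, k) ++ [false] := fun k => rfl
  have hbase : ∀ k, σ <+: s k := by
    intro k
    induction k with
    | zero => exact List.prefix_refl _
    | succ k ih =>
      rw [hsucc]
      exact (ih.trans (hNspec _ ih k).1).trans (List.prefix_append _ _)
  have hstep : ∀ k, s k <+: s (k + 1) := fun k => by
    rw [hsucc]
    exact (hNspec _ (hbase k) k).1.trans (List.prefix_append _ _)
  have hmono : ∀ {i j}, i ≤ j → s i <+: s j := by
    intro i j hij
    induction j, hij using Nat.le_induction with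
    | base => exact List.prefix_refl _
    | succ j _ ih => exact ih.trans (hstep j)
  have hlen : ∀ k, k ≤ (s k).length := by
    intro k
    induction k with
    | zero => exact Nat.zero_le _
    | succ k ih =>
      have h1 := (hNspec _ (hbase k) k).1.length_le
      rw [hsucc, List.length_append, List.length_singleton]
      omega
  let x : ℕ → Bool := fun i => ((s (i + 1))[i]?).getD false
  have hini : ∀ k, Ini (s k) x := by
    intro k
    rw [ini_iff_getElem]
    intro n b hb
    have h1 := hlen (n + 1)
    have h2 : (s (n + 1))[n]? = some b := by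
      rcases le_total k (n + 1) with h | h
      · obtain ⟨ρ, hρ⟩ := hmono h
        rw [← hρ]
        have hn : n < (s k).length := by
          by_contra hn
          rw [List.getElem?_eq_none (not_lt.1 hn)] at hb
          exact absurd hb (by simp)
        rw [List.getElem?_append_left hn]
        exact hb
      · obtain ⟨ρ, hρ⟩ := hmono h
        rw [← hρ, List.getElem?_append_left (by omega)] at hb
        exact hb
    simp only [x, h2, Option.getD_some]
  have hval : ∀ n, (v (s (n + 1)) n).isSome = true := by
    intro n
    obtain ⟨m, hm⟩ := Option.isSome_iff_exists.1 (hNspec _ (hbase n) n).2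
    rw [hsucc, hv.mono (List.prefix_append _ _) hm]
    rfl
  refine ⟨x, ini_mono (hbase 0) (hini 0), fun n => ⟨(s (n + 1)).length, ?_⟩, ?_⟩
  · rw [show seg x (s (n + 1)).length = s (n + 1) from hini (n + 1)]
    exact hval n
  · have h1 : pt v x = fun n => !decide ((v (s (n + 1)) n).getD 0 = 0) := by
      funext n
      obtain ⟨m, hm⟩ := Option.isSome_iff_exists.1 (hval n)
      unfold pt
      rw [out_ini hv (hini (n + 1)) hm, hm, Option.getD_some]
    rw [h1]
    have h2 : Primrec fun p : List Bool × ℕ => !decide ((v p.1 p.2).getD 0 = 0) :=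
      Primrec.not.comp (prim_beq (Primrec.option_getD.comp hv.prim (Primrec.const 0))
        (Primrec.const 0))
    exact h2.to_comp.comp ((hs.comp Computable.succ).pair Computable.id)

/-- The singleton of a computable point is a `Π⁰₁` class. -/
theorem isPi01_singleton {c : ℕ → Bool} (hc : Computable c) : IsPi01 {c} := by
  have hc' : Computable fun n => (c n).toNat := (Primrec.dom_finite Bool.toNat).to_comp.comp hc
  obtain ⟨d, hd⟩ := Code.exists_code.1 (Partrec.nat_iff.1 hc'.partrec)
  have heval : ∀ i, d.eval i = Part.some (c i).toNat := fun i => by rw [hd]; rfl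
  have hp : Primrec fun ρ : List Bool => (List.range ρ.length).all fun n =>
      decide (Code.evaln ρ.length d n = none) ||
        decide (Code.evaln ρ.length d n = (ρ[n]?).map Bool.toNat) := by
    have h1 : Primrec fun a : List Bool × ℕ => Code.evaln a.1.length d a.2 :=
      Code.primrec_evaln.comp (Primrec.pair (Primrec.pair
        (Primrec.list_length.comp Primrec.fst) (Primrec.const d)) Primrec.snd)
    refine prim_all (Primrec.list_range.comp Primrec.list_length) ?_
    refine Primrec.or.comp (prim_beq h1 (Primrec.const none)) (prim_beq h1 ?_)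
    exact Primrec.option_map (Primrec.list_getElem?.comp Primrec.fst Primrec.snd)
      ((Primrec.dom_finite Bool.toNat).comp Primrec.snd)
  have h1 := isPi01_of_prim hp
  have h2 : ({c} : Set (ℕ → Bool)) = {z | ∀ s, ((List.range (seg z s).length).all fun n =>
      decide (Code.evaln (seg z s).length d n = none) ||
        decide (Code.evaln (seg z s).length d n = ((seg z s)[n]?).map Bool.toNat)) = true} := by
    ext z
    simp only [Set.mem_singleton_iff, Set.mem_ofPred_eq, List.all_eq_true, List.mem_range,
      seg_length, Bool.or_eq_true, decide_eq_true_eq]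
    constructor
    · rintro rfl s n hn
      cases he : Code.evaln s d n with
      | none => exact Or.inl rfl
      | some m =>
        right
        have h3 := Code.evaln_sound (Option.mem_def.2 he)
        rw [heval, Part.mem_some_iff] at h3
        rw [seg_getElem? _ hn, h3]
        rfl
    · intro h
      funext n
      have h3 : (c n).toNat ∈ d.eval n := by rw [heval]; exact Part.mem_some _
      obtain ⟨k, hk⟩ := Code.evaln_complete.1 h3
      have h4 := Option.mem_def.1 (Code.evaln_mono (le_max_left k (n + 1)) hk)
      have h5 := h (max k (n + 1)) n (by have := le_max_right k (n + 1); omega)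
      rw [h4, seg_getElem? z (by have := le_max_right k (n + 1); omega)] at h5
      rcases h5 with h5 | h5
      · exact absurd h5 (by simp)
      · simp only [Option.map_some, Option.some.injEq] at h5
        revert h5
        cases c n <;> cases z n <;> simp
  rw [h2]
  exact h1

/-- The strings that decide the computation are dense. -/
theorem dense_dec (hthin : IsThin (paths T)) (hv : IsFun v)
    (h01 : ∀ ρ n m, v ρ n = some m → (!decide (m = 0)).toNat = m) (σ : List Bool) :
    ∃ τ, σ <+: τ ∧ Dec T v τ := by
  by_contra hcon
  push Not at hcon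
  have hL : ∀ τ, σ <+: τ → ∀ k, conv v τ k = true → T (word v τ k) = true := by
    intro τ hτ k hk
    by_contra h1
    exact hcon τ hτ (Or.inl ⟨k, hk, by simpa using h1⟩)
  have hD : ∀ τ, σ <+: τ → ∀ n, ∃ τ', τ <+: τ' ∧ (v τ' n).isSome = true := by
    intro τ hτ n
    by_contra h1
    push Not at h1
    refine hcon τ hτ (Or.inr (Or.inl ⟨n, fun τ' hτ' => ?_⟩))
    have := h1 τ' hτ'
    simpa using this
  have hS : ∀ τ, σ <+: τ → ∃ τ₁ τ₂ n a b, τ <+: τ₁ ∧ τ <+: τ₂ ∧ v τ₁ n = some a ∧
      v τ₂ n = some b ∧ a ≠ b := by
    intro τ hτ
    by_contra h1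
    refine hcon τ hτ (Or.inr (Or.inr fun τ₁ τ₂ n a b h2 h3 h4 h5 => ?_))
    by_contra h6
    exact h1 ⟨τ₁, τ₂, n, a, b, h2, h3, h4, h5, h6⟩
  -- total points above `σ` are mapped into the class
  have hmem : ∀ x : ℕ → Bool, Ini σ x → (∀ n, ∃ l, (v (seg x l) n).isSome = true) →
      pt v x ∈ paths T := by
    intro x hσx hx k
    have htot : Total v {x} := by
      intro z hz n
      rw [Set.mem_singleton_iff.1 hz]
      exact hx n
    obtain ⟨l, hl⟩ := exists_conv' hv htot (Set.mem_singleton x) k
    have h1 := hl (max l σ.length) (le_max_left _ _)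
    rw [← word_pt hv h1]
    exact hL _ (hσx.pre (le_max_right _ _)) k h1
  obtain ⟨x, hσx, hx, hcomp⟩ := exists_total_point hv hD
  have hc : pt v x ∈ paths T := hmem x hσx hx
  obtain ⟨ρ, hρ, hρ'⟩ := nbhd hthin (isPi01_singleton hcomp)
    (Set.singleton_subset_iff.2 hc) (Set.mem_singleton _)
  have htot : Total v {x} := by
    intro z hz n
    rw [Set.mem_singleton_iff.1 hz]
    exact hx n
  obtain ⟨l, hl⟩ := exists_conv' hv htot (Set.mem_singleton x) ρ.length
  have hτ : σ <+: seg x (max l σ.length) := hσx.pre (le_max_right _ _)
  have hconv := hl (max l σ.length) (le_max_left _ _)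
  obtain ⟨τ₁, τ₂, n, a, b, h1, h2, h3, h4, hab⟩ := hS _ hτ
  -- one of the two extensions gives a value different from that of `x`
  have hkey : ∀ τ' m, seg x (max l σ.length) <+: τ' → v τ' n = some m →
      m = (pt v x n).toNat := by
    intro τ' m h5 h6
    obtain ⟨x₂, hx₂, htot₂, _⟩ := exists_total_point hv (σ := τ')
      (fun τ hτ' => hD τ ((hτ.trans h5).trans hτ'))
    have h7 : pt v x₂ ∈ paths T := hmem x₂ (ini_mono (hτ.trans h5) hx₂) htot₂
    have h8 : Ini ρ (pt v x₂) := by
      have h9 : Ini (seg x (max l σ.length)) x₂ := ini_mono h5 hx₂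
      have h10 : seg x₂ (max l σ.length) = seg x (max l σ.length) := by
        have := h9
        unfold Ini at this
        rwa [seg_length] at this
      have h11 : conv v (seg x₂ (max l σ.length)) ρ.length = true := by
        rw [h10]
        exact hconv
      have h12 := word_pt hv h11
      rw [h10, word_pt hv hconv] at h12
      unfold Ini
      rw [← h12]
      exact hρ
    have h13 : pt v x₂ = pt v x := hρ' _ h7 h8
    rw [← h13]
    unfold pt
    rw [out_ini hv hx₂ h6]
    exact (h01 τ' n m h6).symm
  exact hab ((hkey τ₁ a h1 h3).trans (hkey τ₂ b h2 h4).symm)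

/-- A member of the class computed through a deciding string is computable. -/
theorem computable_of_dec {x y : ℕ → Bool} (hv : IsFun v)
    (hy : y ∈ paths T) (hxy : Computes v x fun n => (y n).toNat) {k : ℕ}
    (hk : Dec T v (seg x k)) : Computable y := by
  have hout : ∀ n, out v x n = (y n).toNat := fun n => computes_out hv hxy n
  rcases hk with ⟨m, h1, h2⟩ | ⟨n, h⟩ | h
  · have h3 : word v (seg x k) m = seg y m := by
      refine word_eq fun n hn => ?_
      obtain ⟨w, hw⟩ := Option.isSome_iff_exists.1 (conv_iff.1 h1 n hn)
      rw [hw, ← hout n, out_eq hv hw]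
    rw [h3, show T (seg y m) = true from hy m] at h2
    exact absurd h2 (by simp)
  · obtain ⟨l, hl⟩ := hxy n
    have h1 := h (seg x (max k l)) (seg_prefix x (le_max_left _ _))
    rw [hv.mono (seg_prefix x (le_max_right k l)) hl] at h1
    exact absurd h1 (by simp)
  · let F : ℕ → ℕ → Option ℕ := fun n q => (decode q : Option (List Bool)).bind fun τ' =>
      bif pre (seg x k) τ' then v τ' n else none
    have hF : Primrec₂ F := by
      refine Primrec.option_bind (Primrec.decode.comp Primrec.snd) ?_
      exact Primrec.cond (prim_pre.comp (Primrec.const _) Primrec.snd)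
        (hv.prim.comp Primrec.snd (Primrec.fst.comp Primrec.fst)) (Primrec.const none)
    have h1 : ∀ n, ∃ l, k ≤ l ∧ v (seg x l) n = some (y n).toNat := by
      intro n
      obtain ⟨l, hl⟩ := hxy n
      exact ⟨max k l, le_max_left _ _, hv.mono (seg_prefix x (le_max_right k l)) hl⟩
    have h2 : Computable fun n => (y n).toNat := by
      refine (Partrec.rfindOpt hF.to_comp).of_eq_tot fun n => ?_
      obtain ⟨l, hkl, hl⟩ := h1 n
      have hdom : (Nat.rfindOpt (F n)).Dom := by
        rw [Nat.rfindOpt_dom]
        refine ⟨encode (seg x l), (y n).toNat, ?_⟩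
        simp [F, encodek, pre_iff.2 (seg_prefix x hkl), hl]
      obtain ⟨w, hw⟩ := Part.dom_iff_mem.1 hdom
      obtain ⟨q, hq⟩ := Nat.rfindOpt_spec hw
      rw [Option.mem_def] at hq
      simp only [F] at hq
      cases hd : (decode q : Option (List Bool)) with
      | none => rw [hd] at hq; exact absurd hq (by simp)
      | some τ' =>
        rw [hd, Option.bind_some] at hq
        cases hp : pre (seg x k) τ' with
        | false => rw [hp] at hq; exact absurd hq (by simp)
        | true =>
          rw [hp, cond_true] at hq
          have h3 := h τ' (seg x l) n w (y n).toNat (pre_iff.1 hp) (seg_prefix x hkl) hq hl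
          rw [← h3]
          exact hw
    have h3 : Primrec fun m : ℕ => !decide (m = 0) :=
      Primrec.not.comp (prim_beq Primrec.id (Primrec.const 0))
    refine (h3.to_comp.comp h2).of_eq fun n => ?_
    cases y n <;> rfl

/-- Weakly `2`-generic points compute only the computable members of thin classes. -/
theorem generic_computable {x : ℕ → Bool} (hx : WeaklyTwoGeneric x) {P : Set (ℕ → Bool)}
    (hP : IsThin P) {y : ℕ → Bool} (hy : y ∈ P) (hyx : TuringReducible (chr y) (chr x)) :
    Computable y := by
  obtain ⟨cT, rfl⟩ := exists_tree hP.1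
  obtain ⟨cv, hv, hv'⟩ := exists_val (f := fun n => (y n).toNat) hyx
  obtain ⟨k, hk⟩ := hx _ (sigma_dec (prim_tree cT) (isFun_bv hv).prim)
    (dense_dec hP (isFun_bv hv) fun ρ n m h => bv_bit h)
  exact computable_of_dec (isFun_bv hv) hy (computes_bv hv') hk

/-- Comeager many points compute only the computable members of thin classes. -/
theorem residual_computable : ∀ᶠ x : ℕ → Bool in residual (ℕ → Bool), ∀ y : ℕ → Bool,
    TuringReducible (chr y) (chr x) → (∃ P, IsThin P ∧ y ∈ P) → Computable y := by
  have h1 : (⋂ d : Code × Code, {x : ℕ → Bool | IsThin (paths (tree d.1)) → IsFun (val d.2) →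
      ∃ k, Dec (tree d.1) (bv (val d.2)) (seg x k)}) ∈ residual (ℕ → Bool) := by
    rw [countable_iInter_mem]
    intro d
    by_cases hd : IsThin (paths (tree d.1)) ∧ IsFun (val d.2)
    · refine Filter.mem_of_superset (x := {x : ℕ → Bool |
        ∃ k, Dec (tree d.1) (bv (val d.2)) (seg x k)}) ?_ fun x hx _ _ => hx
      refine residual_of_dense_open ?_ ?_
      · rw [isOpen_iff_forall_mem_open]
        rintro x ⟨k, hk⟩
        refine ⟨{z | Ini (seg x k) z}, fun z hz => ⟨k, ?_⟩, isOpen_ini _, ini_seg x k⟩
        have h2 : seg z k = seg x k := by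
          have := hz
          simp only [Set.mem_ofPred_eq, Ini, seg_length] at this
          exact this
        rw [h2]
        exact hk
      · rw [dense_iff_inter_open]
        rintro U hU ⟨x, hx⟩
        obtain ⟨σ, _, hσU⟩ := exists_ini_of_isOpen hU hx
        obtain ⟨τ, hτ, hτD⟩ := dense_dec hd.1 (isFun_bv hd.2) (fun ρ n m h => bv_bit h) σ
        have h5 : Ini τ (fun k => (τ[k]?).getD false) := by
          rw [ini_iff_getElem]
          intro k b hb
          simp only [hb, Option.getD_some]
        refine ⟨fun k => (τ[k]?).getD false, hσU (ini_mono hτ h5), τ.length, ?_⟩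
        rw [show seg (fun k => (τ[k]?).getD false) τ.length = τ from h5]
        exact hτD
    · exact Filter.mem_of_superset Filter.univ_mem fun z _ h h' => absurd ⟨h, h'⟩ hd
  refine Filter.mem_of_superset h1 fun x hx y hyx hyP => ?_
  obtain ⟨P, hP, hy⟩ := hyP
  obtain ⟨cT, rfl⟩ := exists_tree hP.1
  obtain ⟨cv, hv, hv'⟩ := exists_val (f := fun n => (y n).toNat) hyx
  obtain ⟨k, hk⟩ := Set.mem_iInter.1 hx (cT, cv) hP hv
  exact computable_of_dec (isFun_bv hv) hy (computes_bv hv') hk

end Pool.Agent.H59.Hif
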