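import Pool.Agent.H59.Hif.Move

/-!
# A finite injury construction of a perfect class meeting monotone requirements on pairs
-/

set_option autoImplicit false

namespace Pool.Agent.H59.Hif

open Pool.Agent.H77.Thin Encodable
open Nat.Partrec (Code)

section Constr

variable (Θ : ℕ → List Bool → List Bool → Bool)

/-- The move `m` is available for the list of moves `M`: it satisfies a new requirement. -/
def avail (M : List Move) (m : Move) : Bool :=
  (pre (m.1 ++ [false]) m.2.1 && pre (m.1 ++ [true]) m.2.2) &&
    (List.range (m.1.length + 1)).any fun j =>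
      !Θ j (emb M (m.1 ++ [false])) (emb M (m.1 ++ [true])) && Θ j (emb M m.2.1) (emb M m.2.2)

/-- The first available move at a node of length `k`. -/
def candk (s : ℕ) (M : List Move) (k : ℕ) : Option Move :=
  ((List.range s).filterMap fun q => (decode q : Option Move).bind fun m =>
    bif decide (m.1.length = k) && avail Θ M m then some m else none).head?

/-- The first available move, at a node of least length. -/
def candm (s : ℕ) (M : List Move) : Option Move :=
  ((List.range s).filterMap fun k => candk Θ s M k).head?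

/-- One stage. -/
def stp (s : ℕ) (M : List Move) : List Move :=
  ((candm Θ s M).map fun m => M ++ [m]).getD M

/-- The list of moves made before stage `s`. -/
def sts (s : ℕ) : List Move := Nat.rec [] (fun s M => stp Θ s M) s

/-- The embedding at stage `s`. -/
def embs (s : ℕ) (ρ : List Bool) : List Bool := emb (sts Θ s) ρ

variable {Θ}

theorem avail_iff {M : List Move} {m : Move} : avail Θ M m = true ↔
    Valid m ∧ ∃ j ≤ m.1.length, Θ j (emb M (m.1 ++ [false])) (emb M (m.1 ++ [true])) = false ∧
      Θ j (emb M m.2.1) (emb M m.2.2) = true := by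
  simp only [avail, Bool.and_eq_true, pre_iff, List.any_eq_true, List.mem_range,
    Bool.not_eq_true', Nat.lt_succ_iff]
  refine and_congr ?_ Iff.rfl
  constructor
  · rintro ⟨h1, h2⟩ i
    cases i
    · exact h1
    · exact h2
  · intro h
    exact ⟨h false, h true⟩

theorem candk_spec {s : ℕ} {M : List Move} {k : ℕ} {m : Move} (h : candk Θ s M k = some m) :
    m.1.length = k ∧ avail Θ M m = true := by
  have h1 := List.mem_of_mem_head? (Option.mem_def.2 h)
  rw [List.mem_filterMap] at h1
  obtain ⟨q, _, h2⟩ := h1
  cases hd : (decode q : Option Move) with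
  | none => rw [hd] at h2; exact absurd h2 (by simp)
  | some m' =>
    rw [hd, Option.bind_some] at h2
    cases hc : (decide (m'.1.length = k) && avail Θ M m') with
    | false => rw [hc] at h2; exact absurd h2 (by simp)
    | true =>
      rw [hc, cond_true, Option.some.injEq] at h2
      rw [Bool.and_eq_true, decide_eq_true_eq, h2] at hc
      exact hc

theorem candm_spec {s : ℕ} {M : List Move} {m : Move} (h : candm Θ s M = some m) :
    avail Θ M m = true := by
  have h1 := List.mem_of_mem_head? (Option.mem_def.2 h)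
  rw [List.mem_filterMap] at h1
  obtain ⟨k, _, h2⟩ := h1
  exact (candk_spec h2).2

theorem candm_min {s : ℕ} {M : List Move} {m : Move} (h : avail Θ M m = true)
    (h1 : encode m < s) (h2 : m.1.length < s) :
    ∃ m', candm Θ s M = some m' ∧ m'.1.length ≤ m.1.length := by
  obtain ⟨q, _, b, hb, hb'⟩ := head_filterMap_range (fun q => (decode q : Option Move).bind
    fun m' => bif decide (m'.1.length = m.1.length) && avail Θ M m' then some m' else none) s h1
    (a := m) (by simp [encodek, h])
  have h3 : candk Θ s M m.1.length = some b := hb'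
  obtain ⟨k, hk, c, hc, hc'⟩ := head_filterMap_range (fun k => candk Θ s M k) s h2 h3
  refine ⟨c, hc', ?_⟩
  rw [(candk_spec hc).1]
  exact hk

theorem sts_succ (s : ℕ) : sts Θ (s + 1) = stp Θ s (sts Θ s) := rfl

theorem sts_none {s : ℕ} (h : candm Θ s (sts Θ s) = none) : sts Θ (s + 1) = sts Θ s := by
  rw [sts_succ, stp, h]
  rfl

theorem sts_some {s : ℕ} {m : Move} (h : candm Θ s (sts Θ s) = some m) :
    sts Θ (s + 1) = sts Θ s ++ [m] := by
  rw [sts_succ, stp, h]
  rfl

theorem sts_valid (s : ℕ) : ∀ m ∈ sts Θ s, Valid m := by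
  induction s with
  | zero => intro m hm; exact absurd hm (by simp [sts])
  | succ s ih =>
    cases h : candm Θ s (sts Θ s) with
    | none => rw [sts_none h]; exact ih
    | some m' =>
      rw [sts_some h]
      intro m hm
      rcases List.mem_append.1 hm with h1 | h1
      · exact ih m h1
      · rw [List.mem_singleton.1 h1]
        exact (avail_iff.1 (candm_spec h)).1

theorem embs_none {s : ℕ} (h : candm Θ s (sts Θ s) = none) (ρ : List Bool) :
    embs Θ (s + 1) ρ = embs Θ s ρ := by
  unfold embs
  rw [sts_none h]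

theorem embs_some {s : ℕ} {m : Move} (h : candm Θ s (sts Θ s) = some m) (ρ : List Bool) :
    embs Θ (s + 1) ρ = embs Θ s (mv m ρ) := by
  unfold embs
  rw [sts_some h, emb_snoc]

theorem embs_mono (s : ℕ) {ρ ρ' : List Bool} (h : ρ <+: ρ') : embs Θ s ρ <+: embs Θ s ρ' :=
  emb_mono (sts_valid s) h

theorem embs_len (s : ℕ) (ρ : List Bool) : ρ.length ≤ (embs Θ s ρ).length :=
  emb_len (sts_valid s) ρ

theorem embs_comp (s : ℕ) {α β : List Bool} (h : Comp (embs Θ s α) (embs Θ s β)) : Comp α β :=
  emb_comp (sts_valid s) h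

/-- Later embeddings factor through earlier ones. -/
theorem embs_factor {s t : ℕ} (h : s ≤ t) (ρ : List Bool) :
    ∃ ρ' : List Bool, ρ.length ≤ ρ'.length ∧ embs Θ t ρ = embs Θ s ρ' := by
  induction t, h using Nat.le_induction generalizing ρ with
  | base => exact ⟨ρ, le_rfl, rfl⟩
  | succ t _ ih =>
    cases hc : candm Θ t (sts Θ t) with
    | none =>
      rw [embs_none hc]
      exact ih ρ
    | some m =>
      rw [embs_some hc]
      obtain ⟨ρ', h1, h2⟩ := ih (mv m ρ)
      exact ⟨ρ', le_trans (mv_len (avail_iff.1 (candm_spec hc)).1 ρ) h1, h2⟩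

/-- From stage `s₀` on, moves are made only at nodes of length at least `k`. -/
def Quiet (Θ : ℕ → List Bool → List Bool → Bool) (k s₀ : ℕ) : Prop :=
  ∀ s, s₀ ≤ s → ∀ m, candm Θ s (sts Θ s) = some m → k ≤ m.1.length

theorem Quiet.const {k s₀ : ℕ} (h : Quiet Θ k s₀) {s : ℕ} (hs : s₀ ≤ s) {ρ : List Bool}
    (hρ : ρ.length ≤ k) : embs Θ s ρ = embs Θ s₀ ρ := by
  induction s, hs using Nat.le_induction with
  | base => rfl
  | succ s hs ih =>
    rw [← ih]
    cases hc : candm Θ s (sts Θ s) with
    | none => exact embs_none hc ρ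
    | some m => rw [embs_some hc, mv_short (le_trans hρ (h s hs m hc))]

variable (hΘm : ∀ j α β α' β', α <+: α' → β <+: β' → Θ j α β = true → Θ j α' β' = true)

include hΘm

theorem exists_quiet (k : ℕ) : ∃ s₀, Quiet Θ k s₀ := by
  classical
  induction k with
  | zero => exact ⟨0, fun _ _ _ _ => Nat.zero_le _⟩
  | succ k ih =>
    obtain ⟨s₀, hs₀⟩ := ih
    let F : ℕ → Finset (List Bool × ℕ) := fun s =>
      ((strs k).toFinset ×ˢ Finset.range (k + 1)).filter fun p =>
        Θ p.2 (embs Θ s (p.1 ++ [false])) (embs Θ s (p.1 ++ [true])) = true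
    have hup : ∀ s, s₀ ≤ s → ∀ m, candm Θ s (sts Θ s) = some m → ∀ π : List Bool,
        π.length = k → ∀ i : Bool, embs Θ s (π ++ [i]) <+: embs Θ (s + 1) (π ++ [i]) := by
      intro s hs m hc π hπ i
      rw [embs_some hc]
      refine embs_mono s (mv_ge (avail_iff.1 (candm_spec hc)).1 ?_)
      rw [List.length_append, List.length_singleton, hπ]
      exact Nat.succ_le_succ (hs₀ s hs m hc)
    have hF : ∀ s, s₀ ≤ s → F s ⊆ F (s + 1) := by
      intro s hs p hp
      rw [Finset.mem_filter, Finset.mem_product] at hp ⊢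
      refine ⟨hp.1, ?_⟩
      have hlen : p.1.length = k := mem_strs.1 (List.mem_toFinset.1 hp.1.1)
      cases hc : candm Θ s (sts Θ s) with
      | none => rw [embs_none hc, embs_none hc]; exact hp.2
      | some m =>
        exact hΘm _ _ _ _ _ (hup s hs m hc p.1 hlen false) (hup s hs m hc p.1 hlen true) hp.2
    have hFF : ∀ s t, s₀ ≤ s → s ≤ t → F s ⊆ F t := by
      intro s t hs hst
      induction t, hst using Nat.le_induction with
      | base => exact Finset.Subset.refl _
      | succ t hst ih => exact ih.trans (hF t (le_trans hs hst))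
    have hstrict : ∀ s, s₀ ≤ s → ∀ m, candm Θ s (sts Θ s) = some m → m.1.length = k →
        (F s).card < (F (s + 1)).card := by
      intro s hs m hc hm
      refine Finset.card_lt_card (Finset.ssubset_iff_of_subset (hF s hs) |>.2 ?_)
      obtain ⟨_, j, hj, h1, h2⟩ := avail_iff.1 (candm_spec hc)
      refine ⟨(m.1, j), ?_, ?_⟩
      · rw [Finset.mem_filter, Finset.mem_product]
        refine ⟨⟨List.mem_toFinset.2 (mem_strs.2 hm), Finset.mem_range.2 (by omega)⟩, ?_⟩
        show Θ j (embs Θ (s + 1) (m.1 ++ [false])) (embs Θ (s + 1) (m.1 ++ [true])) = true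
        rw [embs_some hc, embs_some hc, mv_root, mv_root]
        exact h2
      · rw [Finset.mem_filter]
        rintro ⟨_, h3⟩
        have h4 : Θ j (embs Θ s (m.1 ++ [false])) (embs Θ s (m.1 ++ [true])) = true := h3
        have h5 : Θ j (embs Θ s (m.1 ++ [false])) (embs Θ s (m.1 ++ [true])) = false := h1
        rw [h4] at h5
        exact absurd h5 (by simp)
    by_contra hcon
    push Not at hcon
    have hex : ∀ s₁, s₀ ≤ s₁ → ∃ s, s₁ ≤ s ∧ ∃ m, candm Θ s (sts Θ s) = some m ∧
        m.1.length = k := by
      intro s₁ hs₁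
      have h1 := hcon s₁
      unfold Quiet at h1
      push Not at h1
      obtain ⟨s, hs, m, hm, hlt⟩ := h1
      refine ⟨s, hs, m, hm, ?_⟩
      have := hs₀ s (le_trans hs₁ hs) m hm
      omega
    have hbig : ∀ n, ∃ s, s₀ ≤ s ∧ n ≤ (F s).card := by
      intro n
      induction n with
      | zero => exact ⟨s₀, le_rfl, Nat.zero_le _⟩
      | succ n ih =>
        obtain ⟨s, hs, hn⟩ := ih
        obtain ⟨t, ht, m, hm, hmk⟩ := hex s hs
        refine ⟨t + 1, by omega, ?_⟩
        have h1 := hstrict t (le_trans hs ht) m hm hmk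
        have h2 := Finset.card_le_card (hFF s t hs ht)
        omega
    obtain ⟨s, _, hs⟩ := hbig (((strs k).toFinset ×ˢ Finset.range (k + 1)).card + 1)
    have h3 : (F s).card ≤ ((strs k).toFinset ×ˢ Finset.range (k + 1)).card :=
      Finset.card_le_card (Finset.filter_subset _ _)
    omega

end Constr

end Pool.Agent.H59.Hif
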