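import Pool.Agent.H59.Hif.Inj

/-!
# The limit embedding and its class
-/

set_option autoImplicit false

namespace Pool.Agent.H59.Hif

open Pool.Agent.H77.Thin Encodable
open Nat.Partrec (Code)

/-! ### Computability of the construction -/

section Prim

variable {Θ : ℕ → List Bool → List Bool → Bool}
  (hΘ : Primrec fun a : ℕ × List Bool × List Bool => Θ a.1 a.2.1 a.2.2)

include hΘ

theorem prim_avail : Primrec₂ (avail Θ) := by
  have hsn : ∀ b : Bool, Primrec fun a : List Move × Move => a.2.1 ++ [b] := fun b =>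
    Primrec.list_concat.comp (Primrec.fst.comp Primrec.snd) (Primrec.const b)
  have hl : Primrec fun a : List Move × Move => a.2.2.1 :=
    Primrec.fst.comp (Primrec.snd.comp Primrec.snd)
  have hr : Primrec fun a : List Move × Move => a.2.2.2 :=
    Primrec.snd.comp (Primrec.snd.comp Primrec.snd)
  refine Primrec.and.comp (Primrec.and.comp (prim_pre.comp (hsn false) hl)
    (prim_pre.comp (hsn true) hr)) (prim_any (Primrec.list_range.comp (Primrec.succ.comp
      (Primrec.list_length.comp (Primrec.fst.comp Primrec.snd)))) ?_)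
  have hM : Primrec fun b : (List Move × Move) × ℕ => b.1.1 := Primrec.fst.comp Primrec.fst
  refine Primrec.and.comp (Primrec.not.comp (hΘ.comp (Primrec.pair Primrec.snd
    (Primrec.pair (prim_emb.comp hM ((hsn false).comp Primrec.fst))
      (prim_emb.comp hM ((hsn true).comp Primrec.fst)))))) (hΘ.comp (Primrec.pair Primrec.snd
    (Primrec.pair (prim_emb.comp hM (hl.comp Primrec.fst))
      (prim_emb.comp hM (hr.comp Primrec.fst)))))

theorem prim_candk : Primrec fun a : ℕ × List Move × ℕ => candk Θ a.1 a.2.1 a.2.2 := by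
  refine Primrec.list_head?.comp (Primrec.listFilterMap
    (Primrec.list_range.comp Primrec.fst) ?_)
  refine Primrec.option_bind (Primrec.decode.comp Primrec.snd) ?_
  refine Primrec.cond (Primrec.and.comp (prim_beq (Primrec.list_length.comp
    (Primrec.fst.comp Primrec.snd)) (Primrec.snd.comp (Primrec.snd.comp
      (Primrec.fst.comp Primrec.fst)))) ((prim_avail hΘ).comp
        (Primrec.fst.comp (Primrec.snd.comp (Primrec.fst.comp Primrec.fst))) Primrec.snd))
    (Primrec.option_some.comp Primrec.snd) (Primrec.const none)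

theorem prim_candm : Primrec₂ (candm Θ) := by
  refine Primrec.list_head?.comp (Primrec.listFilterMap
    (Primrec.list_range.comp Primrec.fst) ?_)
  exact (prim_candk hΘ).comp (Primrec.pair (Primrec.fst.comp Primrec.fst)
    (Primrec.pair (Primrec.snd.comp Primrec.fst) Primrec.snd))

theorem prim_stp : Primrec₂ (stp Θ) := by
  refine Primrec.option_getD.comp (Primrec.option_map (prim_candm hΘ) ?_) Primrec.snd
  exact Primrec.list_concat.comp (Primrec.snd.comp Primrec.fst) Primrec.snd

theorem prim_sts : Primrec (sts Θ) := by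
  have h1 : Primrec₂ fun (_ : ℕ) (b : ℕ × List Move) => stp Θ b.1 b.2 :=
    (prim_stp hΘ).comp (Primrec.fst.comp Primrec.snd) (Primrec.snd.comp Primrec.snd)
  exact Primrec.nat_rec' Primrec.id (Primrec.const []) h1

theorem prim_embs : Primrec₂ (embs Θ) :=
  prim_emb.comp ((prim_sts hΘ).comp Primrec.fst) Primrec.snd

end Prim

section Lim

variable (Θ : ℕ → List Bool → List Bool → Bool)

/-- The condition on a string: it is comparable with a node of each of the first stages. -/
def tp (σ : List Bool) : Bool :=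
  (List.range (σ.length + 1)).all fun s => (strs s).any fun ρ => cmp (embs Θ s ρ) σ

variable {Θ}

theorem prim_tp (hΘ : Primrec fun a : ℕ × List Bool × List Bool => Θ a.1 a.2.1 a.2.2) :
    Primrec (tp Θ) := by
  refine prim_all (Primrec.list_range.comp (Primrec.succ.comp Primrec.list_length)) ?_
  refine prim_any (prim_strs.comp Primrec.snd) ?_
  exact prim_cmp.comp ((prim_embs hΘ).comp (Primrec.snd.comp Primrec.fst) Primrec.snd)
    (Primrec.fst.comp Primrec.fst)

theorem exists_max_len (s : ℕ) : ∃ N, ∀ ρ : List Bool, ρ.length = s →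
    (embs Θ s ρ).length ≤ N := by
  refine ⟨((strs s).map fun ρ => (embs Θ s ρ).length).sum, fun ρ hρ => ?_⟩
  exact List.single_le_sum (by simp) _ (List.mem_map_of_mem (mem_strs.2 hρ))

theorem mem_class {z : ℕ → Bool} : z ∈ paths (down (tp Θ)) ↔
    ∀ s, ∃ ρ : List Bool, ρ.length = s ∧ Ini (embs Θ s ρ) z := by
  rw [paths_down]
  simp only [Set.mem_ofPred_eq, tp, List.all_eq_true, List.mem_range, List.any_eq_true,
    mem_strs, seg_length, cmp_iff]
  constructor
  · intro h s
    obtain ⟨N, hN⟩ := exists_max_len (Θ := Θ) s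
    obtain ⟨ρ, hρ, hc⟩ := h (max s N) s (by have := le_max_left s N; omega)
    refine ⟨ρ, hρ, ?_⟩
    rcases hc with hc | hc
    · exact ini_of_prefix hc
    · have h1 := hN ρ hρ
      have h2 : seg z (max s N) = embs Θ s ρ := hc.eq_of_length (by
        rw [seg_length]
        have h3 := hc.length_le
        rw [seg_length] at h3
        have := le_max_right s N
        omega)
      rw [← h2]
      exact ini_seg z _
  · intro h n s _
    obtain ⟨ρ, hρ, hi⟩ := h s
    exact ⟨ρ, hρ, ini_comparable hi (ini_seg z n)⟩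

variable (hΘm : ∀ j α β α' β', α <+: α' → β <+: β' → Θ j α β = true → Θ j α' β' = true)

/-- A stage from which on the nodes of length at most `k` do not move. -/
noncomputable def quiet
    (hΘm : ∀ j α β α' β', α <+: α' → β <+: β' → Θ j α β = true → Θ j α' β' = true)
    (k : ℕ) : ℕ := (exists_quiet hΘm k).choose

theorem quiet_spec (k : ℕ) : Quiet Θ k (quiet hΘm k) := (exists_quiet hΘm k).choose_spec

/-- The limit embedding. -/
noncomputable def lim
    (hΘm : ∀ j α β α' β', α <+: α' → β <+: β' → Θ j α β = true → Θ j α' β' = true)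
    (ρ : List Bool) : List Bool := embs Θ (quiet hΘm ρ.length) ρ

theorem lim_eq {s : ℕ} {ρ : List Bool} (h : quiet hΘm ρ.length ≤ s) :
    embs Θ s ρ = lim hΘm ρ := (quiet_spec hΘm ρ.length).const h le_rfl

theorem lim_mono {ρ ρ' : List Bool} (h : ρ <+: ρ') : lim hΘm ρ <+: lim hΘm ρ' := by
  rw [← lim_eq hΘm (le_max_left (quiet hΘm ρ.length) (quiet hΘm ρ'.length)),
    ← lim_eq hΘm (le_max_right (quiet hΘm ρ.length) (quiet hΘm ρ'.length))]
  exact embs_mono _ h

theorem lim_len (ρ : List Bool) : ρ.length ≤ (lim hΘm ρ).length := embs_len _ ρ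

theorem lim_comp {α β : List Bool} (h : Comp (lim hΘm α) (lim hΘm β)) : Comp α β := by
  rw [← lim_eq hΘm (le_max_left (quiet hΘm α.length) (quiet hΘm β.length)),
    ← lim_eq hΘm (le_max_right (quiet hΘm α.length) (quiet hΘm β.length))] at h
  exact embs_comp _ h

/-- The limit embedding decides each requirement at each long enough node. -/
theorem lim_main (π : List Bool) {j : ℕ} (hj : j ≤ π.length) :
    Θ j (lim hΘm (π ++ [false])) (lim hΘm (π ++ [true])) = true ∨
      ∀ τ₀ τ₁, π ++ [false] <+: τ₀ → π ++ [true] <+: τ₁ →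
        Θ j (lim hΘm τ₀) (lim hΘm τ₁) = false := by
  by_contra hcon
  push Not at hcon
  obtain ⟨h0, τ₀, τ₁, h1, h2, h3⟩ := hcon
  obtain ⟨s, hs⟩ : ∃ s, quiet hΘm (π.length + 1) ≤ s ∧ quiet hΘm τ₀.length ≤ s ∧
      quiet hΘm τ₁.length ≤ s ∧ encode ((π, τ₀, τ₁) : Move) < s ∧ π.length < s := by
    refine ⟨quiet hΘm (π.length + 1) + quiet hΘm τ₀.length + quiet hΘm τ₁.length +
      encode ((π, τ₀, τ₁) : Move) + π.length + 1, ?_, ?_, ?_, ?_, ?_⟩ <;> omega
  have hav : avail Θ (sts Θ s) (π, τ₀, τ₁) = true := by
    refine avail_iff.2 ⟨fun i => ?_, j, hj, ?_, ?_⟩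
    · cases i
      · exact h1
      · exact h2
    · show Θ j (embs Θ s (π ++ [false])) (embs Θ s (π ++ [true])) = false
      rw [lim_eq hΘm (by simpa using hs.1), lim_eq hΘm (by simpa using hs.1)]
      simpa using h0
    · show Θ j (embs Θ s τ₀) (embs Θ s τ₁) = true
      rw [lim_eq hΘm hs.2.1, lim_eq hΘm hs.2.2.1]
      simpa using h3
  obtain ⟨m, hm, hlen⟩ := candm_min hav hs.2.2.2.1 hs.2.2.2.2
  have h4 := quiet_spec hΘm (π.length + 1) s hs.1 m hm
  simp only at hlen
  omega

theorem mem_class' {z : ℕ → Bool} : z ∈ paths (down (tp Θ)) ↔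
    ∀ k, ∃ ρ : List Bool, ρ.length = k ∧ Ini (lim hΘm ρ) z := by
  rw [mem_class]
  constructor
  · intro h k
    obtain ⟨ρ, hρ, hi⟩ := h (max (quiet hΘm k) k)
    have h1 : (ρ.take k).length = k := by
      rw [List.length_take, hρ]
      have := le_max_right (quiet hΘm k) k
      omega
    refine ⟨ρ.take k, h1, ?_⟩
    rw [← lim_eq hΘm (s := max (quiet hΘm k) k) (by rw [h1]; exact le_max_left _ _)]
    exact ini_mono (embs_mono _ (List.take_prefix _ _)) hi
  · intro h s
    obtain ⟨ρ, hρ, hi⟩ := h s
    rw [← lim_eq hΘm (le_max_left (quiet hΘm ρ.length) s)] at hi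
    obtain ⟨ρ', h1, h2⟩ := embs_factor (Θ := Θ) (le_max_right (quiet hΘm ρ.length) s) ρ
    rw [h2] at hi
    refine ⟨ρ'.take s, by rw [List.length_take]; omega, ?_⟩
    exact ini_mono (embs_mono _ (List.take_prefix _ _)) hi

/-- Each node has a member of the class above it. -/
theorem exists_member (ρ : List Bool) : ∃ z ∈ paths (down (tp Θ)), Ini (lim hΘm ρ) z := by
  let a : ℕ → List Bool := fun k => ρ ++ List.replicate k false
  have ha : ∀ {i j}, i ≤ j → a i <+: a j := by
    intro i j hij
    obtain ⟨d, rfl⟩ := Nat.exists_eq_add_of_le hij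
    refine ⟨List.replicate d false, ?_⟩
    simp only [a, List.append_assoc, List.replicate_append_replicate]
  let s : ℕ → List Bool := fun k => lim hΘm (a k)
  have hmono : ∀ {i j}, i ≤ j → s i <+: s j := fun h => lim_mono hΘm (ha h)
  have hlen : ∀ k, k ≤ (s k).length := by
    intro k
    have h1 := lim_len hΘm (a k)
    have h2 : k ≤ (a k).length := by simp [a]
    exact le_trans h2 h1
  let x : ℕ → Bool := fun i => ((s (i + 1))[i]?).getD false
  have hini : ∀ k, Ini (s k) x := by
    intro k
    rw [ini_iff_getElem]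
    intro n b hb
    have h1 := hlen (n + 1)
    have h2 : (s (n + 1))[n]? = some b := by
      rcases le_total k (n + 1) with h | h
      · obtain ⟨t, ht⟩ := hmono h
        rw [← ht]
        have hn : n < (s k).length := by
          by_contra hn
          rw [List.getElem?_eq_none (not_lt.1 hn)] at hb
          exact absurd hb (by simp)
        rw [List.getElem?_append_left hn]
        exact hb
      · obtain ⟨t, ht⟩ := hmono h
        rw [← ht, List.getElem?_append_left (by omega)] at hb
        exact hb
    simp only [x, h2, Option.getD_some]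
  refine ⟨x, (mem_class' hΘm).2 fun k => ?_, ?_⟩
  · refine ⟨(a k).take k, by simp [a], ?_⟩
    exact ini_mono (lim_mono hΘm (List.take_prefix _ _)) (hini k)
  · have h1 := hini 0
    simp only [s, a, List.replicate_zero, List.append_nil] at h1
    exact h1

/-- The nodes below a member are compatible. -/
theorem node_unique {z : ℕ → Bool} {α β : List Bool} (h1 : Ini (lim hΘm α) z)
    (h2 : Ini (lim hΘm β) z) : Comp α β := lim_comp hΘm (ini_comparable h1 h2)

end Lim

end Pool.Agent.H59.Hif
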