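import Pool.Agent.H59.Hif.Minimal

/-!
# Uncountably many members of minimal degree
-/

set_option autoImplicit false

namespace Pool.Agent.H59.Hif

open Pool.Agent.H77.Thin Encodable
open Nat.Partrec (Code)

theorem nonempty_TT : (paths TT).Nonempty := by
  obtain ⟨z, hz, _⟩ := LL_member []
  exact ⟨z, hz⟩

theorem minimal_residual : ∀ᶠ y : paths TT in residual (paths TT), MinimalDegree y.1 :=
  Filter.mem_of_superset (hif_residual thin_TT) fun y hy => minimal_TT y.2 hy

/-- No member of the class is isolated. -/
theorem interior_singleton (y : paths TT) : interior ({y} : Set (paths TT)) = ∅ := by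
  by_contra hne
  obtain ⟨w, hw⟩ := Set.nonempty_iff_ne_empty.2 hne
  have hwy : w = y := Set.mem_singleton_iff.1 (interior_subset hw)
  obtain ⟨σ, hσ, hσC⟩ := exists_nbhd_of_interior hw
  obtain ⟨ρ, h1, h2⟩ := mem_TT.1 w.2 σ.length
  have h3 : σ <+: LL ρ := by
    have h4 := hσ.pre (n := (LL ρ).length) (by have := LL_len ρ; omega)
    rwa [show seg w.1 (LL ρ).length = LL ρ from h2] at h4
  have h5 : ∀ i : Bool, Ini (LL (ρ ++ [i])) y.1 := by
    intro i
    obtain ⟨z, hz, hi⟩ := LL_member (ρ ++ [i])
    have h6 : (⟨z, hz⟩ : paths TT) = y :=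
      hσC ⟨z, hz⟩ (ini_mono (h3.trans (LL_mono (List.prefix_append _ _))) hi)
    rw [← h6]
    exact hi
  exact not_comp_snoc ρ (LL_unique (h5 false) (h5 true))

theorem not_countable_minimal : ¬ {y | y ∈ paths TT ∧ MinimalDegree y}.Countable := by
  intro hc
  have hcl : IsClosed (paths TT) := isClosed_pi01 thin_TT.1
  have : CompactSpace (paths TT) := isCompact_iff_compactSpace.1 hcl.isCompact
  have : Nonempty (paths TT) := nonempty_TT.to_subtype
  have hM : {y : paths TT | MinimalDegree y.1}.Countable := by
    have h1 := hc.preimage (f := (Subtype.val : paths TT → ℕ → Bool)) Subtype.val_injective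
    refine h1.mono fun y hy => ?_
    exact ⟨y.2, hy⟩
  have h2 : (⋂ y ∈ {y : paths TT | MinimalDegree y.1}, ({y} : Set (paths TT))ᶜ) ∈
      residual (paths TT) := by
    rw [countable_bInter_mem hM]
    intro y _
    refine residual_of_dense_open isClosed_singleton.isOpen_compl ?_
    rw [← interior_eq_empty_iff_dense_compl]
    exact interior_singleton y
  have h3 : (∅ : Set (paths TT)) ∈ residual (paths TT) := by
    refine Filter.mem_of_superset (Filter.inter_mem minimal_residual h2) ?_
    rintro y ⟨hy1, hy2⟩
    have h4 := Set.mem_iInter₂.1 hy2 y hy1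
    exact h4 (Set.mem_singleton y)
  have h4 := dense_of_mem_residual h3
  exact Set.not_nonempty_empty h4.nonempty

end Pool.Agent.H59.Hif
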