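import Pool.Agent.H59.Hif.Cat

/-!
# Typical pairs of members of a thin class
-/

set_option autoImplicit false

namespace Pool.Agent.H59.Hif

open Pool.Agent.H77.Thin Encodable
open Nat.Partrec (Code)

variable {T : List Bool → Bool} {v v' : List Bool → ℕ → Option ℕ}

/-- A function that is the constant output of a total functional is computable. -/
theorem computable_of_const (hTp : Primrec T)
    (hT : ∀ σ τ : List Bool, σ <+: τ → T τ = true → T σ = true)
    (hv : IsFun v) (htot : Total v (paths T)) {f : ℕ → ℕ}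
    (hf : ∀ z ∈ paths T, out v z = f) {y : ℕ → Bool} (hy : y ∈ paths T) : Computable f := by
  have h1 : ∀ n, ∃ s, agree v (lev T v Code.zero s 0) n = some (f n) := by
    intro n
    by_contra hs
    push Not at hs
    obtain ⟨z', hz', hq⟩ := exists_cls_path hT hv (c := Code.zero) (i := 0)
      (fun ρ => v ρ n ≠ some (f n)) (by
        intro σ τ hστ hτ h2
        exact hτ (hv.mono hστ h2)) (by
        intro s
        by_contra h2
        push Not at h2
        refine hs s (agree_of (List.ne_nil_of_mem (a := seg y s) ?_) h2)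
        rw [mem_lev_zero]
        exact ⟨seg_length y s, hy s⟩)
    rw [cls_zero] at hz'
    obtain ⟨l, hl⟩ := htot.get hv hz' n
    refine hq l ?_
    rw [hl l le_rfl, hf z' hz']
  have h2 : Partrec fun n => Nat.rfindOpt fun s => agree v (lev T v Code.zero s 0) n := by
    refine Partrec.rfindOpt (f := fun n s => agree v (lev T v Code.zero s 0) n)
      (Primrec.to_comp ?_)
    refine (prim_agree hv.prim).comp ((prim_lev hTp hv.prim).comp
      (Primrec.pair (Primrec.const Code.zero) (Primrec.pair Primrec.snd (Primrec.const 0))))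
      Primrec.fst
  refine h2.of_eq_tot fun n => ?_
  obtain ⟨s, hs⟩ := h1 n
  have hdom : (Nat.rfindOpt fun s => agree v (lev T v Code.zero s 0) n).Dom :=
    Nat.rfindOpt_dom.2 ⟨s, _, Option.mem_def.2 hs⟩
  obtain ⟨w, hw⟩ := Part.dom_iff_mem.1 hdom
  obtain ⟨s', hs'⟩ := Nat.rfindOpt_spec hw
  have h3 := of_agree (Option.mem_def.1 hs') (seg y s') (by
    rw [mem_lev_zero]
    exact ⟨seg_length y s', hy s'⟩)
  have h4 := out_eq hv h3
  rw [hf y hy] at h4
  rw [h4]
  exact hw

/-- The pairs of members at which two functionals are total and agree. -/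
def agr (P : Set (ℕ → Bool)) (v v' : List Bool → ℕ → Option ℕ) : Set (P × P) :=
  {q | (q.1 ∈ totSet v P ∧ q.2 ∈ totSet v' P) ∧ ∀ n, out v q.1.1 n = out v' q.2.1 n}

theorem isClosed_agr (hTp : Primrec T) (hthin : IsThin (paths T)) (hv : IsFun v)
    (hv' : IsFun v') : IsClosed (agr (paths T) v v') := by
  have h1 : IsClosed {q : paths T × paths T |
      q.1 ∈ totSet v (paths T) ∧ q.2 ∈ totSet v' (paths T)} :=
    ((isClosed_totSet hTp hthin hv).preimage continuous_fst).inter
      ((isClosed_totSet hTp hthin hv').preimage continuous_snd)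
  rw [← isOpen_compl_iff, isOpen_iff_forall_mem_open]
  intro q hq
  by_cases hq1 : q.1 ∈ totSet v (paths T) ∧ q.2 ∈ totSet v' (paths T)
  · have hq2 : ∃ n, out v q.1.1 n ≠ out v' q.2.1 n := by
      by_contra hcon
      push Not at hcon
      exact hq ⟨hq1, hcon⟩
    obtain ⟨n, hn⟩ := hq2
    obtain ⟨l, hl⟩ := hq1.1 n
    obtain ⟨m, hm⟩ := Option.isSome_iff_exists.1 hl
    obtain ⟨l', hl'⟩ := hq1.2 n
    obtain ⟨m', hm'⟩ := Option.isSome_iff_exists.1 hl'
    rw [out_eq hv hm, out_eq hv' hm'] at hn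
    refine ⟨{w | Ini (seg q.1.1 l) w.1.1 ∧ Ini (seg q.2.1 l') w.2.1}, ?_, ?_, ?_⟩
    · rintro w ⟨hw1, hw2⟩ hw
      have h3 := hw.2 n
      rw [out_ini hv hw1 hm, out_ini hv' hw2 hm'] at h3
      exact hn h3
    · exact ((isOpen_ini _).preimage (continuous_subtype_val.comp continuous_fst)).inter
        ((isOpen_ini _).preimage (continuous_subtype_val.comp continuous_snd))
    · exact ⟨ini_seg _ _, ini_seg _ _⟩
  · exact ⟨{q : paths T × paths T | q.1 ∈ totSet v (paths T) ∧ q.2 ∈ totSet v' (paths T)}ᶜ,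
      fun w hw hw' => hw hw'.1, h1.isOpen_compl, hq1⟩

theorem exists_nbhd_pair {P : Set (ℕ → Bool)} {C : Set (P × P)} {q : P × P}
    (h : q ∈ interior C) : ∃ σ τ, Ini σ q.1.1 ∧ Ini τ q.2.1 ∧
      ∀ w : P × P, Ini σ w.1.1 → Ini τ w.2.1 → w ∈ C := by
  obtain ⟨A, B, hA, hB, hqA, hqB, hAB⟩ := isOpen_prod_iff.1 isOpen_interior q.1 q.2 h
  have h1 : q.1 ∈ interior A := by rw [hA.interior_eq]; exact hqA
  have h2 : q.2 ∈ interior B := by rw [hB.interior_eq]; exact hqB
  obtain ⟨σ, hσ, hσA⟩ := exists_nbhd_of_interior h1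
  obtain ⟨τ, hτ, hτB⟩ := exists_nbhd_of_interior h2
  refine ⟨σ, τ, hσ, hτ, fun w hw1 hw2 => interior_subset (hAB ?_)⟩
  exact ⟨hσA w.1 hw1, hτB w.2 hw2⟩

theorem pairs_residual {P : Set (ℕ → Bool)} (hP : IsThin P) :
    ∀ᶠ q : P × P in residual (P × P), ∀ x : ℕ → Bool,
      TuringReducible (chr x) (chr q.1.1) → TuringReducible (chr x) (chr q.2.1) →
        Computable x := by
  obtain ⟨c, rfl⟩ := exists_tree hP.1
  have hTp := prim_tree c
  have hT := tree_closed c
  have h1 : (⋂ d : Code × Code, {q : paths (tree c) × paths (tree c) |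
      IsFun (val d.1) → IsFun (val d.2) → q ∉ frontier (agr (paths (tree c)) (val d.1) (val d.2))})
      ∈ residual (paths (tree c) × paths (tree c)) := by
    rw [countable_iInter_mem]
    intro d
    by_cases hd : IsFun (val d.1) ∧ IsFun (val d.2)
    · refine Filter.mem_of_superset (frontier_compl_residual
        (isClosed_agr hTp hP hd.1 hd.2)) ?_
      intro z hz _ _
      exact hz
    · exact Filter.mem_of_superset Filter.univ_mem fun z _ h h' => absurd ⟨h, h'⟩ hd
  refine Filter.mem_of_superset h1 fun q hq x hx1 hx2 => ?_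
  obtain ⟨d1, hv, hv1⟩ := exists_val (f := fun n => (x n).toNat) hx1
  obtain ⟨d2, hu, hu1⟩ := exists_val (f := fun n => (x n).toNat) hx2
  have h2 := Set.mem_iInter.1 hq (d1, d2) hv hu
  have h3 : q ∈ agr (paths (tree c)) (val d1) (val d2) := by
    refine ⟨⟨fun n => ?_, fun n => ?_⟩, fun n => ?_⟩
    · obtain ⟨l, hl⟩ := hv1 n
      exact ⟨l, by rw [hl]; rfl⟩
    · obtain ⟨l, hl⟩ := hu1 n
      exact ⟨l, by rw [hl]; rfl⟩
    · rw [computes_out hv hv1, computes_out hu hu1]
  have h4 : q ∈ interior (agr (paths (tree c)) (val d1) (val d2)) := by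
    rw [(isClosed_agr hTp hP hv hu).frontier_eq] at h2
    by_contra hcon
    exact h2 ⟨h3, hcon⟩
  obtain ⟨σ, τ, hσ, hτ, hC⟩ := exists_nbhd_pair h4
  have htot : Total (val d1) (paths (cone (tree c) σ)) := by
    intro z hz
    rw [paths_cone] at hz
    exact (hC (⟨z, hz.1⟩, q.2) hz.2 hτ).1.1
  have hconst : ∀ z ∈ paths (cone (tree c) σ), out (val d1) z = fun n => (x n).toNat := by
    intro z hz
    rw [paths_cone] at hz
    funext n
    have h5 := (hC (⟨z, hz.1⟩, q.2) hz.2 hτ).2 n
    simp only at h5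
    rw [h5, computes_out hu hu1]
  have h6 : Computable fun n => (x n).toNat :=
    computable_of_const (prim_cone hTp σ) (cone_closed hT σ) hv htot hconst
      (y := q.1.1) (by rw [paths_cone]; exact ⟨q.1.2, hσ⟩)
  have h7 : Primrec fun m : ℕ => !decide (m = 0) :=
    Primrec.not.comp (prim_beq Primrec.id (Primrec.const 0))
  refine (h7.to_comp.comp h6).of_eq fun n => ?_
  cases x n <;> rfl

end Pool.Agent.H59.Hif
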