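import Pool.Agent.H59.Hif.Theta
import Pool.Agent.H59.Hif.Pairs
import Pool.Agent.H59.Hif.DefsMin

/-!
# A thin class whose hyperimmune-free members have minimal degree
-/

set_option autoImplicit false

namespace Pool.Agent.H59.Hif

open Pool.Agent.H77.Thin Encodable
open Nat.Partrec (Code)

theorem node_of {z : ℕ → Bool} (hz : z ∈ paths TT) {ν : List Bool} (hν : Ini (LL ν) z) {k : ℕ}
    (hk : ν.length ≤ k) : ∃ ρ : List Bool, ρ.length = k ∧ ν <+: ρ ∧ Ini (LL ρ) z := by
  obtain ⟨ρ, h1, h2⟩ := mem_TT.1 hz k
  exact ⟨ρ, h1, LL_prefix hν h2 (by omega), h2⟩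

theorem child_of {z : ℕ → Bool} (hz : z ∈ paths TT) {ν : List Bool} (hν : Ini (LL ν) z) :
    ∃ i : Bool, Ini (LL (ν ++ [i])) z := by
  obtain ⟨ρ, h1, ⟨t, ht⟩, h2⟩ := node_of hz hν (k := ν.length + 1) (Nat.le_succ _)
  have h3 : t.length = 1 := by
    have := congrArg List.length ht
    rw [List.length_append] at this
    omega
  obtain ⟨i, hi⟩ := List.length_eq_one_iff.1 h3
  refine ⟨i, ?_⟩
  rw [← hi, ht]
  exact h2

/-- Above a long enough node the class is inside or outside a given `Π⁰₁` class. -/
theorem decide_tree (e : Code) {ν : List Bool}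
    (h0 : Nat.pair 0 (encode e) < ν.length) (h1 : Nat.pair 1 (encode e) < ν.length) :
    tree e (LL ν) = false ∨ ∀ z ∈ paths TT, Ini (LL ν) z → z ∈ paths (tree e) := by
  have hne : ν ≠ [] := by
    rintro rfl
    simp at h0
  obtain ⟨π, i, rfl⟩ := List.eq_nil_or_concat ν |>.resolve_left hne
  rw [List.concat_eq_append] at h0 h1 ⊢
  rw [List.length_append, List.length_singleton] at h0 h1
  have key : tree e (LL (π ++ [i])) = false ∨ ∀ τ, π ++ [i] <+: τ → tree e (LL τ) = true := by
    cases i
    · rcases LL_main π (j := Nat.pair 0 (encode e)) (by omega) with h | h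
      · rw [Theta_zero, Bool.not_eq_true'] at h
        exact Or.inl h
      · right
        intro τ hτ
        have := h τ (π ++ [true]) hτ (List.prefix_refl _)
        rwa [Theta_zero, Bool.not_eq_false'] at this
    · rcases LL_main π (j := Nat.pair 1 (encode e)) (by omega) with h | h
      · rw [Theta_one, Bool.not_eq_true'] at h
        exact Or.inl h
      · right
        intro τ hτ
        have := h (π ++ [false]) τ (List.prefix_refl _) hτ
        rwa [Theta_one, Bool.not_eq_false'] at this
  refine key.imp id fun h z hz hν n => ?_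
  obtain ⟨ρ, h2, h3, h4⟩ := node_of hz hν (k := max n (π ++ [i]).length) (le_max_right _ _)
  refine tree_closed e _ (LL ρ) ?_ (h ρ h3)
  have h5 := LL_len ρ
  have h6 := seg_prefix z (show n ≤ (LL ρ).length by
    have := le_max_left n (π ++ [i]).length
    omega)
  rwa [show seg z (LL ρ).length = LL ρ from h4] at h6

theorem isClopen_nodes (K : ℕ) (q : List Bool → Bool) :
    IsClopen {z : ℕ → Bool | ∃ ν : List Bool, ν.length = K ∧ q ν = true ∧ Ini (LL ν) z} := by
  classical
  have h1 : {z : ℕ → Bool | ∃ ν : List Bool, ν.length = K ∧ q ν = true ∧ Ini (LL ν) z} =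
      ⋃ ν ∈ (strs K).toFinset.filter (fun ν => q ν = true), {z | Ini (LL ν) z} := by
    ext z
    simp only [Set.mem_ofPred_eq, Set.mem_iUnion, Finset.mem_filter, List.mem_toFinset,
      mem_strs, exists_prop, and_assoc]
  rw [h1]
  refine ⟨isClosed_biUnion_finset fun ν _ => isClosed_ini _, ?_⟩
  exact isOpen_biUnion fun ν _ => isOpen_ini _

theorem thin_TT : IsThin (paths TT) := by
  refine ⟨isPi01_paths prim_TT TT_closed, fun Q hQ hQP => ?_⟩
  obtain ⟨e, rfl⟩ := exists_tree hQ
  set K := Nat.pair 0 (encode e) + Nat.pair 1 (encode e) + 1 with hK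
  refine ⟨_, isClopen_nodes K (fun ν => tree e (LL ν)), ?_⟩
  ext z
  simp only [Set.mem_inter_iff, Set.mem_ofPred_eq]
  constructor
  · intro hz
    have hzP : z ∈ paths TT := hQP hz
    refine ⟨hzP, ?_⟩
    obtain ⟨ν, h1, h2⟩ := mem_TT.1 hzP K
    refine ⟨ν, h1, ?_, h2⟩
    rw [← show seg z (LL ν).length = LL ν from h2]
    exact hz _
  · rintro ⟨hzP, ν, h1, h2, h3⟩
    rcases decide_tree e (ν := ν) (by omega) (by omega) with h | h
    · rw [h2] at h
      exact absurd h (by simp)
    · exact h z hzP h3

theorem noncomputable_TT {c : ℕ → Bool} (hc : c ∈ paths TT) : ¬ Computable c := by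
  intro hcomp
  obtain ⟨σ, hσ, hσc⟩ := nbhd thin_TT (isPi01_singleton hcomp)
    (Set.singleton_subset_iff.2 hc) (Set.mem_singleton _)
  obtain ⟨ρ, h1, h2⟩ := mem_TT.1 hc σ.length
  have h3 : σ <+: LL ρ := by
    have h4 := hσ.pre (n := (LL ρ).length) (by have := LL_len ρ; omega)
    rwa [show seg c (LL ρ).length = LL ρ from h2] at h4
  have h5 : ∀ i : Bool, Ini (LL (ρ ++ [i])) c := by
    intro i
    obtain ⟨z, hz, hi⟩ := LL_member (ρ ++ [i])
    have h6 : z = c := hσc z hz (ini_mono (h3.trans (LL_mono (List.prefix_append _ _))) hi)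
    rwa [h6] at hi
  exact not_comp_snoc ρ (LL_unique (h5 false) (h5 true))

/-! ### Minimality -/

/-- If the functional does not split above a node, it is constant above the node. -/
theorem const_of_nosplit {e : Code} (hv : IsFun (val e)) {π : List Bool}
    (htot : ∀ z ∈ paths TT, Ini (LL π) z → ∀ n, ∃ l, (val e (seg z l) n).isSome = true)
    (hns : ∀ τ₀ τ₁, π ++ [false] <+: τ₀ → π ++ [true] <+: τ₁ →
      splits e (LL τ₀) (LL τ₁) = false) {z z' : ℕ → Bool} (hz : z ∈ paths TT)
    (hz' : z' ∈ paths TT) (hi : Ini (LL π) z) (hi' : Ini (LL π) z') :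
    out (val e) z = out (val e) z' := by
  have key : ∀ z₀ ∈ paths TT, ∀ z₁ ∈ paths TT, Ini (LL (π ++ [false])) z₀ →
      Ini (LL (π ++ [true])) z₁ → out (val e) z₀ = out (val e) z₁ := by
    intro z₀ h0 z₁ h1 hi0 hi1
    funext n
    by_contra hne
    have hup : ∀ z, Ini (LL (π ++ [false])) z ∨ Ini (LL (π ++ [true])) z → Ini (LL π) z := by
      rintro z (h | h)
      · exact ini_mono (LL_mono (List.prefix_append _ _)) h
      · exact ini_mono (LL_mono (List.prefix_append _ _)) h
    obtain ⟨l₀, hl₀⟩ := htot z₀ h0 (hup _ (Or.inl hi0)) n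
    obtain ⟨l₁, hl₁⟩ := htot z₁ h1 (hup _ (Or.inr hi1)) n
    obtain ⟨a, ha⟩ := Option.isSome_iff_exists.1 hl₀
    obtain ⟨b, hb⟩ := Option.isSome_iff_exists.1 hl₁
    rw [out_eq hv ha, out_eq hv hb] at hne
    obtain ⟨τ₀, h2, h3, h4⟩ := node_of h0 hi0 (k := l₀ + l₁ + n + 1 + (π ++ [false]).length)
      (by omega)
    obtain ⟨τ₁, h5, h6, h7⟩ := node_of h1 hi1 (k := l₀ + l₁ + n + 1 + (π ++ [true]).length)
      (by omega)
    have h8 := LL_len τ₀
    have h9 := LL_len τ₁
    have h10 : val e (LL τ₀) n = some a := by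
      rw [← show seg z₀ (LL τ₀).length = LL τ₀ from h4]
      exact hv.mono (seg_prefix z₀ (by omega)) ha
    have h11 : val e (LL τ₁) n = some b := by
      rw [← show seg z₁ (LL τ₁).length = LL τ₁ from h7]
      exact hv.mono (seg_prefix z₁ (by omega)) hb
    have h12 := splits_of (e := e) (by omega) h10 h11 hne
    rw [hns τ₀ τ₁ h3 h6] at h12
    exact absurd h12 (by simp)
  obtain ⟨w₀, hw₀, hwi₀⟩ := LL_member (π ++ [false])
  obtain ⟨w₁, hw₁, hwi₁⟩ := LL_member (π ++ [true])
  have hw := key w₀ hw₀ w₁ hw₁ hwi₀ hwi₁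
  have hall : ∀ z ∈ paths TT, Ini (LL π) z → out (val e) z = out (val e) w₀ := by
    intro z hz hi
    obtain ⟨i, hi⟩ := child_of hz hi
    cases i
    · rw [key z hz w₁ hw₁ hi hwi₁, hw]
    · exact (key w₀ hw₀ z hz hwi₀ hi).symm
  rw [hall z hz hi, hall z' hz' hi']

/-- If the functional splits everywhere along `y` above a node, it is injective at `y`. -/
theorem inj_of_split {e : Code} (hv : IsFun (val e)) {ν : List Bool} {y z : ℕ → Bool}
    (hy : y ∈ paths TT) (hz : z ∈ paths TT) (hyν : Ini (LL ν) y) (hzν : Ini (LL ν) z)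
    (hsp : ∀ π, ν <+: π → Ini (LL π) y →
      splits e (LL (π ++ [false])) (LL (π ++ [true])) = true)
    (hne : z ≠ y) : out (val e) z ≠ out (val e) y := by
  classical
  have hex : ∃ k, ∃ ρ : List Bool, ρ.length = k ∧ Ini (LL ρ) y ∧ ¬ Ini (LL ρ) z := by
    by_contra hcon
    push Not at hcon
    refine hne (funext fun n => ?_)
    obtain ⟨ρ, h1, h2⟩ := mem_TT.1 hy (n + 1)
    have h3 := hcon (n + 1) ρ h1 h2
    have h4 := LL_len ρ
    have h5 : seg z (LL ρ).length = seg y (LL ρ).length := by
      rw [show seg y (LL ρ).length = LL ρ from h2, show seg z (LL ρ).length = LL ρ from h3]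
    have h6 : (seg z (LL ρ).length)[n]? = (seg y (LL ρ).length)[n]? := by rw [h5]
    rw [seg_getElem? z (by omega), seg_getElem? y (by omega)] at h6
    exact Option.some.inj h6
  obtain ⟨ρ, h1, h2, h3⟩ := Nat.find_spec hex
  have hmin : ∀ k < Nat.find hex, ∀ ρ : List Bool, ρ.length = k → Ini (LL ρ) y →
      Ini (LL ρ) z := by
    intro k hk ρ h4 h5
    by_contra h6
    exact Nat.find_min hex hk ⟨ρ, h4, h5, h6⟩
  have hlt : ν.length < ρ.length := by
    by_contra hcon
    have h4 : ρ <+: ν := LL_prefix h2 hyν (by omega)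
    exact h3 (ini_mono (LL_mono h4) hzν)
  have hne' : ρ ≠ [] := by
    rintro rfl
    simp at hlt
  obtain ⟨π, i, rfl⟩ := List.eq_nil_or_concat ρ |>.resolve_left hne'
  rw [List.concat_eq_append] at h1 h2 h3 hlt
  rw [List.length_append, List.length_singleton] at h1 hlt
  have hπy : Ini (LL π) y := ini_mono (LL_mono (List.prefix_append _ _)) h2
  have hπz : Ini (LL π) z := hmin π.length (by omega) π rfl hπy
  have hνπ : ν <+: π := LL_prefix hyν hπy (by omega)
  obtain ⟨j, hj⟩ := child_of hz hπz
  have hij : j ≠ i := by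
    rintro rfl
    exact h3 hj
  obtain ⟨n, _, i₁, hi₁, i₂, hi₂, a, b, ha, hb, hab⟩ := splits_iff.1 (hsp π hνπ hπy)
  have hout : ∀ (w : ℕ → Bool) (b' : Bool) (k c : ℕ), Ini (LL (π ++ [b'])) w →
      val e ((LL (π ++ [b'])).take k) n = some c → out (val e) w n = c := by
    intro w b' k c h4 h5
    exact out_ini hv (ini_mono (List.take_prefix _ _) h4) h5
  intro heq
  have h6 := congrFun heq n
  cases i <;> cases j
  · exact hij rfl
  · rw [hout z true i₂ b hj hb, hout y false i₁ a h2 ha] at h6
    exact hab h6.symm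
  · rw [hout z false i₁ a hj ha, hout y true i₂ b h2 hb] at h6
    exact hab h6
  · exact hij rfl

/-- The string `ρ` is consistent with the tree and with the output `α`. -/
def consis (T : List Bool → Bool) (v : List Bool → ℕ → Option ℕ) (α ρ : List Bool) : Bool :=
  T ρ && (List.range α.length).all fun m =>
    decide (v ρ m = none) || decide (v ρ m = (α[m]?).map Bool.toNat)

/-- All consistent strings have the bit `b` at `n`. -/
def allb (T : List Bool → Bool) (v : List Bool → ℕ → Option ℕ) (b : Bool) (α : List Bool)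
    (n : ℕ) : Bool :=
  (strs α.length).all fun ρ => !consis T v α ρ || decide (ρ[n]? = some b)

theorem prim_consis {T : List Bool → Bool} {v : List Bool → ℕ → Option ℕ} (hTp : Primrec T)
    (hv : Primrec₂ v) : Primrec₂ (consis T v) := by
  refine Primrec.and.comp (hTp.comp Primrec.snd) (prim_all (Primrec.list_range.comp
    (Primrec.list_length.comp Primrec.fst)) ?_)
  have h1 : Primrec fun b : (List Bool × List Bool) × ℕ => v b.1.2 b.2 :=
    hv.comp (Primrec.snd.comp Primrec.fst) Primrec.snd
  refine Primrec.or.comp (prim_beq h1 (Primrec.const none)) (prim_beq h1 ?_)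
  exact Primrec.option_map (Primrec.list_getElem?.comp (Primrec.fst.comp Primrec.fst)
    Primrec.snd) ((Primrec.dom_finite Bool.toNat).comp Primrec.snd)

theorem prim_allb {T : List Bool → Bool} {v : List Bool → ℕ → Option ℕ} (hTp : Primrec T)
    (hv : Primrec₂ v) (b : Bool) : Primrec₂ (allb T v b) := by
  refine prim_all (prim_strs.comp (Primrec.list_length.comp Primrec.fst)) ?_
  refine Primrec.or.comp (Primrec.not.comp ((prim_consis hTp hv).comp
    (Primrec.fst.comp Primrec.fst) Primrec.snd)) (prim_beq ?_ (Primrec.const (some b)))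
  exact Primrec.list_getElem?.comp Primrec.snd (Primrec.snd.comp Primrec.fst)

/-- A point isolated by its output is computable from the output. -/
theorem turing_of_inj {T : List Bool → Bool} {v : List Bool → ℕ → Option ℕ} (hTp : Primrec T)
    (hT : ∀ σ τ : List Bool, σ <+: τ → T τ = true → T σ = true) (hv : IsFun v)
    (htot : Total v (paths T)) {x y : ℕ → Bool} (hy : y ∈ paths T)
    (hxy : ∀ n, out v y n = (x n).toNat)
    (hinj : ∀ z ∈ paths T, z ≠ y → out v z ≠ out v y) :
    TuringReducible (chr y) (chr x) := by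
  classical
  have hcon : ∀ {s : ℕ} {ρ : List Bool}, consis T v (seg x s) ρ = true ↔ T ρ = true ∧
      ∀ m < s, ∀ w, v ρ m = some w → w = (x m).toNat := by
    intro s ρ
    simp only [consis, Bool.and_eq_true, List.all_eq_true, List.mem_range, seg_length,
      Bool.or_eq_true, decide_eq_true_eq]
    refine and_congr Iff.rfl (forall_congr' fun m => forall_congr' fun hm => ?_)
    rw [seg_getElem? x hm]
    cases v ρ m with
    | none => simp
    | some w => simp
  have hycon : ∀ s, consis T v (seg x s) (seg y s) = true := by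
    intro s
    rw [hcon]
    refine ⟨hy s, fun m _ w hw => ?_⟩
    rw [← hxy m, out_eq hv hw]
  let q : List Bool → ℕ → Bool := fun α n => allb T v false α n || allb T v true α n
  have hq : Primrec₂ q := Primrec.or.comp₂ (prim_allb hTp hv.prim false)
    (prim_allb hTp hv.prim true)
  have hallb : ∀ {b : Bool} {s n : ℕ}, allb T v b (seg x s) n = true ↔
      ∀ ρ : List Bool, ρ.length = s → consis T v (seg x s) ρ = true → ρ[n]? = some b := by
    intro b s n
    simp only [allb, List.all_eq_true, mem_strs, seg_length, Bool.or_eq_true,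
      Bool.not_eq_true', decide_eq_true_eq]
    refine forall_congr' fun ρ => forall_congr' fun _ => ?_
    cases consis T v (seg x s) ρ <;> simp
  have hex : ∀ n, ∃ s, q (seg x s) n = true := by
    intro n
    by_contra hno
    push Not at hno
    have hbad : ∀ s, n < s → ∃ ρ : List Bool, ρ.length = s ∧
        consis T v (seg x s) ρ = true ∧ ρ[n]? ≠ some (y n) := by
      intro s _
      by_contra h1
      push Not at h1
      have h2 : allb T v (y n) (seg x s) n = true := hallb.2 h1
      have h3 := hno s
      simp only [q, Bool.not_eq_true, Bool.or_eq_false_iff] at h3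
      cases hyn : y n with
      | false => rw [hyn, h3.1] at h2; exact absurd h2 (by simp)
      | true => rw [hyn, h3.2] at h2; exact absurd h2 (by simp)
    obtain ⟨z, hz⟩ := exists_path (T := fun ρ => decide (consis T v (seg x ρ.length) ρ = true ∧
        ∀ b, ρ[n]? = some b → b ≠ y n)) (by
      intro σ τ hστ hτ
      simp only [decide_eq_true_eq] at hτ ⊢
      have hle := hστ.length_le
      refine ⟨?_, fun b hb => ?_⟩
      · rw [hcon] at hτ ⊢
        refine ⟨hT _ _ hστ hτ.1.1, fun m hm w hw => ?_⟩
        exact hτ.1.2 m (by omega) w (hv.mono hστ hw)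
      · refine hτ.2 b ?_
        obtain ⟨t, rfl⟩ := hστ
        have hn : n < σ.length := by
          by_contra hn
          rw [List.getElem?_eq_none (not_lt.1 hn)] at hb
          exact absurd hb (by simp)
        rw [List.getElem?_append_left hn]
        exact hb) (by
      intro s
      obtain ⟨ρ, h1, h2, h3⟩ := hbad (max s (n + 1)) (by
        have := le_max_right s (n + 1); omega)
      refine ⟨ρ.take s, by rw [List.length_take, h1]; have := le_max_left s (n + 1); omega, ?_⟩
      simp only [decide_eq_true_eq]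
      have hlen : (ρ.take s).length = s := by
        rw [List.length_take, h1]
        have := le_max_left s (n + 1)
        omega
      rw [hlen]
      refine ⟨?_, fun b hb hby => h3 ?_⟩
      · rw [hcon] at h2 ⊢
        refine ⟨hT _ _ (List.take_prefix _ _) h2.1, fun m hm w hw => ?_⟩
        exact h2.2 m (lt_of_lt_of_le hm (le_max_left _ _)) w (val_take hv hw)
      · rw [← hby, ← hb]
        have hn : n < (ρ.take s).length := by
          by_contra hn
          rw [List.getElem?_eq_none (not_lt.1 hn)] at hb
          exact absurd hb (by simp)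
        rw [hlen] at hn
        rw [List.getElem?_take, if_pos hn])
    simp only [mem_paths, decide_eq_true_eq, seg_length] at hz
    have hzT : z ∈ paths T := fun s => (hcon.1 (hz s).1).1
    have hzy : z = y := by
      by_contra hne
      refine hinj z hzT hne (funext fun m => ?_)
      obtain ⟨l, hl⟩ := htot.get hv hzT m
      have h1 := (hcon.1 (hz (max l (m + 1))).1).2 m (by
        have := le_max_right l (m + 1); omega) _ (hl _ (le_max_left _ _))
      rw [h1, hxy m]
    refine (hz (n + 1)).2 (z n) (seg_getElem? z (Nat.lt_succ_self n)) ?_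
    rw [hzy]
  have hg : TRec x fun n => Nat.find (hex n) := by
    refine trec_least hq (fun n => Nat.find_spec (hex n)) (fun n m hm => ?_)
    have := Nat.find_min (hex n) hm
    simpa using this
  let G : ℕ → ℕ := fun a => bif allb T v true ((decode a.unpair.1 : Option (List Bool)).getD [])
    a.unpair.2 then 1 else 0
  have hG : Primrec G := Primrec.cond ((prim_allb hTp hv.prim true).comp
    (Primrec.option_getD.comp (Primrec.decode.comp (Primrec.fst.comp Primrec.unpair))
      (Primrec.const [])) (Primrec.snd.comp Primrec.unpair)) (Primrec.const 1)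
    (Primrec.const 0)
  have h3 : TRec x fun n => G (Nat.pair (encode (seg x (Nat.find (hex n)))) n) :=
    (TRec.of_computable hG.to_comp).comp ((trec_seg.comp hg).pair
      (TRec.of_computable Computable.id))
  have h4 : (fun n => (y n).toNat) =
      fun n => G (Nat.pair (encode (seg x (Nat.find (hex n)))) n) := by
    funext n
    simp only [G, Nat.unpair_pair, encodek, Option.getD_some]
    have h5 := Nat.find_spec (hex n)
    set s := Nat.find (hex n) with hs
    have h6 : ∀ {b : Bool}, allb T v b (seg x s) n = true → y n = b := by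
      intro b hb
      have h7 := hallb.1 hb (seg y s) (seg_length y s) (hycon s)
      have hn : n < s := by
        by_contra hn
        rw [seg_getElem?_ge y (not_lt.1 hn)] at h7
        exact absurd h7 (by simp)
      rw [seg_getElem? y hn] at h7
      exact Option.some.inj h7
    cases hb : allb T v true (seg x s) n with
    | true => rw [h6 hb]; rfl
    | false =>
      simp only [q, hb, Bool.or_false] at h5
      rw [h6 h5]
      rfl
  have h5 : TRec x fun n => (y n).toNat := by
    rw [h4]
    exact h3
  exact h5.turing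

theorem minimal_TT {y : ℕ → Bool} (hy : y ∈ paths TT) (hyp : HyperimmuneFree y) :
    MinimalDegree y := by
  refine ⟨noncomputable_TT hy, fun x hx => ?_⟩
  obtain ⟨e, hv, hv'⟩ := exists_val (f := fun n => (x n).toNat) hx
  obtain ⟨σ, hσ, htot⟩ := nbhd_total prim_TT thin_TT hv hy hyp (fun n => by
    obtain ⟨l, hl⟩ := hv' n
    exact ⟨l, by rw [hl]; rfl⟩)
  have hout : ∀ n, out (val e) y n = (x n).toNat := fun n => computes_out hv hv' n
  obtain ⟨ν, hν, hνy⟩ := mem_TT.1 hy (σ.length + Nat.pair 2 (encode e))
  have hσν : σ <+: LL ν := by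
    have h4 := hσ.pre (n := (LL ν).length) (by have := LL_len ν; omega)
    rwa [show seg y (LL ν).length = LL ν from hνy] at h4
  have htot' : ∀ z ∈ paths TT, Ini (LL ν) z → ∀ n, ∃ l, (val e (seg z l) n).isSome = true := by
    intro z hz hi
    refine htot z ?_
    rw [paths_cone]
    exact ⟨hz, ini_mono hσν hi⟩
  by_cases hcase : ∃ π, ν <+: π ∧ Ini (LL π) y ∧ ∀ τ₀ τ₁, π ++ [false] <+: τ₀ →
      π ++ [true] <+: τ₁ → splits e (LL τ₀) (LL τ₁) = false
  · left
    obtain ⟨π, hνπ, hπy, hns⟩ := hcase
    have h1 : Total (val e) (paths (cone TT (LL π))) := by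
      intro z hz
      rw [paths_cone] at hz
      exact htot' z hz.1 (ini_mono (LL_mono hνπ) hz.2)
    have h2 : Computable fun n => (x n).toNat := by
      refine computable_of_const (prim_cone prim_TT (LL π)) (cone_closed TT_closed (LL π)) hv h1
        (fun z hz => ?_) (y := y) (by rw [paths_cone]; exact ⟨hy, hπy⟩)
      rw [paths_cone] at hz
      rw [const_of_nosplit hv (fun w hw hwi => htot' w hw (ini_mono (LL_mono hνπ) hwi)) hns
        hz.1 hy hz.2 hπy]
      exact funext hout
    have h7 : Primrec fun m : ℕ => !decide (m = 0) :=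
      Primrec.not.comp (prim_beq Primrec.id (Primrec.const 0))
    refine (h7.to_comp.comp h2).of_eq fun n => ?_
    cases x n <;> rfl
  · right
    push Not at hcase
    have hsp : ∀ π, ν <+: π → Ini (LL π) y →
        splits e (LL (π ++ [false])) (LL (π ++ [true])) = true := by
      intro π hνπ hπy
      have hle := hνπ.length_le
      rcases LL_main π (j := Nat.pair 2 (encode e)) (by omega) with h | h
      · rwa [Theta_two] at h
      · obtain ⟨τ₀, τ₁, h1, h2, h3⟩ := hcase π hνπ hπy
        have h4 := h τ₀ τ₁ h1 h2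
        rw [Theta_two] at h4
        exact absurd h4 (by simpa using h3)
    refine turing_of_inj (prim_cone prim_TT (LL ν)) (cone_closed TT_closed (LL ν)) hv
      (fun z hz => ?_) (by rw [paths_cone]; exact ⟨hy, hνy⟩) hout (fun z hz hne => ?_)
    · rw [paths_cone] at hz
      exact htot' z hz.1 hz.2
    · rw [paths_cone] at hz
      exact inj_of_split hv hy hz.1 hνy hz.2 hsp hne

end Pool.Agent.H59.Hif
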