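import Pool.Agent.H59.Hif.Generic

/-!
# Moves: re-indexing the full binary tree above a node
-/

set_option autoImplicit false

namespace Pool.Agent.H59.Hif

open Pool.Agent.H77.Thin Encodable
open Nat.Partrec (Code)

/-- A move: a node together with the new roots of the two subtrees above it. -/
abbrev Move : Type := List Bool × List Bool × List Bool

/-- The new root of the subtree above `m.1 ++ [i]`. -/
def root (m : Move) (i : Bool) : List Bool := bif i then m.2.2 else m.2.1

/-- The re-indexing of strings by a move. -/
def mv (m : Move) (ρ : List Bool) : List Bool :=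
  bif pre (m.1 ++ [false]) ρ then m.2.1 ++ ρ.drop (m.1.length + 1) else
  bif pre (m.1 ++ [true]) ρ then m.2.2 ++ ρ.drop (m.1.length + 1) else ρ

/-- The move goes upwards. -/
def Valid (m : Move) : Prop := ∀ i : Bool, m.1 ++ [i] <+: root m i

/-- Comparability of strings. -/
def Comp (α β : List Bool) : Prop := α <+: β ∨ β <+: α

theorem Comp.symm {α β : List Bool} (h : Comp α β) : Comp β α := Or.symm h

theorem comp_of_prefix {α β γ : List Bool} (h1 : α <+: γ) (h2 : β <+: γ) : Comp α β :=
  List.prefix_or_prefix_of_prefix h1 h2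

/-- Prefixes of comparable strings are comparable. -/
theorem Comp.down {α β α' β' : List Bool} (h : Comp α β) (h1 : α' <+: α) (h2 : β' <+: β) :
    Comp α' β' := by
  rcases h with h | h
  · exact comp_of_prefix (h1.trans h) h2
  · exact comp_of_prefix h1 (h2.trans h)

theorem not_comp_snoc (π : List Bool) : ¬ Comp (π ++ [false]) (π ++ [true]) := by
  rintro (h | h)
  · have := h.eq_of_length (by simp)
    simp at this
  · have := h.eq_of_length (by simp)
    simp at this

theorem not_comp_snoc' (π : List Bool) {i j : Bool} (h : i ≠ j) :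
    ¬ Comp (π ++ [i]) (π ++ [j]) := by
  cases i <;> cases j
  · exact absurd rfl h
  · exact not_comp_snoc π
  · exact fun h => not_comp_snoc π h.symm
  · exact absurd rfl h

theorem mv_cases (m : Move) (ρ : List Bool) :
    (∃ i r, ρ = (m.1 ++ [i]) ++ r ∧ mv m ρ = root m i ++ r) ∨
      (mv m ρ = ρ ∧ ∀ i, ¬ m.1 ++ [i] <+: ρ) := by
  cases h0 : pre (m.1 ++ [false]) ρ with
  | true =>
    left
    obtain ⟨r, hr⟩ := pre_iff.1 h0
    refine ⟨false, r, hr.symm, ?_⟩
    unfold mv root
    rw [h0, cond_true, cond_false, ← hr]
    congr 1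
    rw [List.append_assoc, List.drop_append]
    simp
  | false =>
    cases h1 : pre (m.1 ++ [true]) ρ with
    | true =>
      left
      obtain ⟨r, hr⟩ := pre_iff.1 h1
      refine ⟨true, r, hr.symm, ?_⟩
      unfold mv root
      rw [h0, h1, cond_true, cond_false, cond_true, ← hr]
      congr 1
      rw [List.append_assoc, List.drop_append]
      simp
    | false =>
      right
      refine ⟨by unfold mv; rw [h0, h1]; rfl, fun i hi => ?_⟩
      have h2 := pre_iff.2 hi
      cases i
      · rw [h0] at h2; exact absurd h2 (by simp)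
      · rw [h1] at h2; exact absurd h2 (by simp)

theorem mv_root (m : Move) (i : Bool) : mv m (m.1 ++ [i]) = root m i := by
  rcases mv_cases m (m.1 ++ [i]) with ⟨j, r, h1, h2⟩ | ⟨_, h2⟩
  · have hr : r = [] := by
      have := congrArg List.length h1
      simp only [List.length_append, List.length_singleton] at this
      exact List.length_eq_zero_iff.1 (by omega)
    subst hr
    rw [List.append_nil] at h1 h2
    have hij : [i] = [j] := List.append_cancel_left h1
    rw [h2]
    simp only [List.cons.injEq, and_true] at hij
    rw [hij]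
  · exact absurd (List.prefix_refl _) (h2 i)

theorem mv_short {m : Move} {ρ : List Bool} (h : ρ.length ≤ m.1.length) : mv m ρ = ρ := by
  rcases mv_cases m ρ with ⟨i, r, h1, _⟩ | ⟨h1, _⟩
  · have := congrArg List.length h1
    simp only [List.length_append, List.length_singleton] at this
    omega
  · exact h1

theorem mv_ge {m : Move} (hm : Valid m) {ρ : List Bool} (h : ρ.length ≤ m.1.length + 1) :
    ρ <+: mv m ρ := by
  rcases mv_cases m ρ with ⟨i, r, h1, h2⟩ | ⟨h1, _⟩
  · have h3 := congrArg List.length h1
    simp only [List.length_append, List.length_singleton] at h3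
    have hr : r = [] := List.length_eq_zero_iff.1 (by omega)
    rw [h2, h1, hr, List.append_nil, List.append_nil]
    exact hm i
  · rw [h1]

theorem mv_mono {m : Move} (hm : Valid m) {ρ ρ' : List Bool} (h : ρ <+: ρ') :
    mv m ρ <+: mv m ρ' := by
  rcases mv_cases m ρ with ⟨i, r, h1, h2⟩ | ⟨h1, h2⟩
  · obtain ⟨t, ht⟩ := h
    rcases mv_cases m ρ' with ⟨j, r', h3, h4⟩ | ⟨_, h4⟩
    · have h5 : (m.1 ++ [i]) ++ (r ++ t) = (m.1 ++ [j]) ++ r' := by
        rw [← h3, ← ht, h1]
        simp only [List.append_assoc]
      obtain ⟨h6, h7⟩ := List.append_inj h5 (by simp)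
      have hij : [i] = [j] := List.append_cancel_left h6
      simp only [List.cons.injEq, and_true] at hij
      rw [h2, h4, ← hij, ← h7, ← List.append_assoc]
      exact List.prefix_append _ _
    · refine absurd ?_ (h4 i)
      rw [← ht, h1, List.append_assoc]
      exact List.prefix_append _ _
  · rw [h1]
    rcases mv_cases m ρ' with ⟨j, r', h3, h4⟩ | ⟨h3, _⟩
    · rw [h4]
      have h5 : m.1 ++ [j] <+: ρ' := by
        rw [h3]
        exact List.prefix_append _ _
      rcases List.prefix_or_prefix_of_prefix h h5 with h6 | h6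
      · exact (h6.trans (hm j)).trans (List.prefix_append _ _)
      · exact absurd h6 (h2 j)
    · rw [h3]
      exact h

theorem mv_len {m : Move} (hm : Valid m) (ρ : List Bool) : ρ.length ≤ (mv m ρ).length := by
  rcases mv_cases m ρ with ⟨i, r, h1, h2⟩ | ⟨h1, _⟩
  · have h3 := (hm i).length_le
    rw [h2, h1]
    simp only [List.length_append] at h3 ⊢
    omega
  · rw [h1]

theorem mv_comp_aux {m : Move} (hm : Valid m) {α β r : List Bool} {i : Bool}
    (h1 : α = (m.1 ++ [i]) ++ r) (h2 : mv m α = root m i ++ r)
    (h3 : mv m β = β) (h4 : ∀ i, ¬ m.1 ++ [i] <+: β) (h : Comp (mv m α) (mv m β)) :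
    Comp α β := by
  rw [h2, h3] at h
  have h5 : m.1 ++ [i] <+: root m i ++ r := (hm i).trans (List.prefix_append _ _)
  rcases h with h | h
  · exact absurd (h5.trans h) (h4 i)
  · rcases List.prefix_or_prefix_of_prefix h h5 with h6 | h6
    · right
      rw [h1]
      exact h6.trans (List.prefix_append _ _)
    · exact absurd h6 (h4 i)

theorem mv_comp {m : Move} (hm : Valid m) {α β : List Bool} (h : Comp (mv m α) (mv m β)) :
    Comp α β := by
  rcases mv_cases m α with ⟨i, r, h1, h2⟩ | ⟨h1, h2⟩
  · rcases mv_cases m β with ⟨j, r', h3, h4⟩ | ⟨h3, h4⟩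
    · by_cases hij : i = j
      · subst hij
        rw [h2, h4] at h
        rw [h1, h3]
        rcases h with h | h
        · exact Or.inl ((List.prefix_append_right_inj _).2
            ((List.prefix_append_right_inj _).1 h))
        · exact Or.inr ((List.prefix_append_right_inj _).2
            ((List.prefix_append_right_inj _).1 h))
      · exfalso
        rw [h2, h4] at h
        exact not_comp_snoc' m.1 hij (h.down ((hm i).trans (List.prefix_append _ _))
          ((hm j).trans (List.prefix_append _ _)))
    · exact mv_comp_aux hm h1 h2 h3 h4 h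
  · rcases mv_cases m β with ⟨j, r', h3, h4⟩ | ⟨h3, _⟩
    · exact (mv_comp_aux hm h3 h4 h1 h2 h.symm).symm
    · rwa [h1, h3] at h

/-- The re-indexing by a list of moves, the last move being applied first. -/
def emb (M : List Move) (ρ : List Bool) : List Bool := M.foldr mv ρ

theorem emb_snoc (M : List Move) (m : Move) (ρ : List Bool) :
    emb (M ++ [m]) ρ = emb M (mv m ρ) := by
  simp [emb, List.foldr_append]

theorem emb_mono {M : List Move} (hM : ∀ m ∈ M, Valid m) {ρ ρ' : List Bool} (h : ρ <+: ρ') :
    emb M ρ <+: emb M ρ' := by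
  induction M with
  | nil => exact h
  | cons m M ih =>
    exact mv_mono (hM m List.mem_cons_self) (ih fun m' hm' => hM m' (List.mem_cons_of_mem _ hm'))

theorem emb_len {M : List Move} (hM : ∀ m ∈ M, Valid m) (ρ : List Bool) :
    ρ.length ≤ (emb M ρ).length := by
  induction M with
  | nil => exact le_rfl
  | cons m M ih =>
    exact le_trans (ih fun m' hm' => hM m' (List.mem_cons_of_mem _ hm'))
      (mv_len (hM m List.mem_cons_self) _)

theorem emb_comp {M : List Move} (hM : ∀ m ∈ M, Valid m) {α β : List Bool}
    (h : Comp (emb M α) (emb M β)) : Comp α β := by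
  induction M with
  | nil => exact h
  | cons m M ih =>
    exact ih (fun m' hm' => hM m' (List.mem_cons_of_mem _ hm'))
      (mv_comp (hM m List.mem_cons_self) h)

/-! ### Computability -/

theorem prim_mv : Primrec₂ mv := by
  have hsn : ∀ b : Bool, Primrec fun a : Move × List Bool => a.1.1 ++ [b] := fun b =>
    Primrec.list_concat.comp (Primrec.fst.comp Primrec.fst) (Primrec.const b)
  have hd : Primrec fun a : Move × List Bool => a.2.drop (a.1.1.length + 1) :=
    Primrec.list_drop.comp (Primrec.succ.comp (Primrec.list_length.comp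
      (Primrec.fst.comp Primrec.fst))) Primrec.snd
  refine Primrec.cond (prim_pre.comp (hsn false) Primrec.snd) ?_
    (Primrec.cond (prim_pre.comp (hsn true) Primrec.snd) ?_ Primrec.snd)
  · exact Primrec.list_append.comp (Primrec.fst.comp (Primrec.snd.comp Primrec.fst)) hd
  · exact Primrec.list_append.comp (Primrec.snd.comp (Primrec.snd.comp Primrec.fst)) hd

theorem prim_emb : Primrec₂ emb := by
  refine Primrec.list_foldr (h := fun (_ : List Move × List Bool) (b : Move × List Bool) =>
    mv b.1 b.2) Primrec.fst Primrec.snd ?_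
  exact prim_mv.comp (Primrec.fst.comp Primrec.snd) (Primrec.snd.comp Primrec.snd)

end Pool.Agent.H59.Hif
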