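import Pool.Agent.H59.Hif.Lim

/-!
# The requirements for thinness and for minimality
-/

set_option autoImplicit false

namespace Pool.Agent.H59.Hif

open Pool.Agent.H77.Thin Encodable
open Nat.Partrec (Code)

theorem prim_tree2 : Primrec fun a : Code × List Bool => tree a.1 a.2 := by
  refine prim_all (Primrec.list_range.comp (Primrec.succ.comp
    (Primrec.list_length.comp Primrec.snd))) ?_
  refine Primrec.not.comp (prim_beq ?_ (Primrec.const _))
  exact Code.primrec_evaln.comp (Primrec.pair (Primrec.pair
      (Primrec.list_length.comp (Primrec.snd.comp Primrec.fst))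
      (Primrec.fst.comp Primrec.fst))
      (Primrec.encode.comp (prim_take Primrec.snd (Primrec.snd.comp Primrec.fst))))

theorem prim_val2 : Primrec fun a : Code × List Bool × ℕ => val a.1 a.2.1 a.2.2 := by
  have h1 : Primrec fun a : Code × List Bool × ℕ => List.range (a.2.1.length + 1) :=
    Primrec.list_range.comp (Primrec.succ.comp (Primrec.list_length.comp
      (Primrec.fst.comp Primrec.snd)))
  have h2 : Primrec₂ fun (a : Code × List Bool × ℕ) (j : ℕ) =>
      Code.evaln a.2.1.length a.1 (encode (a.2.1.take j, a.2.2)) := by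
    refine Code.primrec_evaln.comp (Primrec.pair (Primrec.pair
      (Primrec.list_length.comp (Primrec.fst.comp (Primrec.snd.comp Primrec.fst)))
      (Primrec.fst.comp Primrec.fst)) ?_)
    exact Primrec.encode.comp (Primrec.pair (prim_take Primrec.snd
      (Primrec.fst.comp (Primrec.snd.comp Primrec.fst)))
      (Primrec.snd.comp (Primrec.snd.comp Primrec.fst)))
  exact Primrec.list_head?.comp (Primrec.listFilterMap h1 h2)

/-- The strings give different values at `n` for the functional with code `e`. -/
def sp0 (e : Code) (σ τ : List Bool) (n : ℕ) : Bool :=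
  ((val e σ n).isSome && (val e τ n).isSome) && !decide (val e σ n = val e τ n)

/-- Some initial segment of `τ` gives a value different from that of `σ`. -/
def sp1 (e : Code) (σ τ : List Bool) (n : ℕ) : Bool :=
  (List.range (τ.length + 1)).any fun k => sp0 e σ (τ.take k) n

/-- Some initial segments give different values at `n`. -/
def sp2 (e : Code) (σ τ : List Bool) (n : ℕ) : Bool :=
  (List.range (σ.length + 1)).any fun i => sp1 e (σ.take i) τ n

/-- The strings give different values for the functional with code `e`. -/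
def splits (e : Code) (α β : List Bool) : Bool :=
  (List.range α.length).any fun n => sp2 e α β n

theorem splits_iff {e : Code} {α β : List Bool} : splits e α β = true ↔
    ∃ n < α.length, ∃ i ≤ α.length, ∃ k ≤ β.length, ∃ a b, val e (α.take i) n = some a ∧
      val e (β.take k) n = some b ∧ a ≠ b := by
  simp only [splits, sp2, sp1, sp0, List.any_eq_true, List.mem_range, Bool.and_eq_true,
    Bool.not_eq_true', decide_eq_false_iff_not, Nat.lt_succ_iff]
  constructor
  · rintro ⟨n, hn, i, hi, k, hk, ⟨h1, h2⟩, h3⟩
    obtain ⟨a, ha⟩ := Option.isSome_iff_exists.1 h1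
    obtain ⟨b, hb⟩ := Option.isSome_iff_exists.1 h2
    refine ⟨n, hn, i, hi, k, hk, a, b, ha, hb, fun hab => h3 ?_⟩
    rw [ha, hb, hab]
  · rintro ⟨n, hn, i, hi, k, hk, a, b, ha, hb, hab⟩
    refine ⟨n, hn, i, hi, k, hk, ⟨by rw [ha]; rfl, by rw [hb]; rfl⟩, ?_⟩
    rw [ha, hb]
    simpa using hab

theorem take_of_prefix {α α' : List Bool} (h : α <+: α') {i : ℕ} (hi : i ≤ α.length) :
    α'.take i = α.take i := by
  rw [List.prefix_iff_eq_take.1 h, List.take_take, min_eq_left hi]

theorem splits_mono {e : Code} {α β α' β' : List Bool} (h1 : α <+: α') (h2 : β <+: β')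
    (h : splits e α β = true) : splits e α' β' = true := by
  rw [splits_iff] at h ⊢
  obtain ⟨n, hn, i, hi, k, hk, a, b, ha, hb, hab⟩ := h
  have h3 := h1.length_le
  have h4 := h2.length_le
  refine ⟨n, by omega, i, by omega, k, by omega, a, b, ?_, ?_, hab⟩
  · rw [take_of_prefix h1 hi]; exact ha
  · rw [take_of_prefix h2 hk]; exact hb

theorem splits_of {e : Code} {α β : List Bool} {n a b : ℕ} (hn : n < α.length)
    (ha : val e α n = some a) (hb : val e β n = some b) (hab : a ≠ b) :
    splits e α β = true := by
  rw [splits_iff]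
  refine ⟨n, hn, α.length, le_rfl, β.length, le_rfl, a, b, ?_, ?_, hab⟩
  · rw [List.take_length]; exact ha
  · rw [List.take_length]; exact hb

theorem prim_sp0 : Primrec fun a : Code × List Bool × List Bool × ℕ =>
    sp0 a.1 a.2.1 a.2.2.1 a.2.2.2 := by
  have hn : Primrec fun a : Code × List Bool × List Bool × ℕ => a.2.2.2 :=
    Primrec.snd.comp (Primrec.snd.comp Primrec.snd)
  have h1 : Primrec fun a : Code × List Bool × List Bool × ℕ => val a.1 a.2.1 a.2.2.2 :=
    prim_val2.comp (Primrec.pair Primrec.fst (Primrec.pair (Primrec.fst.comp Primrec.snd) hn))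
  have h2 : Primrec fun a : Code × List Bool × List Bool × ℕ => val a.1 a.2.2.1 a.2.2.2 :=
    prim_val2.comp (Primrec.pair Primrec.fst (Primrec.pair
      (Primrec.fst.comp (Primrec.snd.comp Primrec.snd)) hn))
  exact Primrec.and.comp (Primrec.and.comp (Primrec.option_isSome.comp h1)
    (Primrec.option_isSome.comp h2)) (Primrec.not.comp (prim_beq h1 h2))

theorem prim_sp1 : Primrec fun a : Code × List Bool × List Bool × ℕ =>
    sp1 a.1 a.2.1 a.2.2.1 a.2.2.2 := by
  have hτ : Primrec fun a : Code × List Bool × List Bool × ℕ => a.2.2.1 :=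
    Primrec.fst.comp (Primrec.snd.comp Primrec.snd)
  have hn : Primrec fun a : Code × List Bool × List Bool × ℕ => a.2.2.2 :=
    Primrec.snd.comp (Primrec.snd.comp Primrec.snd)
  have h1 : Primrec fun a : Code × List Bool × List Bool × ℕ =>
      List.range (a.2.2.1.length + 1) :=
    Primrec.list_range.comp (Primrec.succ.comp (Primrec.list_length.comp hτ))
  have h2 : Primrec fun b : (Code × List Bool × List Bool × ℕ) × ℕ =>
      ((b.1.1, b.1.2.1, b.1.2.2.1.take b.2, b.1.2.2.2) : Code × List Bool × List Bool × ℕ) :=
    Primrec.pair (Primrec.fst.comp Primrec.fst) (Primrec.pair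
      (Primrec.fst.comp (Primrec.snd.comp Primrec.fst)) (Primrec.pair
        (prim_take Primrec.snd (hτ.comp Primrec.fst)) (hn.comp Primrec.fst)))
  have h3 : Primrec₂ fun (a : Code × List Bool × List Bool × ℕ) (k : ℕ) =>
      sp0 a.1 a.2.1 (a.2.2.1.take k) a.2.2.2 := prim_sp0.comp h2
  exact prim_any h1 h3

theorem prim_sp2 : Primrec fun a : Code × List Bool × List Bool × ℕ =>
    sp2 a.1 a.2.1 a.2.2.1 a.2.2.2 := by
  have hσ : Primrec fun a : Code × List Bool × List Bool × ℕ => a.2.1 :=
    Primrec.fst.comp Primrec.snd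
  have hr : Primrec fun a : Code × List Bool × List Bool × ℕ => a.2.2 :=
    Primrec.snd.comp Primrec.snd
  have h1 : Primrec fun a : Code × List Bool × List Bool × ℕ =>
      List.range (a.2.1.length + 1) :=
    Primrec.list_range.comp (Primrec.succ.comp (Primrec.list_length.comp hσ))
  have h2 : Primrec fun b : (Code × List Bool × List Bool × ℕ) × ℕ =>
      ((b.1.1, b.1.2.1.take b.2, b.1.2.2) : Code × List Bool × List Bool × ℕ) :=
    Primrec.pair (Primrec.fst.comp Primrec.fst) (Primrec.pair
      (prim_take Primrec.snd (hσ.comp Primrec.fst)) (hr.comp Primrec.fst))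
  have h3 : Primrec₂ fun (a : Code × List Bool × List Bool × ℕ) (i : ℕ) =>
      sp1 a.1 (a.2.1.take i) a.2.2.1 a.2.2.2 := prim_sp1.comp h2
  exact prim_any h1 h3

theorem prim_splits : Primrec fun a : Code × List Bool × List Bool => splits a.1 a.2.1 a.2.2 := by
  have h1 : Primrec fun a : Code × List Bool × List Bool => List.range a.2.1.length :=
    Primrec.list_range.comp (Primrec.list_length.comp (Primrec.fst.comp Primrec.snd))
  have h2 : Primrec fun b : (Code × List Bool × List Bool) × ℕ =>
      ((b.1.1, b.1.2.1, b.1.2.2, b.2) : Code × List Bool × List Bool × ℕ) :=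
    Primrec.pair (Primrec.fst.comp Primrec.fst) (Primrec.pair
      (Primrec.fst.comp (Primrec.snd.comp Primrec.fst)) (Primrec.pair
        (Primrec.snd.comp (Primrec.snd.comp Primrec.fst)) Primrec.snd))
  have h3 : Primrec₂ fun (a : Code × List Bool × List Bool) (n : ℕ) =>
      sp2 a.1 a.2.1 a.2.2 n := prim_sp2.comp h2
  exact prim_any h1 h3

/-- The requirements: the left string, or the right string, leaves the `e`-th tree, or the two
strings split for the `e`-th functional. -/
def Theta (j : ℕ) (α β : List Bool) : Bool :=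
  bif decide (j.unpair.1 = 0) then !tree (Denumerable.ofNat Code j.unpair.2) α else
  bif decide (j.unpair.1 = 1) then !tree (Denumerable.ofNat Code j.unpair.2) β else
    splits (Denumerable.ofNat Code j.unpair.2) α β

theorem Theta_zero (e : Code) (α β : List Bool) :
    Theta (Nat.pair 0 (encode e)) α β = !tree e α := by
  simp [Theta]

theorem Theta_one (e : Code) (α β : List Bool) :
    Theta (Nat.pair 1 (encode e)) α β = !tree e β := by
  simp [Theta]

theorem Theta_two (e : Code) (α β : List Bool) :
    Theta (Nat.pair 2 (encode e)) α β = splits e α β := by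
  simp [Theta]

theorem Theta_mono : ∀ j α β α' β', α <+: α' → β <+: β' → Theta j α β = true →
    Theta j α' β' = true := by
  intro j α β α' β' h1 h2 h
  unfold Theta at h ⊢
  cases hj0 : decide (j.unpair.1 = 0) with
  | true =>
    rw [hj0, cond_true, Bool.not_eq_true'] at h
    rw [cond_true, Bool.not_eq_true']
    by_contra hcon
    rw [Bool.not_eq_false] at hcon
    rw [tree_closed _ _ _ h1 hcon] at h
    exact absurd h (by simp)
  | false =>
    rw [hj0, cond_false] at h
    rw [cond_false]
    cases hj1 : decide (j.unpair.1 = 1) with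
    | true =>
      rw [hj1, cond_true, Bool.not_eq_true'] at h
      rw [cond_true, Bool.not_eq_true']
      by_contra hcon
      rw [Bool.not_eq_false] at hcon
      rw [tree_closed _ _ _ h2 hcon] at h
      exact absurd h (by simp)
    | false =>
      rw [hj1, cond_false] at h
      rw [cond_false]
      exact splits_mono h1 h2 h

theorem prim_Theta : Primrec fun a : ℕ × List Bool × List Bool => Theta a.1 a.2.1 a.2.2 := by
  have h1 : Primrec fun a : ℕ × List Bool × List Bool => a.1.unpair.1 :=
    Primrec.fst.comp (Primrec.unpair.comp Primrec.fst)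
  have h2 : Primrec fun a : ℕ × List Bool × List Bool => Denumerable.ofNat Code a.1.unpair.2 :=
    (Primrec.ofNat Code).comp (Primrec.snd.comp (Primrec.unpair.comp Primrec.fst))
  refine Primrec.cond (prim_beq h1 (Primrec.const 0)) ?_ (Primrec.cond
    (prim_beq h1 (Primrec.const 1)) ?_ ?_)
  · exact Primrec.not.comp (prim_tree2.comp (Primrec.pair h2 (Primrec.fst.comp Primrec.snd)))
  · exact Primrec.not.comp (prim_tree2.comp (Primrec.pair h2 (Primrec.snd.comp Primrec.snd)))
  · exact prim_splits.comp (Primrec.pair h2 Primrec.snd)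

/-- The tree of the class. -/
def TT : List Bool → Bool := down (tp Theta)

theorem prim_TT : Primrec TT := prim_down (prim_tp prim_Theta)

theorem TT_closed (σ τ : List Bool) (h : σ <+: τ) (hτ : TT τ = true) : TT σ = true :=
  down_closed σ τ h hτ

/-- The limit embedding for the requirements. -/
noncomputable def LL (ρ : List Bool) : List Bool := lim Theta_mono ρ

theorem LL_mono {ρ ρ' : List Bool} (h : ρ <+: ρ') : LL ρ <+: LL ρ' := lim_mono Theta_mono h

theorem LL_len (ρ : List Bool) : ρ.length ≤ (LL ρ).length := lim_len Theta_mono ρ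

theorem mem_TT {z : ℕ → Bool} : z ∈ paths TT ↔
    ∀ k, ∃ ρ : List Bool, ρ.length = k ∧ Ini (LL ρ) z := mem_class' Theta_mono

theorem LL_member (ρ : List Bool) : ∃ z ∈ paths TT, Ini (LL ρ) z := exists_member Theta_mono ρ

theorem LL_unique {z : ℕ → Bool} {α β : List Bool} (h1 : Ini (LL α) z) (h2 : Ini (LL β) z) :
    Comp α β := node_unique Theta_mono h1 h2

theorem LL_prefix {z : ℕ → Bool} {α β : List Bool} (h1 : Ini (LL α) z) (h2 : Ini (LL β) z)
    (h : α.length ≤ β.length) : α <+: β := by
  rcases LL_unique h1 h2 with h3 | h3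
  · exact h3
  · rw [h3.eq_of_length (le_antisymm h3.length_le h)]

theorem LL_main (π : List Bool) {j : ℕ} (hj : j ≤ π.length) :
    Theta j (LL (π ++ [false])) (LL (π ++ [true])) = true ∨
      ∀ τ₀ τ₁, π ++ [false] <+: τ₀ → π ++ [true] <+: τ₁ →
        Theta j (LL τ₀) (LL τ₁) = false := lim_main Theta_mono π hj

end Pool.Agent.H59.Hif
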