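import Pool.Agent.H59.Hif.Free

/-!
# No member of a thin class computes a diagonally noncomputable function with bounded use
-/

set_option autoImplicit false

namespace Pool.Agent.H59.Hif

open Pool.Agent.H77.Thin Encodable
open Nat.Partrec (Code)

/-- `f` is weak truth-table reducible to `y`: a partial computable function computes `f(n)` from
`n` and the first `m(n)` bits of `y`, for some computable `m`. -/
def WttReducible (f : ℕ → ℕ) (y : ℕ → Bool) : Prop :=
  ∃ w : List Bool → ℕ →. ℕ, Partrec₂ w ∧ ∃ m : ℕ → ℕ, Computable m ∧
    ∀ n, f n ∈ w (seg y (m n)) n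

/-- The functional giving the initial segment of length `m(e)`, for `m` with code `d`. -/
def cut (d : Code) (ρ : List Bool) (e : ℕ) : Option ℕ :=
  (Code.evaln ρ.length d e).bind fun k =>
    bif decide (k ≤ ρ.length) then some (encode (ρ.take k)) else none

theorem cut_some {d : Code} {ρ : List Bool} {e m : ℕ} (h : cut d ρ e = some m) :
    ∃ k, k ∈ d.eval e ∧ k ≤ ρ.length ∧ m = encode (ρ.take k) := by
  unfold cut at h
  cases hk : Code.evaln ρ.length d e with
  | none => rw [hk] at h; exact absurd h (by simp)
  | some k =>
    rw [hk, Option.bind_some] at h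
    by_cases hle : k ≤ ρ.length
    · simp only [hle, decide_true, cond_true, Option.some.injEq] at h
      exact ⟨k, Code.evaln_sound (Option.mem_def.2 hk), hle, h.symm⟩
    · simp [hle] at h

theorem isFun_cut (d : Code) : IsFun (cut d) := by
  refine ⟨?_, ?_⟩
  · refine Primrec.option_bind (Code.primrec_evaln.comp (Primrec.pair (Primrec.pair
      (Primrec.list_length.comp Primrec.fst) (Primrec.const d)) Primrec.snd)) ?_
    refine Primrec.cond (PrimrecPred.decide (Primrec.nat_le.comp Primrec.snd
      (Primrec.list_length.comp (Primrec.fst.comp Primrec.fst)))) ?_ (Primrec.const none)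
    exact Primrec.option_some.comp (Primrec.encode.comp (prim_take Primrec.snd
      (Primrec.fst.comp Primrec.fst)))
  · intro σ τ n m h hm
    unfold cut at hm ⊢
    cases hk : Code.evaln σ.length d n with
    | none => rw [hk] at hm; exact absurd hm (by simp)
    | some k =>
      rw [hk, Option.bind_some] at hm
      rw [Option.mem_def.1 (Code.evaln_mono h.length_le (Option.mem_def.2 hk)), Option.bind_some]
      have hl := h.length_le
      by_cases hle : k ≤ σ.length
      · simp only [hle, decide_true, cond_true, Option.some.injEq] at hm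
        have h1 : k ≤ τ.length := by omega
        simp only [h1, decide_true, cond_true, Option.some.injEq]
        rw [← hm]
        congr 1
        rw [List.prefix_iff_eq_take.1 h, List.take_take, min_eq_left hle]
      · simp [hle] at hm

theorem total_cut {d : Code} {m : ℕ → ℕ} (hd : ∀ i, d.eval i = Part.some (m i))
    (z : ℕ → Bool) (e : ℕ) : ∃ l, cut d (seg z l) e = some (encode (seg z (m e))) := by
  have h1 : m e ∈ d.eval e := by rw [hd]; exact Part.mem_some _
  obtain ⟨k, hk⟩ := Code.evaln_complete.1 h1
  refine ⟨max k (m e), ?_⟩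
  unfold cut
  rw [seg_length, Option.mem_def.1 (Code.evaln_mono (le_max_left k (m e)) hk), Option.bind_some]
  simp only [le_max_right, decide_true, cond_true]
  rw [seg_take z (le_max_right _ _)]

/-- A diagonally noncomputable function computed with bounded use gives one that reads off an
initial segment of computable length. -/
theorem exists_cut {f : ℕ → ℕ} {y : ℕ → Bool} (h : WttReducible f y) (hf : DNC f) :
    ∃ m : ℕ → ℕ, Computable m ∧ DNC fun e => encode (seg y (m e)) := by
  obtain ⟨w, hw, m, hm, hwm⟩ := h
  have h1 : Partrec fun a : ℕ × ℕ => ((Denumerable.ofNat Code a.1).eval a.1).bind fun r =>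
      w ((decode r : Option (List Bool)).getD []) a.2 := by
    refine Partrec.bind ?_ ?_
    · exact Code.eval_part.comp ((Computable.ofNat Code).comp Computable.fst) Computable.fst
    · refine hw.comp ?_ (Computable.snd.comp Computable.fst)
      exact (Primrec.option_getD.comp (Primrec.decode.comp Primrec.snd)
        (Primrec.const [])).to_comp
  have h2 : Nat.Partrec fun n => ((Denumerable.ofNat Code n.unpair.1).eval n.unpair.1).bind
      fun r => w ((decode r : Option (List Bool)).getD []) n.unpair.2 := by
    refine Partrec.nat_iff.1 ?_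
    exact h1.comp (Computable.pair (Computable.fst.comp Computable.unpair)
      (Computable.snd.comp Computable.unpair))
  obtain ⟨c, hc⟩ := Code.exists_code.1 h2
  refine ⟨fun e => m (encode (Code.curry c e)), ?_, fun d hd => ?_⟩
  · refine hm.comp (Primrec.to_comp ?_)
    exact Primrec.encode.comp (Code.primrec₂_curry.comp (Primrec.const c) Primrec.id)
  · refine hf (Code.curry c (encode d)) ?_
    rw [Code.eval_curry, hc]
    simp only [Nat.unpair_pair, Denumerable.ofNat_encode]
    rw [Part.mem_bind_iff]
    refine ⟨_, hd, ?_⟩
    simp only [encodek, Option.getD_some]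
    exact hwm _

theorem wtt_props {P : Set (ℕ → Bool)} (hP : IsThin P) {y : ℕ → Bool} (hy : y ∈ P)
    {f : ℕ → ℕ} (hf : WttReducible f y) : ¬ DNC f := by
  intro hdnc
  obtain ⟨m, hm, hm'⟩ := exists_cut hf hdnc
  obtain ⟨d, hd⟩ := Code.exists_code.1 (Partrec.nat_iff.1 hm.partrec)
  have heval : ∀ i, d.eval i = Part.some (m i) := fun i => by rw [hd]; rfl
  obtain ⟨c, hc⟩ := exists_tree hP.1
  have hPT : P = paths (tree c) := hc
  have hthin : IsThin (paths (tree c)) := hPT ▸ hP
  have hyT : y ∈ paths (tree c) := hPT ▸ hy
  have hv := isFun_cut d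
  have htot : Total (cut d) (paths (tree c)) := fun z _ e => by
    obtain ⟨l, hl⟩ := total_cut heval z e
    exact ⟨l, by rw [hl]; rfl⟩
  have hout : out (cut d) y = fun e => encode (seg y (m e)) := by
    funext e
    obtain ⟨l, hl⟩ := total_cut heval y e
    exact out_eq hv hl
  obtain ⟨τ, hτ, hτB⟩ := nbhd hthin (isPi01_of_prim (prim_dnc (prim_tree c) hv.prim))
    (fun z hz => ((dnc_iff hv htot).1 hz).1) ((dnc_iff hv htot).2 ⟨hyT, by rw [hout]; exact hm'⟩)
  have hsub : paths (cone (tree c) τ) ⊆ paths (tree c) := by
    rw [paths_cone τ]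
    exact fun z hz => hz.1
  refine no_dnc (prim_cone (prim_tree c) τ) (cone_closed (tree_closed c) τ)
    (sub_thin hthin (isPi01_paths (prim_cone (prim_tree c) τ) (cone_closed (tree_closed c) τ))
      hsub) hv (htot.sub hsub) (fun z hz => ?_) y (by rw [paths_cone τ]; exact ⟨hyT, hτ⟩)
  rw [paths_cone τ] at hz
  exact ((dnc_iff hv htot).1 (hτB z hz.1 hz.2)).2

end Pool.Agent.H59.Hif
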